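import Pool.Agent.W641.OS.WPI

/-!
# Independence of the choice of the smash products, and the main theorem
-/

set_option autoImplicit false
set_option linter.unusedVariables false
set_option synthInstance.maxHeartbeats 400000

namespace Pool.Agent.W641.OS

open Topology OnePoint Matrix Set Filter

/-- The identity morphism. -/
def Hom.idH (X : OrthSpectrum) : Hom X X where
  f n x := x
  cont n := continuous_id
  pt n := rfl
  act n g x := rfl
  σ n x t := rfl

/-- The composite of two morphisms. -/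
def Hom.comp {X Y Z : OrthSpectrum} (g : Hom Y Z) (f : Hom X Y) : Hom X Z where
  f n x := g.f n (f.f n x)
  cont n := (g.cont n).comp (f.cont n)
  pt n := by rw [f.pt, g.pt]
  act n o x := by rw [f.act, g.act]
  σ n x t := by rw [f.σ, g.σ]

theorem Hom.f_tr {X Y : OrthSpectrum} (f : Hom X Y) {m n : ℕ} (h : m = n) (x : X.sp m) :
    f.f n (X.tr h x) = Y.tr h (f.f m x) := by
  subst h
  rfl

theorem StablePi.map_comp {X Y Z : OrthSpectrum} (g : Hom Y Z) (f : Hom X Y) (k : ℤ)
    (x : StablePi X k) : StablePi.map (g.comp f) k x = StablePi.map g k (StablePi.map f k x) := by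
  obtain ⟨r⟩ := x
  rfl

theorem StablePi.map_id (X : OrthSpectrum) (k : ℤ) (x : StablePi X k) :
    StablePi.map (Hom.idH X) k x = x := by
  obtain ⟨r⟩ := x
  rfl

theorem IsStableEquiv.comp {X Y Z : OrthSpectrum} {g : Hom Y Z} {f : Hom X Y}
    (hg : IsStableEquiv g) (hf : IsStableEquiv f) : IsStableEquiv (g.comp f) := by
  intro k
  have h1 : StablePi.map (g.comp f) k = StablePi.map g k ∘ StablePi.map f k :=
    funext fun x => StablePi.map_comp g f k x
  rw [h1]
  exact (hg k).comp (hf k)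

theorem isStableEquiv_of_inv {X Y : OrthSpectrum} {f : Hom X Y} {g : Hom Y X}
    (h1 : g.comp f = Hom.idH X) (h2 : f.comp g = Hom.idH Y) : IsStableEquiv f := by
  intro k
  refine Function.bijective_iff_has_inverse.2 ⟨StablePi.map g k, ?_, ?_⟩
  · intro x
    rw [← StablePi.map_comp, h1, StablePi.map_id]
  · intro x
    rw [← StablePi.map_comp, h2, StablePi.map_id]

/-- Postcomposition of a bimorphism with a morphism. -/
def Bimorphism.post {X Y Z W : OrthSpectrum} (b : Bimorphism X Y Z) (φ : Hom Z W) :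
    Bimorphism X Y W where
  b p q x y := φ.f (p + q) (b.b p q x y)
  cont p q K _ _ _ u w hu hw := (φ.cont (p + q)).comp (b.cont p q K u w hu hw)
  pt_left p q y := by rw [b.pt_left, φ.pt]
  pt_right p q x := by rw [b.pt_right, φ.pt]
  equi p q g h x y := by rw [b.equi, φ.act]
  right p q x y t := (congrArg (φ.f (p + q + 1)) (b.right p q x y t)).trans (φ.σ _ _ _)
  left p q x y t := by rw [b.left, φ.act, φ.f_tr, φ.σ]

/-- Precomposition of a bimorphism with a morphism in the second variable. -/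
def Bimorphism.pre {X Y Y' Z : OrthSpectrum} (b : Bimorphism X Y' Z) (f : Hom Y Y') :
    Bimorphism X Y Z where
  b p q x y := b.b p q x (f.f q y)
  cont p q K _ _ _ u w hu hw := b.cont p q K u (fun k => f.f q (w k)) hu ((f.cont q).comp hw)
  pt_left p q y := b.pt_left p q _
  pt_right p q x := by rw [f.pt, b.pt_right]
  equi p q g h x y := by rw [f.act, b.equi]
  right p q x y t := by rw [f.σ, b.right]
  left p q x y t := b.left p q x _ t

theorem exists_smashMap {X Y Y' P P' : OrthSpectrum} {β : Bimorphism X Y P}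
    (hβ : IsSmash β) (β' : Bimorphism X Y' P') (f : Hom Y Y') :
    ∃! F : Hom P P', IsSmashMap β β' f F := hβ P' (β'.pre f)

theorem IsSmash.iso {X Y P P₂ : OrthSpectrum} {β : Bimorphism X Y P} {β₂ : Bimorphism X Y P₂}
    (hβ : IsSmash β) (hβ₂ : IsSmash β₂) : ∃ (a : Hom P P₂) (b : Hom P₂ P),
      (∀ p q x y, a.f (p + q) (β.b p q x y) = β₂.b p q x y) ∧
      (∀ p q x y, b.f (p + q) (β₂.b p q x y) = β.b p q x y) ∧
      b.comp a = Hom.idH P ∧ a.comp b = Hom.idH P₂ := by
  obtain ⟨a, ha, _⟩ := hβ P₂ β₂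
  obtain ⟨b, hb, _⟩ := hβ₂ P β
  refine ⟨a, b, ha, hb, ?_, ?_⟩
  · refine (hβ P β).unique ?_ ?_
    · intro p q x y
      show b.f (p + q) (a.f (p + q) (β.b p q x y)) = _
      rw [ha, hb]
    · intro p q x y
      rfl
  · refine (hβ₂ P₂ β₂).unique ?_ ?_
    · intro p q x y
      show a.f (p + q) (b.f (p + q) (β₂.b p q x y)) = _
      rw [hb, ha]
    · intro p q x y
      rfl

/-- Whether `X ∧ f` is a stable equivalence does not depend on the choice of the smash
products. -/
theorem isStableEquiv_of_other {X Y Y' P P' P₂ P₂' : OrthSpectrum} {f : Hom Y Y'}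
    {β : Bimorphism X Y P} {β' : Bimorphism X Y' P'} {F : Hom P P'}
    {β₂ : Bimorphism X Y P₂} {β₂' : Bimorphism X Y' P₂'} {F₂ : Hom P₂ P₂'}
    (hβ : IsSmash β) (hβ' : IsSmash β') (hβ₂ : IsSmash β₂) (hβ₂' : IsSmash β₂')
    (hF : IsSmashMap β β' f F) (hF₂ : IsSmashMap β₂ β₂' f F₂) (h : IsStableEquiv F₂) :
    IsStableEquiv F := by
  obtain ⟨a, b, ha, hb, hba, hab⟩ := hβ.iso hβ₂
  obtain ⟨a', b', ha', hb', hba', hab'⟩ := hβ'.iso hβ₂'
  have h1 : F = (b'.comp F₂).comp a := by
    refine (exists_smashMap hβ β' f).unique hF ?_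
    intro p q x y
    show b'.f (p + q) (F₂.f (p + q) (a.f (p + q) (β.b p q x y))) = _
    rw [ha, hF₂, hb']
  rw [h1]
  exact ((isStableEquiv_of_inv hab' hba').comp h).comp (isStableEquiv_of_inv hba hab)

theorem fXW_smashMap : IsSmashMap (bb udS.toBData) (bb udW.toBData) fSB fXW := by
  intro p q x y
  revert x
  refine famX.rec_pnt rfl fun w => ?_
  revert y
  refine famS.rec_pnt ?_ fun v => ?_
  · have h1 : (bb udS.toBData).b p q (famX.pnt p w) ∞ = (∞ : OnePoint (famX.E (p + q))) :=
      bbF_infty_right p q _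
    have h2 : (bb udW.toBData).b p q (famX.pnt p w) ∞ = (∞ : OnePoint (famW.E (p + q))) :=
      bbF_infty_right p q _
    exact (congrArg (fXW.f (p + q)) h1).trans h2.symm
  · have h1 : (bb udS.toBData).b p q (famX.pnt p w) (famS.pnt q v) =
      famX.pnt (p + q) (comb p q w v) := bbF_pnt udS.toBData p q w v
    have h2 : fSB.f q (famS.pnt q v) = famB.pnt q v :=
      colF_pnt famS famB (fun _ _ _ => mem_univ _) q v
    have h3 : (bb udW.toBData).b p q (famX.pnt p w) (famB.pnt q v) =
      famW.pnt (p + q) (comb p q w v) := bbF_pnt udW.toBData p q w v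
    have h4 : fXW.f (p + q) (famX.pnt (p + q) (comb p q w v)) =
      famW.pnt (p + q) (comb p q w v) := colF_pnt famX famW (fun _ _ h => h.1) (p + q) _
    exact (congrArg (fXW.f (p + q)) h1).trans (h4.trans (h3.symm.trans
      (congrArg ((bb udW.toBData).b p q (famX.pnt p w)) h2.symm)))

instance instCompactFam {A : Amb} (F : Fam A) (n : ℕ) : CompactSpace (F.spec.sp n) :=
  inferInstanceAs (CompactSpace (OnePoint (F.E n)))

instance instT2FamSpec {A : Amb} (F : Fam A) (n : ℕ) : T2Space (F.spec.sp n) :=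
  inferInstanceAs (T2Space (OnePoint (F.E n)))

theorem main : ∃ (X Y Y' : OrthSpectrum) (f : Hom Y Y'),
    NiceLevels X ∧ NiceLevels Y ∧ NiceLevels Y' ∧ IsLevelEquiv f ∧ IsStableEquiv f ∧
    (∃ (P : OrthSpectrum) (β : Bimorphism X Y P), IsSmash β) ∧
    (∃ (P' : OrthSpectrum) (β' : Bimorphism X Y' P'), IsSmash β') ∧
    ∀ (P P' : OrthSpectrum) (β : Bimorphism X Y P) (β' : Bimorphism X Y' P'),
      IsSmash β → IsSmash β' →
        (∃! F : Hom P P', IsSmashMap β β' f F) ∧
        ∀ F : Hom P P', IsSmashMap β β' f F → ¬ IsStableEquiv F := by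
  refine ⟨famX.spec, famS.spec, famB.spec, fSB, fun n => ⟨inferInstance, inferInstance, wp_X n⟩,
    fun n => ⟨inferInstance, inferInstance, wp_S n⟩, fun n => ⟨inferInstance, inferInstance,
      wp_B n⟩, fSB_level, fSB_level.isStableEquiv, ⟨_, _, isSmash_bb udS⟩,
      ⟨_, _, isSmash_bb udW⟩, ?_⟩
  intro P P' β β' hβ hβ'
  refine ⟨exists_smashMap hβ β' fSB, fun F hF h => ?_⟩
  exact fXW_not (isStableEquiv_of_other (isSmash_bb udS) (isSmash_bb udW) hβ hβ' fXW_smashMap
    hF h)

end Pool.Agent.W641.OS
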