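import Pool.Agent.W641.OS.UD

/-!
# Collapse homotopies
-/

set_option autoImplicit false
set_option linter.unusedVariables false
set_option synthInstance.maxHeartbeats 400000

namespace Pool.Agent.W641.OS

open Topology OnePoint Matrix Set Filter

theorem partial_cont {X Y : Type*} [TopologicalSpace X] [TopologicalSpace Y] [T2Space X]
    (U : Set X) (hU : IsOpen U) (F : X → Y) (hF : ContinuousOn F U)
    (hK : ∀ K, IsClosed K → IsCompact K → IsCompact {x | x ∈ U ∧ F x ∈ K})
    (φ : OnePoint X → OnePoint Y) (h0 : φ ∞ = ∞)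
    (h1 : ∀ x ∈ U, φ (x : OnePoint X) = (F x : OnePoint Y))
    (h2 : ∀ x ∉ U, φ (x : OnePoint X) = ∞) : Continuous φ := by
  rw [OnePoint.continuous_iff]
  constructor
  · rw [h0, (hasBasis_nhds_infty).tendsto_right_iff]
    rintro s ⟨hs', hs⟩
    rw [hasBasis_coclosedCompact.eventually_iff]
    have hc := hK s hs' hs
    refine ⟨_, ⟨hc.isClosed, hc⟩, fun x hx => ?_⟩
    by_cases hx' : x ∈ U
    · left
      exact ⟨F x, fun h => hx ⟨hx', h⟩, (h1 x hx').symm⟩
    · right
      exact h2 x hx'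
  · rw [continuous_iff_continuousAt]
    intro x
    by_cases hx : x ∈ U
    · have h3 : ContinuousAt (fun x => ((F x : Y) : OnePoint Y)) x :=
        continuous_coe.continuousAt.comp (hF.continuousAt (hU.mem_nhds hx))
      refine h3.congr ?_
      filter_upwards [hU.mem_nhds hx] with x' hx'
      exact (h1 x' hx').symm
    · rw [ContinuousAt, h2 x hx, (hasBasis_nhds_infty).tendsto_right_iff]
      rintro s ⟨hs', hs⟩
      have hc := hK s hs' hs
      filter_upwards [hc.isClosed.isOpen_compl.mem_nhds (fun h => hx h.1)] with x' hx'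
      by_cases hx'' : x' ∈ U
      · left
        exact ⟨F x', fun h => hx' ⟨hx'', h⟩, (h1 x' hx'').symm⟩
      · right
        exact h2 x' hx''

open Classical in
/-- The collapse map of a family. -/
noncomputable def colT {T X Y : Type*} (U : Set (T × X)) (F : T × X → Y)
    (p : T × OnePoint X) : OnePoint Y :=
  p.2.elim ∞ fun x => if (p.1, x) ∈ U then ((F (p.1, x) : Y) : OnePoint Y) else ∞

theorem colT_continuous {T X Y : Type*} [TopologicalSpace T] [TopologicalSpace X]
    [TopologicalSpace Y] [CompactSpace T] [T2Space T] [T2Space X]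
    (U : Set (T × X)) (hU : IsOpen U) (F : T × X → Y) (hF : ContinuousOn F U)
    (E : T × Y → X) (hE : Continuous E) (h1 : ∀ t y, (t, E (t, y)) ∈ U)
    (h2 : ∀ t y, F (t, E (t, y)) = y) (h3 : ∀ p ∈ U, E (p.1, F p) = p.2) :
    Continuous (colT U F) := by
  classical
  have h4 : Continuous fun w : OnePoint (T × X) =>
      (w.elim ∞ fun p => if p ∈ U then ((F p : Y) : OnePoint Y) else ∞ : OnePoint Y) := by
    refine partial_cont U hU F hF ?_ _ rfl (fun x hx => if_pos hx) (fun x hx => if_neg hx)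
    intro K _ hK
    have h5 : IsCompact ((fun q : T × Y => (q.1, E q)) '' (univ ×ˢ K)) :=
      (isCompact_univ.prod hK).image (continuous_fst.prodMk hE)
    convert h5 using 1
    ext ⟨t, x⟩
    constructor
    · rintro ⟨hx, hx'⟩
      exact ⟨(t, F (t, x)), ⟨mem_univ _, hx'⟩, Prod.ext rfl (h3 (t, x) hx)⟩
    · rintro ⟨⟨t', y⟩, ⟨_, hy⟩, h⟩
      simp only [Prod.mk.injEq] at h
      obtain ⟨rfl, rfl⟩ := h
      refine ⟨h1 _ _, ?_⟩
      rw [h2]
      exact hy
  have h5 : Continuous fun p : T × OnePoint X => sm (p.1 : OnePoint T) p.2 :=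
    sm_continuous.comp ((continuous_coe.comp continuous_fst).prodMk continuous_snd)
  refine (h4.comp h5).congr fun p => ?_
  obtain ⟨t, x⟩ := p
  induction x using OnePoint.rec <;> rfl

/-- Radial shrinking: inverse to `radF`. -/
noncomputable def radE {n : ℕ} (a : ℝ) (y : Fin n → ℝ) : Fin n → ℝ :=
  (Real.sqrt (1 + a * (y ⬝ᵥ y)))⁻¹ • y

/-- Radial stretching. -/
noncomputable def radF {n : ℕ} (a : ℝ) (y : Fin n → ℝ) : Fin n → ℝ :=
  (Real.sqrt (1 - a * (y ⬝ᵥ y)))⁻¹ • y

theorem dot_self_nonneg {n : ℕ} (y : Fin n → ℝ) : 0 ≤ y ⬝ᵥ y := by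
  simp only [dotProduct]
  exact Finset.sum_nonneg fun i _ => mul_self_nonneg _

theorem radE_dot {n : ℕ} {a : ℝ} (ha : 0 ≤ a) (y : Fin n → ℝ) :
    radE a y ⬝ᵥ radE a y = (y ⬝ᵥ y) / (1 + a * (y ⬝ᵥ y)) := by
  have h0 := dot_self_nonneg y
  have h1 : 0 < 1 + a * (y ⬝ᵥ y) := by positivity
  rw [radE, smul_dotProduct, dotProduct_smul, smul_eq_mul, smul_eq_mul, ← mul_assoc,
    ← mul_inv, Real.mul_self_sqrt h1.le, div_eq_inv_mul]

theorem radF_dot {n : ℕ} {a : ℝ} (y : Fin n → ℝ) (h : a * (y ⬝ᵥ y) < 1) :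
    radF a y ⬝ᵥ radF a y = (y ⬝ᵥ y) / (1 - a * (y ⬝ᵥ y)) := by
  have h1 : 0 < 1 - a * (y ⬝ᵥ y) := by linarith
  rw [radF, smul_dotProduct, dotProduct_smul, smul_eq_mul, smul_eq_mul, ← mul_assoc,
    ← mul_inv, Real.mul_self_sqrt h1.le, div_eq_inv_mul]

theorem radE_lt {n : ℕ} {a : ℝ} (ha : 0 ≤ a) (y : Fin n → ℝ) :
    a * (radE a y ⬝ᵥ radE a y) < 1 := by
  have h0 := dot_self_nonneg y
  have h1 : 0 < 1 + a * (y ⬝ᵥ y) := by positivity
  rw [radE_dot ha, ← mul_div_assoc, div_lt_one h1]
  linarith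

theorem radF_radE {n : ℕ} {a : ℝ} (ha : 0 ≤ a) (y : Fin n → ℝ) : radF a (radE a y) = y := by
  have h0 := dot_self_nonneg y
  have h1 : 0 < 1 + a * (y ⬝ᵥ y) := by positivity
  have h2 : 1 - a * (radE a y ⬝ᵥ radE a y) = (1 + a * (y ⬝ᵥ y))⁻¹ := by
    rw [radE_dot ha]
    field_simp
    ring
  rw [radF, h2, Real.sqrt_inv, inv_inv, radE, smul_smul, mul_inv_cancel₀
    (Real.sqrt_ne_zero'.2 h1), one_smul]

theorem radE_radF {n : ℕ} {a : ℝ} (ha : 0 ≤ a) (y : Fin n → ℝ) (h : a * (y ⬝ᵥ y) < 1) :
    radE a (radF a y) = y := by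
  have h1 : 0 < 1 - a * (y ⬝ᵥ y) := by linarith
  have h2 : 1 + a * (radF a y ⬝ᵥ radF a y) = (1 - a * (y ⬝ᵥ y))⁻¹ := by
    rw [radF_dot y h]
    field_simp
    ring
  rw [radE, h2, Real.sqrt_inv, inv_inv, radF, smul_smul, mul_inv_cancel₀
    (Real.sqrt_ne_zero'.2 h1), one_smul]

theorem radE_cont {n : ℕ} {T : Type*} [TopologicalSpace T] {a : T → ℝ} {y : T → Fin n → ℝ}
    (ha : Continuous a) (ha0 : ∀ t, 0 ≤ a t) (hy : Continuous y) :
    Continuous fun t => radE (a t) (y t) := by
  have h1 : ∀ t, Real.sqrt (1 + a t * (y t ⬝ᵥ y t)) ≠ 0 := by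
    intro t
    have h0 := dot_self_nonneg (y t)
    have h2 := ha0 t
    exact Real.sqrt_ne_zero'.2 (by positivity)
  exact (((continuous_const.add (ha.mul (dot_continuous hy hy))).sqrt).inv₀ h1).smul hy

theorem radF_contOn {n : ℕ} {T : Type*} [TopologicalSpace T] {a : T → ℝ} {y : T → Fin n → ℝ}
    (ha : Continuous a) (hy : Continuous y) :
    ContinuousOn (fun t => radF (a t) (y t)) {t | a t * (y t ⬝ᵥ y t) < 1} := by
  have h1 : ∀ t ∈ {t | a t * (y t ⬝ᵥ y t) < 1}, Real.sqrt (1 - a t * (y t ⬝ᵥ y t)) ≠ 0 := by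
    intro t ht
    have ht' : a t * (y t ⬝ᵥ y t) < 1 := ht
    exact Real.sqrt_ne_zero'.2 (by linarith)
  exact (((continuous_const.sub (ha.mul (dot_continuous hy hy))).sqrt).continuousOn.inv₀
    h1).smul hy.continuousOn

@[simp] theorem radF_zero {n : ℕ} (y : Fin n → ℝ) : radF 0 y = y := by
  simp [radF]

/-- The open unit ball is homeomorphic to `ℝ^n`. -/
noncomputable def ballHomeo (n : ℕ) : EB n ≃ₜ (univ : Set (Fin n → ℝ)) where
  toFun e := ⟨radF 1 e.1, mem_univ _⟩
  invFun y := ⟨radE 1 y.1, by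
    have := radE_lt zero_le_one y.1
    rw [one_mul] at this
    exact this⟩
  left_inv e := by
    apply Subtype.ext
    exact radE_radF zero_le_one e.1 (by rw [one_mul]; exact e.2)
  right_inv y := by
    apply Subtype.ext
    exact radF_radE zero_le_one y.1
  continuous_toFun := by
    refine Continuous.subtype_mk ?_ _
    have h1 := radF_contOn (n := n) (T := EB n) (a := fun _ => 1) (y := fun e => e.1)
      continuous_const continuous_subtype_val
    have h2 : {t : EB n | (1 : ℝ) * (t.1 ⬝ᵥ t.1) < 1} = univ := by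
      refine eq_univ_of_forall fun t => ?_
      show (1 : ℝ) * (t.1 ⬝ᵥ t.1) < 1
      rw [one_mul]
      exact t.2
    rw [h2] at h1
    exact continuousOn_univ.1 h1
  continuous_invFun := by
    refine Continuous.subtype_mk ?_ _
    exact radE_cont continuous_const (fun _ => zero_le_one) continuous_subtype_val

/-- The domain of the collapse homotopy. -/
def domC (n : ℕ) : Set (unitInterval × (univ : Set (Fin n → ℝ))) :=
  {p | (1 - p.1.1) * (p.2.1 ⬝ᵥ p.2.1) < 1}

/-- The collapse homotopy. -/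
noncomputable def funC (n : ℕ) (p : unitInterval × (univ : Set (Fin n → ℝ))) :
    (univ : Set (Fin n → ℝ)) := ⟨radF (1 - p.1.1) p.2.1, mem_univ _⟩

theorem contC (n : ℕ) : Continuous (colT (domC n) (funC n)) := by
  have h0 : ∀ t : unitInterval, 0 ≤ 1 - t.1 := fun t => by linarith [t.2.2]
  have h1 : Continuous fun p : unitInterval × (univ : Set (Fin n → ℝ)) => 1 - p.1.1 :=
    continuous_const.sub (continuous_subtype_val.comp continuous_fst)
  have h2 : Continuous fun p : unitInterval × (univ : Set (Fin n → ℝ)) => p.2.1 :=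
    continuous_subtype_val.comp continuous_snd
  refine colT_continuous (domC n) ?_ (funC n) ?_
    (fun p => ⟨radE (1 - p.1.1) p.2.1, mem_univ _⟩) ?_ ?_ ?_ ?_
  · exact isOpen_lt (h1.mul (dot_continuous h2 h2)) continuous_const
  · have h3 := radF_contOn h1 h2
    rw [continuousOn_iff_continuous_domRestrict] at h3 ⊢
    exact Continuous.subtype_mk h3 _
  · exact Continuous.subtype_mk (radE_cont h1 (fun p => h0 _) h2) _
  · intro t y
    exact radE_lt (h0 t) y.1
  · intro t y
    apply Subtype.ext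
    exact radF_radE (h0 t) y.1
  · intro p hp
    apply Subtype.ext
    exact radE_radF (h0 p.1) p.2.1 hp

theorem fSB_level : IsLevelEquiv fSB := by
  intro n
  have hβ : Continuous (ballHomeo n).onePointCongr := (ballHomeo n).onePointCongr.continuous
  have hβ' : Continuous (ballHomeo n).onePointCongr.symm :=
    (ballHomeo n).onePointCongr.symm.continuous
  -- the composite `β ∘ f` is the collapse at time `0`
  have key : ∀ x : OnePoint (univ : Set (Fin n → ℝ)),
      (ballHomeo n).onePointCongr (colF famS famB n x) = colT (domC n) (funC n) (0, x) := by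
    intro x
    induction x using OnePoint.rec with
    | infty => rfl
    | coe x =>
      have e1 : colF famS famB n (x : OnePoint (univ : Set (Fin n → ℝ))) = famB.pnt n x.1 := rfl
      rw [e1]
      by_cases hx : x.1 ∈ EB n
      · have e2 : famB.pnt n x.1 = ((⟨x.1, hx⟩ : EB n) : OnePoint (EB n)) :=
          famB.pnt_of_mem hx
        rw [e2]
        have hx' : ((0 : unitInterval), x) ∈ domC n := by
          show (1 - (0 : ℝ)) * (x.1 ⬝ᵥ x.1) < 1
          rw [sub_zero, one_mul]
          exact hx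
        have e3 : colT (domC n) (funC n) (0, (x : OnePoint (univ : Set (Fin n → ℝ)))) =
          ((funC n (0, x) : (univ : Set (Fin n → ℝ))) : OnePoint (univ : Set (Fin n → ℝ))) :=
          if_pos hx'
        rw [e3]
        show ((ballHomeo n ⟨x.1, hx⟩ : (univ : Set (Fin n → ℝ))) :
          OnePoint (univ : Set (Fin n → ℝ))) = _
        congr 1
        apply Subtype.ext
        show radF 1 x.1 = radF (1 - (0 : ℝ)) x.1
        rw [sub_zero]
      · have e2 : famB.pnt n x.1 = (∞ : OnePoint (EB n)) := famB.pnt_of_notMem hx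
        rw [e2]
        have hx' : ((0 : unitInterval), x) ∉ domC n := by
          show ¬ ((1 - (0 : ℝ)) * (x.1 ⬝ᵥ x.1) < 1)
          rw [sub_zero, one_mul]
          exact hx
        have e3 : colT (domC n) (funC n) (0, (x : OnePoint (univ : Set (Fin n → ℝ)))) = ∞ :=
          if_neg hx'
        rw [e3]
        rfl
  have key1 : ∀ x : OnePoint (univ : Set (Fin n → ℝ)),
      colT (domC n) (funC n) (1, x) = x := by
    intro x
    induction x using OnePoint.rec with
    | infty => rfl
    | coe x =>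
      have hx' : ((1 : unitInterval), x) ∈ domC n := by
        show (1 - (1 : ℝ)) * (x.1 ⬝ᵥ x.1) < 1
        rw [sub_self, zero_mul]
        exact zero_lt_one
      have e3 : colT (domC n) (funC n) (1, (x : OnePoint (univ : Set (Fin n → ℝ)))) =
        ((funC n (1, x) : (univ : Set (Fin n → ℝ))) : OnePoint (univ : Set (Fin n → ℝ))) :=
        if_pos hx'
      rw [e3]
      congr 1
      apply Subtype.ext
      show radF (1 - (1 : ℝ)) x.1 = x.1
      rw [sub_self, radF_zero]
  let h : C(OnePoint (EB n), OnePoint (univ : Set (Fin n → ℝ))) :=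
    ⟨(ballHomeo n).onePointCongr, hβ⟩
  let h' : C(OnePoint (univ : Set (Fin n → ℝ)), OnePoint (EB n)) :=
    ⟨(ballHomeo n).onePointCongr.symm, hβ'⟩
  have hcf : Continuous (colF famS famB n) := fSB.cont n
  refine ⟨h, rfl, ?_, ?_⟩
  · refine ⟨⟨⟨⟨colT (domC n) (funC n), contC n⟩, ?_, ?_⟩, ?_⟩⟩
    · intro x
      exact (key x).symm
    · intro x
      exact key1 x
    · intro t x hx
      have hx' : x = (∞ : OnePoint (univ : Set (Fin n → ℝ))) := hx
      subst hx'
      rfl
  · refine ⟨⟨⟨⟨fun p : unitInterval × OnePoint (EB n) => h' (colT (domC n) (funC n) (p.1, h p.2)),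
      ?_⟩, ?_, ?_⟩, ?_⟩⟩
    · exact h'.continuous.comp ((contC n).comp (continuous_fst.prodMk
        (h.continuous.comp continuous_snd)))
    · intro x
      show h' (colT (domC n) (funC n) (0, h x)) = colF famS famB n (h x)
      rw [← key]
      exact (ballHomeo n).onePointCongr.symm_apply_apply _
    · intro x
      show h' (colT (domC n) (funC n) (1, h x)) = x
      rw [key1]
      exact (ballHomeo n).onePointCongr.symm_apply_apply _
    · intro t x hx
      have hx' : x = (∞ : OnePoint (EB n)) := hx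
      subst hx'
      rfl

end Pool.Agent.W641.OS
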