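import Mathlib

/-!
# Continuity lemmas for one-point compactifications
-/

set_option autoImplicit false

namespace Pool.Agent.W641.OS

open Topology OnePoint Filter Set

section PP

variable {X Y A B : Type*} [TopologicalSpace X] [TopologicalSpace Y] [TopologicalSpace A]
  [TopologicalSpace B]

/-- A partially defined proper map with open domain extends to the one-point
compactifications. -/
theorem pp_continuous [T2Space X] [T2Space B] (a : X → A) (b : Y → B) (F : A → B)
    (ha : IsInducing a) (hb : IsEmbedding b) (hF : Continuous F)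
    (hFc : ∀ K, IsCompact K → IsCompact (F ⁻¹' K))
    (hr : ∀ x, F x ∈ range b → x ∈ range a) (ho : IsOpen {x | F (a x) ∈ range b})
    (φ : OnePoint X → OnePoint Y) (h0 : φ ∞ = ∞)
    (h1 : ∀ x y, F (a x) = b y → φ (x : OnePoint X) = (y : OnePoint Y))
    (h2 : ∀ x, F (a x) ∉ range b → φ (x : OnePoint X) = ∞) : Continuous φ := by
  have hc : Continuous fun x => F (a x) := hF.comp ha.continuous
  rw [OnePoint.continuous_iff]
  constructor
  · rw [h0, (hasBasis_nhds_infty).tendsto_right_iff]
    rintro s ⟨_, hs⟩
    rw [hasBasis_coclosedCompact.eventually_iff]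
    have hK : IsCompact ((fun x => F (a x)) ⁻¹' (b '' s)) := by
      have h3 : IsCompact (F ⁻¹' (b '' s)) := hFc _ (hs.image hb.continuous)
      exact ha.isCompact_preimage' h3 fun x hx => hr x (image_subset_range _ _ hx)
    refine ⟨_, ⟨hK.isClosed, hK⟩, fun x hx => ?_⟩
    by_cases hx' : F (a x) ∈ range b
    · obtain ⟨y, hy⟩ := hx'
      left
      refine ⟨y, fun hys => hx ⟨y, hys, hy⟩, (h1 x y hy.symm).symm⟩
    · right
      exact h2 x hx'
  · rw [continuous_iff_continuousAt]
    intro x
    by_cases hx : F (a x) ∈ range b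
    · obtain ⟨y, hy⟩ := hx
      rw [ContinuousAt, h1 x y hy.symm, OnePoint.nhds_coe_eq]
      intro s hs
      rw [mem_map, hb.isInducing.nhds_eq_comap, mem_comap] at hs
      obtain ⟨W, hW, hWs⟩ := hs
      rw [hy] at hW
      rw [mem_map]
      have hUx : {x | F (a x) ∈ range b} ∈ 𝓝 x :=
        ho.mem_nhds (show F (a x) ∈ range b from ⟨y, hy⟩)
      filter_upwards [hc.continuousAt hW, hUx] with x' hx' hx''
      obtain ⟨y', hy'⟩ := hx''
      rw [mem_preimage, h1 x' y' hy'.symm]
      refine hWs ?_
      rw [mem_preimage, hy']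
      exact hx'
    · rw [ContinuousAt, h2 x hx, (hasBasis_nhds_infty).tendsto_right_iff]
      rintro s ⟨_, hs⟩
      have hcl : IsClosed (b '' s) := (hs.image hb.continuous).isClosed
      filter_upwards [hc.continuousAt (hcl.isOpen_compl.mem_nhds
        fun h => hx (image_subset_range _ _ h))] with x' hx'
      by_cases hx'' : F (a x') ∈ range b
      · obtain ⟨y, hy⟩ := hx''
        left
        exact ⟨y, fun hys => hx' ⟨y, hys, hy⟩, (h1 x' y hy.symm).symm⟩
      · right
        exact h2 x' hx''

end PP

section Smash

set_option linter.unusedSectionVars false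

variable {A B Z : Type*} [TopologicalSpace A] [TopologicalSpace B] [TopologicalSpace Z]

/-- The map `S^A × S^B → S^{A × B}` of one-point compactifications. -/
def sm (x : OnePoint A) (y : OnePoint B) : OnePoint (A × B) :=
  x.elim ∞ fun a => y.elim ∞ fun b => ((a, b) : A × B)

@[simp] theorem sm_coe (a : A) (b : B) : sm (a : OnePoint A) (b : OnePoint B) =
    ((a, b) : A × B) := rfl

@[simp] theorem sm_infty_left (y : OnePoint B) : sm (∞ : OnePoint A) y = ∞ := rfl

@[simp] theorem sm_infty_right (x : OnePoint A) : sm x (∞ : OnePoint B) = ∞ := by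
  induction x using OnePoint.rec <;> rfl

theorem sm_continuous [T2Space A] [T2Space B] :
    Continuous fun p : OnePoint A × OnePoint B => sm p.1 p.2 := by
  rw [continuous_iff_continuousAt]
  rintro ⟨x, y⟩
  have key : sm x y = ∞ → ContinuousAt (fun p : OnePoint A × OnePoint B => sm p.1 p.2) (x, y) := by
    intro h
    rw [ContinuousAt]
    simp only
    rw [h, (hasBasis_nhds_infty).tendsto_right_iff]
    rintro s ⟨_, hs⟩
    have hKA : IsCompact (Prod.fst '' s) := hs.image continuous_fst
    have hKB : IsCompact (Prod.snd '' s) := hs.image continuous_snd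
    have h4 : ∀ p : OnePoint A × OnePoint B, sm p.1 p.2 ∉ (↑) '' sᶜ ∪ {(∞ : OnePoint (A × B))} →
        p.1 ∈ ((↑) '' (Prod.fst '' s) : Set (OnePoint A)) ∧
          p.2 ∈ ((↑) '' (Prod.snd '' s) : Set (OnePoint B)) := by
      rintro ⟨p, q⟩ hp
      induction p using OnePoint.rec with
      | infty => exact absurd (Or.inr rfl) hp
      | coe p =>
        induction q using OnePoint.rec with
        | infty => exact absurd (Or.inr rfl) hp
        | coe q =>
          have : (p, q) ∈ s := by
            by_contra h5
            exact hp (Or.inl ⟨(p, q), h5, rfl⟩)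
          exact ⟨⟨p, ⟨_, this, rfl⟩, rfl⟩, ⟨q, ⟨_, this, rfl⟩, rfl⟩⟩
    have hxy : x = ∞ ∨ y = ∞ := by
      induction x using OnePoint.rec with
      | infty => exact Or.inl rfl
      | coe x =>
        induction y using OnePoint.rec with
        | infty => exact Or.inr rfl
        | coe y => exact absurd h (coe_ne_infty _)
    rcases hxy with rfl | rfl
    · have hcl : IsClosed ((↑) '' (Prod.fst '' s) : Set (OnePoint A)) :=
        isClosed_image_coe.2 ⟨hKA.isClosed, hKA⟩
      have h6 : ∀ᶠ p : OnePoint A × OnePoint B in 𝓝 (∞, y),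
          p.1 ∉ ((↑) '' (Prod.fst '' s) : Set (OnePoint A)) :=
        (hcl.isOpen_compl.preimage continuous_fst).mem_nhds
          (show (∞ : OnePoint A) ∉ _ from infty_notMem_image_coe)
      filter_upwards [h6] with p hp
      by_contra h5
      exact hp (h4 p h5).1
    · have hcl : IsClosed ((↑) '' (Prod.snd '' s) : Set (OnePoint B)) :=
        isClosed_image_coe.2 ⟨hKB.isClosed, hKB⟩
      have h6 : ∀ᶠ p : OnePoint A × OnePoint B in 𝓝 (x, ∞),
          p.2 ∉ ((↑) '' (Prod.snd '' s) : Set (OnePoint B)) :=
        (hcl.isOpen_compl.preimage continuous_snd).mem_nhds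
          (show (∞ : OnePoint B) ∉ _ from infty_notMem_image_coe)
      filter_upwards [h6] with p hp
      by_contra h5
      exact hp (h4 p h5).2
  induction x using OnePoint.rec with
  | infty => exact key rfl
  | coe x =>
    induction y using OnePoint.rec with
    | infty => exact key rfl
    | coe y =>
      have h7 : IsOpenEmbedding (Prod.map ((↑) : A → OnePoint A) ((↑) : B → OnePoint B)) :=
        isOpenEmbedding_coe.prodMap isOpenEmbedding_coe
      have h8 := h7.continuousAt_iff (g := fun p : OnePoint A × OnePoint B => sm p.1 p.2)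
        (x := (x, y))
      refine h8.1 ?_
      exact (continuous_coe : Continuous ((↑) : A × B → OnePoint (A × B))).continuousAt

/-- A continuous map out of `S^A × S^B` which is constant on the wedge descends to
`S^{A × B}`. -/
theorem from_smash {C : Type*} [TopologicalSpace C] (φ : C ≃ₜ A × B) [T2Space A] [T2Space B]
    [LocallyCompactSpace A] [LocallyCompactSpace B]
    (F : OnePoint A → OnePoint B → Z) (hF : Continuous fun p : OnePoint A × OnePoint B => F p.1 p.2)
    (z : Z) (h1 : ∀ b, F ∞ b = z) (h2 : ∀ a, F a ∞ = z) :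
    Continuous fun w : OnePoint C => w.elim z fun c => F (φ c).1 (φ c).2 := by
  rw [OnePoint.continuous_iff]
  constructor
  · have : T2Space C := φ.isEmbedding.t2Space
    rw [coclosedCompact_eq_cocompact]
    simp only [OnePoint.elim_infty, OnePoint.elim_some]
    intro V hV
    rw [mem_map, mem_cocompact]
    obtain ⟨U, hUV, hU, hzU⟩ := mem_nhds_iff.1 hV
    have hcl : IsClosed {p : OnePoint A × OnePoint B | F p.1 p.2 ∈ Uᶜ} :=
      hU.isClosed_compl.preimage hF
    have hcp := hcl.isCompact
    have hin : IsInducing (fun c : C => (((φ c).1 : OnePoint A), ((φ c).2 : OnePoint B))) := by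
      have h7 : IsOpenEmbedding (Prod.map ((↑) : A → OnePoint A) ((↑) : B → OnePoint B)) :=
        isOpenEmbedding_coe.prodMap isOpenEmbedding_coe
      exact h7.isInducing.comp φ.isInducing
    have hK : IsCompact {c : C | F (φ c).1 (φ c).2 ∈ Uᶜ} := by
      refine hin.isCompact_preimage' hcp ?_
      rintro ⟨p, q⟩ hp
      induction p using OnePoint.rec with
      | infty => exact absurd (by rw [h1]; exact hzU) hp
      | coe p =>
        induction q using OnePoint.rec with
        | infty => exact absurd (by rw [h2]; exact hzU) hp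
        | coe q => exact ⟨φ.symm (p, q), by simp⟩
    refine ⟨_, hK, fun c hc => ?_⟩
    simp only [mem_compl_iff, mem_ofPred_eq, not_not] at hc
    exact hUV hc
  · simp only [OnePoint.elim_some]
    exact hF.comp ((continuous_coe.comp (continuous_fst.comp φ.continuous)).prodMk
      (continuous_coe.comp (continuous_snd.comp φ.continuous)))

end Smash

/-- `ℝ^j × ℝ ≃ ℝ^{j+1}`, the last coordinate is the second component. -/
def snocHomeo (j : ℕ) : (Fin (j + 1) → ℝ) ≃ₜ (Fin j → ℝ) × ℝ where
  toFun v := (fun i => v i.castSucc, v (Fin.last j))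
  invFun p := Fin.snoc p.1 p.2
  left_inv v := by
    exact Fin.snoc_init_self (α := fun _ => ℝ) v
  right_inv p := by
    ext <;> simp
  continuous_toFun := by fun_prop
  continuous_invFun := by
    refine continuous_pi fun i => ?_
    refine Fin.lastCases ?_ (fun i => ?_) i
    · simpa using continuous_snd
    · simp only [Fin.snoc_castSucc]
      exact (continuous_apply i).comp continuous_fst

end Pool.Agent.W641.OS
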