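import Mathlib
import Pool.Agent.W641.OS.Top

/-!
# Orthogonal spectra, bimorphisms, smash products and stable homotopy groups
-/

set_option autoImplicit false

namespace Pool.Agent.W641.OS

open Topology OnePoint Matrix

/-- A space is weak Hausdorff if the image of every continuous map from a compact Hausdorff
space is closed. -/
def WeakHausdorff (X : Type) [TopologicalSpace X] : Prop :=
  ∀ (K : Type) [TopologicalSpace K] [CompactSpace K] [T2Space K] (f : K → X),
    Continuous f → IsClosed (Set.range f)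

/-- The orthogonal group `O(n)`. -/
abbrev O (n : ℕ) : Type := Matrix.orthogonalGroup (Fin n) ℝ

theorem fromBlocks_mem {n m : ℕ} (g : O n) (h : O m) :
    (Matrix.fromBlocks g.1 0 0 h.1).submatrix finSumFinEquiv.symm finSumFinEquiv.symm ∈
      Matrix.orthogonalGroup (Fin (n + m)) ℝ := by
  have hg := (Matrix.mem_orthogonalGroup_iff (Fin n) ℝ).1 g.2
  have hh := (Matrix.mem_orthogonalGroup_iff (Fin m) ℝ).1 h.2
  rw [Matrix.mem_orthogonalGroup_iff, Matrix.transpose_submatrix, Matrix.submatrix_mul_equiv,
    Matrix.fromBlocks_transpose, Matrix.fromBlocks_multiply, hg, hh]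
  simp

/-- The block sum `O(n) × O(m) → O(n + m)`. -/
def blockSum {n m : ℕ} (g : O n) (h : O m) : O (n + m) :=
  ⟨(Matrix.fromBlocks g.1 0 0 h.1).submatrix finSumFinEquiv.symm finSumFinEquiv.symm,
    fromBlocks_mem g h⟩

/-- The iterated structure map `X_n ∧ S^m → X_{n+m}` on the points of `X_n × ℝ^m`
(here `S^m` is the one-point compactification of `ℝ^m`, all points `(x, ∞)` go to the
base point); the last coordinate of `ℝ^m` is fed in last. -/
def iterMap {sp : ℕ → Type} (σ : ∀ n, sp n → OnePoint ℝ → sp (n + 1)) (n : ℕ) :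
    ∀ m, sp n → (Fin m → ℝ) → sp (n + m)
  | 0, x, _ => x
  | m + 1, x, v => σ (n + m) (iterMap σ n m x (fun i => v i.castSucc)) (v (Fin.last m) : ℝ)

/-- An orthogonal spectrum: a sequence of based compactly generated weak Hausdorff spaces
`X_n` with continuous based actions of `O(n)` and based structure maps `X_n ∧ S^1 → X_{n+1}`
(`S^1` the one-point compactification of `ℝ`), all of whose iterates `X_n ∧ S^m → X_{n+m}`
are `O(n) × O(m)`-equivariant. (The spaces `O(n)` and `S^1` are compact Hausdorff, so the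
products `O(n) × X_n` and `X_n × S^1` taken in all spaces and in compactly generated
spaces agree.) -/
structure OrthSpectrum where
  /-- the levels -/
  sp : ℕ → Type
  /-- their topologies -/
  top : ∀ n, TopologicalSpace (sp n)
  cg : ∀ n, CompactlyGeneratedSpace (sp n)
  wh : ∀ n, WeakHausdorff (sp n)
  /-- the base points -/
  pt : ∀ n, sp n
  /-- the action of `O(n)` -/
  act : ∀ n, O n → sp n → sp n
  act_cont : ∀ n, Continuous (fun p : O n × sp n => act n p.1 p.2)
  act_one : ∀ n x, act n 1 x = x
  act_mul : ∀ n g h x, act n (g * h) x = act n g (act n h x)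
  act_pt : ∀ n g, act n g (pt n) = pt n
  /-- the structure maps -/
  σ : ∀ n, sp n → OnePoint ℝ → sp (n + 1)
  σ_cont : ∀ n, Continuous (fun p : sp n × OnePoint ℝ => σ n p.1 p.2)
  σ_pt : ∀ n t, σ n (pt n) t = pt (n + 1)
  σ_infty : ∀ n x, σ n x ∞ = pt (n + 1)
  equi : ∀ n m (g : O n) (h : O m) (x : sp n) (v : Fin m → ℝ),
    iterMap σ n m (act n g x) (h.1 *ᵥ v) = act (n + m) (blockSum g h) (iterMap σ n m x v)

instance (X : OrthSpectrum) (n : ℕ) : TopologicalSpace (X.sp n) := X.top n

/-- A morphism of orthogonal spectra. -/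
structure Hom (X Y : OrthSpectrum) where
  /-- the levels of the morphism -/
  f : ∀ n, X.sp n → Y.sp n
  cont : ∀ n, Continuous (f n)
  pt : ∀ n, f n (X.pt n) = Y.pt n
  act : ∀ n g x, f n (X.act n g x) = Y.act n g (f n x)
  σ : ∀ n x t, f (n + 1) (X.σ n x t) = Y.σ n (f n x) t

/-- The permutation of `{0, …, p+q}` with `(shuffle · w) = (x, t, y)` for
`w = (x, y, t) ∈ ℝ^p × ℝ^q × ℝ`; see `permO`. -/
def shuffle (p q : ℕ) : Equiv.Perm (Fin (p + 1 + q)) where
  toFun k := if h : k.1 < p then k else
    if h2 : k.1 = p + q then ⟨p, by omega⟩ else ⟨k.1 + 1, by omega⟩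
  invFun k := if h : k.1 < p then k else
    if h2 : k.1 = p then ⟨p + q, by omega⟩ else ⟨k.1 - 1, by omega⟩
  left_inv k := by
    have hk := k.2
    ext
    dsimp only
    by_cases h1 : k.1 < p
    · simp [h1]
    · by_cases h2 : k.1 = p + q
      · simp [h1, h2]
      · have h3 : ¬ (k.1 + 1 < p) := by omega
        have h4 : ¬ (k.1 + 1 = p) := by omega
        simp [h1, h2, h3, h4]
  right_inv k := by
    have hk := k.2
    ext
    dsimp only
    by_cases h1 : k.1 < p
    · simp [h1]
    · by_cases h2 : k.1 = p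
      · simp [h2]
      · have h3 : ¬ (k.1 - 1 < p) := by omega
        have h4 : ¬ (k.1 - 1 = p + q) := by omega
        simp only [h1, h2, h3, h4, dif_neg, not_false_eq_true]
        omega

/-- The permutation matrix `e`, as an element of the orthogonal group: it sends the basis
vector `j` to the basis vector `e j`, so that `(e · w) i = w (e⁻¹ i)`. -/
def permO {n : ℕ} (e : Equiv.Perm (Fin n)) : O n :=
  ⟨Matrix.of fun i j => if e j = i then 1 else 0, by
    rw [Matrix.mem_orthogonalGroup_iff]
    ext i j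
    rw [Matrix.mul_apply]
    simp only [Matrix.transpose_apply, Matrix.of_apply, Matrix.one_apply]
    by_cases hij : i = j
    · subst hij
      rw [Finset.sum_eq_single (e.symm i)]
      · simp
      · intro b _ hb
        have : e b ≠ i := fun h => hb (by rw [← h]; simp)
        simp [this]
      · simp
    · rw [if_neg hij]
      refine Finset.sum_eq_zero fun k _ => ?_
      by_cases h1 : e k = i
      · have : e k ≠ j := fun h => hij (h1.symm.trans h)
        simp [this]
      · simp [h1]⟩

/-- Identification of two equal levels. -/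
def OrthSpectrum.tr (Z : OrthSpectrum) {m n : ℕ} (h : m = n) (z : Z.sp m) : Z.sp n :=
  h ▸ z

/-- A bimorphism `(X, Y) → Z`: based maps `X_p ∧ Y_q → Z_{p+q}` (continuous on the product
in compactly generated spaces, i.e. continuous after composition with maps from compact
Hausdorff spaces), `O(p) × O(q)`-equivariant and compatible with the structure maps in
both variables. In the first variable the suspension coordinate has to be moved past the
`q` coordinates of `Y_q`. -/
structure Bimorphism (X Y Z : OrthSpectrum) where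
  /-- the components -/
  b : ∀ p q, X.sp p → Y.sp q → Z.sp (p + q)
  cont : ∀ p q (K : Type) [TopologicalSpace K] [CompactSpace K] [T2Space K]
    (u : K → X.sp p) (w : K → Y.sp q), Continuous u → Continuous w →
    Continuous (fun k => b p q (u k) (w k))
  pt_left : ∀ p q y, b p q (X.pt p) y = Z.pt (p + q)
  pt_right : ∀ p q x, b p q x (Y.pt q) = Z.pt (p + q)
  equi : ∀ p q (g : O p) (h : O q) x y,
    b p q (X.act p g x) (Y.act q h y) = Z.act (p + q) (blockSum g h) (b p q x y)
  right : ∀ p q x y t, b p (q + 1) x (Y.σ q y t) = Z.σ (p + q) (b p q x y) t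
  left : ∀ p q x y t, b (p + 1) q (X.σ p x t) y =
    Z.act (p + 1 + q) (permO (shuffle p q))
      (Z.tr (by omega : p + q + 1 = p + 1 + q) (Z.σ (p + q) (b p q x y) t))

/-- The bimorphism `β : (X, Y) → P` exhibits `P` as the smash product `X ∧ Y`: it is a
universal bimorphism out of `(X, Y)`. (Day convolution over the category of orthogonal
representations is characterised by this universal property, which determines `P` up to a
unique isomorphism.) -/
def IsSmash {X Y P : OrthSpectrum} (β : Bimorphism X Y P) : Prop :=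
  ∀ (Z : OrthSpectrum) (b : Bimorphism X Y Z),
    ∃! φ : Hom P Z, ∀ p q x y, φ.f (p + q) (β.b p q x y) = b.b p q x y

/-- Based maps `S^j → X_n` with `j = k + n`, representing elements of `π_k X`
(`S^j` is the one-point compactification of `ℝ^j`). -/
structure Rep (X : OrthSpectrum) (k : ℤ) where
  j : ℕ
  n : ℕ
  h : (j : ℤ) = k + n
  g : C(OnePoint (Fin j → ℝ), X.sp n)
  hg : g ∞ = X.pt n

namespace Rep

variable {X : OrthSpectrum} {k : ℤ}

/-- The suspension `S^{j+1} = S^j ∧ S^1 → X_n ∧ S^1 → X_{n+1}` of `g : S^j → X_n`. -/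
def suspFun (j n : ℕ) (g : OnePoint (Fin j → ℝ) → X.sp n) :
    OnePoint (Fin (j + 1) → ℝ) → X.sp (n + 1) :=
  fun w => w.elim (X.pt (n + 1)) fun v =>
    X.σ n (g ((fun i => v i.castSucc : Fin j → ℝ))) (v (Fin.last j) : ℝ)

theorem suspFun_continuous (j n : ℕ) (g : OnePoint (Fin j → ℝ) → X.sp n) (hg : Continuous g)
    (hg0 : g ∞ = X.pt n) : Continuous (suspFun j n g) :=
  from_smash (snocHomeo j) (fun a b => X.σ n (g a) b)
    ((X.σ_cont n).comp ((hg.comp continuous_fst).prodMk continuous_snd)) (X.pt (n + 1))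
    (fun b => by rw [hg0, X.σ_pt]) (fun a => X.σ_infty n _)

/-- The stabilisation of a representative. -/
def susp (r : Rep X k) : Rep X k where
  j := r.j + 1
  n := r.n + 1
  h := by push_cast; rw [r.h]; ring
  g := ⟨suspFun r.j r.n r.g, suspFun_continuous r.j r.n r.g r.g.continuous r.hg⟩
  hg := rfl

/-- The relation between representatives: based homotopy and stabilisation. -/
inductive Rel : Rep X k → Rep X k → Prop
  | htpy (j n : ℕ) (h : (j : ℤ) = k + n) (g g' : C(OnePoint (Fin j → ℝ), X.sp n))
      (hg : g ∞ = X.pt n) (hg' : g' ∞ = X.pt n) (hgg : g.HomotopicRel g' {∞}) :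
      Rel ⟨j, n, h, g, hg⟩ ⟨j, n, h, g', hg'⟩
  | susp (r : Rep X k) : Rel r r.susp

/-- Composition of a representative with a morphism of spectra. -/
def map {Y : OrthSpectrum} (f : Hom X Y) (r : Rep X k) : Rep Y k where
  j := r.j
  n := r.n
  h := r.h
  g := ⟨fun w => f.f r.n (r.g w), (f.cont r.n).comp r.g.continuous⟩
  hg := by
    show f.f r.n (r.g ∞) = _
    rw [r.hg, f.pt]

theorem ext_of {j n : ℕ} {h : (j : ℤ) = k + n} {g g' : C(OnePoint (Fin j → ℝ), X.sp n)}
    {hg : g ∞ = X.pt n} {hg' : g' ∞ = X.pt n} (e : g = g') :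
    (⟨j, n, h, g, hg⟩ : Rep X k) = ⟨j, n, h, g', hg'⟩ := by
  subst e
  rfl

theorem map_susp {Y : OrthSpectrum} (f : Hom X Y) (r : Rep X k) :
    (r.map f).susp = r.susp.map f := by
  obtain ⟨j, n, h, g, hg⟩ := r
  have : ∀ w : OnePoint (Fin (j + 1) → ℝ),
      suspFun (X := Y) j n (fun w => f.f n (g w)) w = f.f (n + 1) (suspFun j n g w) := by
    intro w
    induction w using OnePoint.rec with
    | infty => exact (f.pt _).symm
    | coe v => exact (f.σ _ _ _).symm
  have h2 : (⟨suspFun (X := Y) j n (fun w => f.f n (g w)), suspFun_continuous j n _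
      ((f.cont n).comp g.continuous) (by show f.f n (g ∞) = _; rw [hg, f.pt])⟩ :
      C(OnePoint (Fin (j + 1) → ℝ), Y.sp (n + 1))) =
      ⟨fun w => f.f (n + 1) (suspFun j n g w), (f.cont (n + 1)).comp
        (suspFun_continuous j n g g.continuous hg)⟩ := ContinuousMap.ext this
  exact Rep.ext_of h2

theorem Rel.map {Y : OrthSpectrum} (f : Hom X Y) {r r' : Rep X k} (h : Rel r r') :
    Rel (r.map f) (r'.map f) := by
  cases h with
  | htpy j n h g g' hg hg' hgg =>
    refine Rel.htpy j n h _ _ _ _ ?_
    obtain ⟨H⟩ := hgg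
    exact ⟨H.compContinuousMap ⟨f.f n, f.cont n⟩⟩
  | susp r =>
    rw [← map_susp]
    exact Rel.susp _

end Rep

/-- The stable homotopy group `π_k X = colim_n π_{k+n} X_n` (its underlying set), the
colimit of the sets of based homotopy classes of based maps `S^{k+n} → X_n` under
stabilisation. -/
def StablePi (X : OrthSpectrum) (k : ℤ) : Type := Quot (Rep.Rel (X := X) (k := k))

/-- The map on `π_k` induced by a morphism. -/
def StablePi.map {X Y : OrthSpectrum} (f : Hom X Y) (k : ℤ) : StablePi X k → StablePi Y k :=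
  Quot.map (Rep.map f) fun _ _ h => h.map f

/-- A stable equivalence: a morphism inducing bijections (equivalently, isomorphisms) on all
stable homotopy groups `π_k`, `k ∈ ℤ`. -/
def IsStableEquiv {X Y : OrthSpectrum} (f : Hom X Y) : Prop :=
  ∀ k : ℤ, Function.Bijective (StablePi.map f k)

/-- The morphism `F : P → P'` is the morphism `X ∧ f`, where the bimorphisms `β` and `β'`
exhibit `P` and `P'` as `X ∧ Y` and `X ∧ Y'`: it satisfies `F (x ∧ y) = x ∧ f y`. -/
def IsSmashMap {X Y Y' P P' : OrthSpectrum} (β : Bimorphism X Y P) (β' : Bimorphism X Y' P')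
    (f : Hom Y Y') (F : Hom P P') : Prop :=
  ∀ p q x y, F.f (p + q) (β.b p q x y) = β'.b p q x (f.f q y)

/-- A levelwise based homotopy equivalence. -/
def IsLevelEquiv {X Y : OrthSpectrum} (f : Hom X Y) : Prop :=
  ∀ n, ∃ h : C(Y.sp n, X.sp n), h (Y.pt n) = X.pt n ∧
    (h.comp ⟨f.f n, f.cont n⟩).HomotopicRel (ContinuousMap.id _) {X.pt n} ∧
    (ContinuousMap.comp ⟨f.f n, f.cont n⟩ h).HomotopicRel (ContinuousMap.id _) {Y.pt n}

/-- The base point `x₀` of `X` is nondegenerate: the inclusion of `x₀` has the homotopy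
extension property. -/
def WellPointed (X : Type) [TopologicalSpace X] (x₀ : X) : Prop :=
  ∀ (Z : Type) [TopologicalSpace Z] (f : C(X, Z)) (γ : C(unitInterval, Z)), γ 0 = f x₀ →
    ∃ H : C(unitInterval × X, Z), (∀ x, H (0, x) = f x) ∧ ∀ t, H (t, x₀) = γ t

/-- The levels of `X` are compact Hausdorff and have nondegenerate base points. -/
def NiceLevels (X : OrthSpectrum) : Prop :=
  ∀ n, CompactSpace (X.sp n) ∧ T2Space (X.sp n) ∧ WellPointed (X.sp n) (X.pt n)

end Pool.Agent.W641.OS
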