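import Pool.Agent.W641.OS.Vec

/-!
# The ambient sequences and the families
-/

set_option autoImplicit false
set_option linter.unusedVariables false

namespace Pool.Agent.W641.OS

open Topology OnePoint Matrix Set

/-- The ambient sequence `ℝ^n`. -/
def A1 : Amb where
  V n := Fin n → ℝ
  top n := inferInstance
  t2 n := inferInstance
  act n g v := g.1 *ᵥ v
  act_cont n := Continuous.matrix_mulVec (continuous_subtype_val.comp continuous_fst)
    continuous_snd
  act_one n x := Matrix.one_mulVec x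
  act_mul n g h x := (Matrix.mulVec_mulVec x g.1 h.1).symm
  ι n v t := Fin.snoc v t
  ι_cont n := snoc_continuous continuous_fst continuous_snd
  ι_proper n K hK := by
    have : IsCompact ((snocHomeo n).symm ⁻¹' K) :=
      (snocHomeo n).symm.isCompact_preimage.2 hK
    exact this
  equi n m g h x v := by
    have key : ∀ (m : ℕ) (x : Fin n → ℝ) (v : Fin m → ℝ),
        iterV (V := fun n => Fin n → ℝ) (fun n v t => Fin.snoc v t) n m x v = Fin.append x v := by
      intro m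
      induction m with
      | zero =>
        intro x v
        rw [iterV, Fin.append_right_nil x v rfl]
        rfl
      | succ m ih =>
        intro x v
        rw [iterV, ih, ← Fin.append_snoc]
        congr 1
        exact Fin.snoc_init_self v
    rw [key, key, blockSum_mulVec]

theorem iterV_A1 (n m : ℕ) (x : Fin n → ℝ) (v : Fin m → ℝ) :
    iterV A1.ι n m x v = (Fin.append x v : Fin (n + m) → ℝ) := by
  induction m with
  | zero =>
    rw [Fin.append_right_nil x v rfl]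
    rfl
  | succ m ih =>
    have h1 : iterV A1.ι n (m + 1) x v =
      (Fin.snoc (iterV A1.ι n m x (fun i => v i.castSucc) : Fin (n + m) → ℝ)
        (v (Fin.last m)) : Fin (n + m + 1) → ℝ) := rfl
    rw [h1, ih, ← Fin.append_snoc]
    congr 1
    exact Fin.snoc_init_self v

/-- The structure maps of the ambient sequence `ℝ × ℝ^n × ℝ^n`. -/
def ι2 (n : ℕ) (w : ℝ × (Fin n → ℝ) × (Fin n → ℝ)) (t : ℝ) :
    ℝ × (Fin (n + 1) → ℝ) × (Fin (n + 1) → ℝ) :=
  (w.1, Fin.snoc w.2.1 t, Fin.snoc w.2.2 0)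

theorem append_snoc_last {n m : ℕ} (x : Fin n → ℝ) (v : Fin (m + 1) → ℝ) :
    (Fin.snoc (Fin.append x fun i => v i.castSucc : Fin (n + m) → ℝ) (v (Fin.last m)) :
      Fin (n + m + 1) → ℝ) = (Fin.append x v : Fin (n + (m + 1)) → ℝ) := by
  rw [← Fin.append_snoc]
  congr 1
  exact Fin.snoc_init_self v

theorem append_snoc_zero {n m : ℕ} (x : Fin n → ℝ) :
    (Fin.snoc (Fin.append x 0 : Fin (n + m) → ℝ) 0 :
      Fin (n + m + 1) → ℝ) = (Fin.append x 0 : Fin (n + (m + 1)) → ℝ) := by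
  rw [← Fin.append_snoc, snoc_zero']

theorem iterV_ι2 (n m : ℕ) (w : ℝ × (Fin n → ℝ) × (Fin n → ℝ)) (v : Fin m → ℝ) :
    iterV (V := fun n => ℝ × (Fin n → ℝ) × (Fin n → ℝ)) ι2 n m w v =
      (w.1, Fin.append w.2.1 v, Fin.append w.2.2 0) := by
  induction m with
  | zero =>
    rw [iterV, Fin.append_right_nil _ v rfl, Fin.append_right_nil _ 0 rfl]
    rfl
  | succ m ih =>
    rw [iterV, ih, ι2, append_snoc_last, append_snoc_zero]

theorem ι2_cont (n : ℕ) :
    Continuous fun p : (ℝ × (Fin n → ℝ) × (Fin n → ℝ)) × ℝ => ι2 n p.1 p.2 := by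
  refine (continuous_fst.comp continuous_fst).prodMk ((snoc_continuous ?_ ?_).prodMk
    (snoc_continuous ?_ ?_))
  · exact continuous_fst.comp (continuous_snd.comp continuous_fst)
  · exact continuous_snd
  · exact continuous_snd.comp (continuous_snd.comp continuous_fst)
  · exact continuous_const

/-- The ambient sequence `ℝ × ℝ^n × ℝ^n`. -/
def A2 : Amb where
  V n := ℝ × (Fin n → ℝ) × (Fin n → ℝ)
  top n := inferInstance
  t2 n := inferInstance
  act n g w := (w.1, g.1 *ᵥ w.2.1, g.1 *ᵥ w.2.2)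
  act_cont n := by
    refine (continuous_fst.comp continuous_snd).prodMk ((Continuous.matrix_mulVec
      (continuous_subtype_val.comp continuous_fst) ?_).prodMk (Continuous.matrix_mulVec
      (continuous_subtype_val.comp continuous_fst) ?_))
    · exact continuous_fst.comp (continuous_snd.comp continuous_snd)
    · exact continuous_snd.comp (continuous_snd.comp continuous_snd)
  act_one n w := by simp
  act_mul n g h w := by simp
  ι := ι2
  ι_cont := ι2_cont
  ι_proper n K hK := by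
    have hC : IsClosed {w : ℝ × (Fin (n + 1) → ℝ) × (Fin (n + 1) → ℝ) |
        w.2.2 (Fin.last n) = 0} :=
      isClosed_eq ((continuous_apply _).comp (continuous_snd.comp continuous_snd))
        continuous_const
    have h1 := (hK.inter_right hC).image (f := fun w : ℝ × (Fin (n + 1) → ℝ) ×
      (Fin (n + 1) → ℝ) => (((w.1, (fun i => w.2.1 i.castSucc), (fun i => w.2.2 i.castSucc)),
        w.2.1 (Fin.last n)) : (ℝ × (Fin n → ℝ) × (Fin n → ℝ)) × ℝ)) (by fun_prop)
    convert h1 using 1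
    ext ⟨⟨s, z, y⟩, t⟩
    constructor
    · intro h
      refine ⟨_, ⟨h, ?_⟩, ?_⟩
      · simp [ι2]
      · simp [ι2]
    · rintro ⟨⟨s', z', y'⟩, ⟨h1, h2⟩, h3⟩
      simp only [Prod.mk.injEq] at h3
      obtain ⟨⟨rfl, rfl, rfl⟩, rfl⟩ := h3
      have h4 : y' (Fin.last n) = 0 := h2
      show ι2 n _ _ ∈ K
      have h5 : (Fin.snoc (fun i => z' i.castSucc) (z' (Fin.last n)) : Fin (n + 1) → ℝ) = z' :=
        Fin.snoc_init_self z'
      have h6 : (Fin.snoc (fun i => y' i.castSucc) 0 : Fin (n + 1) → ℝ) = y' := by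
        rw [← h4]
        exact Fin.snoc_init_self y'
      simp only [ι2, h5, h6]
      exact h1
  equi n m g h w v := by
    rw [iterV_ι2, iterV_ι2, blockSum_mulVec, blockSum_mulVec, Matrix.mulVec_zero]

theorem iterV_A2 (n m : ℕ) (w : ℝ × (Fin n → ℝ) × (Fin n → ℝ)) (v : Fin m → ℝ) :
    iterV A2.ι n m w v = (w.1, (Fin.append w.2.1 v : Fin (n + m) → ℝ),
      (Fin.append w.2.2 0 : Fin (n + m) → ℝ)) := iterV_ι2 n m w v

/-- The family of the sphere spectrum. -/
def famS : Fam A1 where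
  E n := (univ : Set (Fin n → ℝ))
  lc n := (isOpen_univ.isLocallyClosed :
    IsLocallyClosed (univ : Set (Fin n → ℝ))).locallyCompactSpace
  act n g x _ := mem_univ _
  res n x t _ := mem_univ _
  op n := by
    convert isOpen_univ
    exact eq_univ_of_forall fun _ => mem_univ _

/-- The open unit ball. -/
def EB (n : ℕ) : Set (Fin n → ℝ) := {v | v ⬝ᵥ v < 1}

theorem isOpen_EB (n : ℕ) : IsOpen (EB n) :=
  isOpen_lt (dot_continuous continuous_id continuous_id) continuous_const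

theorem EB_act {n : ℕ} (g : O n) {x : Fin n → ℝ} (hx : x ∈ EB n) : g.1 *ᵥ x ∈ EB n := by
  show (g.1 *ᵥ x) ⬝ᵥ (g.1 *ᵥ x) < 1
  rw [dot_mulVec]
  exact hx

theorem EB_res {n : ℕ} {x : Fin n → ℝ} {t : ℝ}
    (hx : (Fin.snoc x t : Fin (n + 1) → ℝ) ∈ EB (n + 1)) : x ∈ EB n := by
  have h1 : (Fin.snoc x t : Fin (n + 1) → ℝ) ⬝ᵥ (Fin.snoc x t : Fin (n + 1) → ℝ) < 1 := hx
  rw [dot_snoc] at h1
  show x ⬝ᵥ x < 1
  nlinarith [mul_self_nonneg t]

theorem EB_op (n : ℕ) : IsOpen {p : EB n × ℝ |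
    (Fin.snoc p.1.1 p.2 : Fin (n + 1) → ℝ) ∈ EB (n + 1)} :=
  (isOpen_EB (n + 1)).preimage
    (snoc_continuous (continuous_subtype_val.comp continuous_fst) continuous_snd)

/-- The open balls. -/
def famB : Fam A1 where
  E n := EB n
  lc n := (isOpen_EB n).isLocallyClosed.locallyCompactSpace
  act n g x hx := EB_act g hx
  res n x t hx := EB_res hx
  op n := EB_op n

/-- The set `{0} ∪ {1, 1/2, 1/3, …}`. -/
def A0 : Set ℝ := insert 0 (range fun i : ℕ => 1 / ((i : ℝ) + 1))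

theorem isClosed_A0 : IsClosed A0 :=
  (Filter.Tendsto.isCompact_insert_range tendsto_one_div_add_atTop_nhds_zero_nat).isClosed

/-- The set `E_n = {(s, z, y) : s ∈ A0, |y| = s, y · z = s}`. -/
def EX (n : ℕ) : Set (ℝ × (Fin n → ℝ) × (Fin n → ℝ)) :=
  {w | w.1 ∈ A0 ∧ w.2.2 ⬝ᵥ w.2.2 = w.1 ^ 2 ∧ w.2.2 ⬝ᵥ w.2.1 = w.1}

theorem isClosed_EX (n : ℕ) : IsClosed (EX n) := by
  refine (isClosed_A0.preimage continuous_fst).inter (IsClosed.inter ?_ ?_)
  · exact isClosed_eq (dot_continuous (continuous_snd.comp continuous_snd)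
      (continuous_snd.comp continuous_snd)) (continuous_fst.pow 2)
  · exact isClosed_eq (dot_continuous (continuous_snd.comp continuous_snd)
      (continuous_fst.comp continuous_snd)) continuous_fst

/-- The open subset of `EX n`. -/
def UW (n : ℕ) : Set (ℝ × (Fin n → ℝ) × (Fin n → ℝ)) :=
  {w | w.2.1 ⬝ᵥ w.2.1 < 1 ∨ (w.1 ≠ 0 ∧ w.2.1 ⬝ᵥ w.2.1 < 2)}

theorem isOpen_UW (n : ℕ) : IsOpen (UW n) := by
  have h1 : Continuous fun w : ℝ × (Fin n → ℝ) × (Fin n → ℝ) => w.2.1 ⬝ᵥ w.2.1 :=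
    dot_continuous (continuous_fst.comp continuous_snd) (continuous_fst.comp continuous_snd)
  exact (isOpen_lt h1 continuous_const).union
    ((isOpen_ne.preimage continuous_fst).inter (isOpen_lt h1 continuous_const))

theorem one_le_of_mem {n : ℕ} {w : ℝ × (Fin n → ℝ) × (Fin n → ℝ)} (hw : w ∈ EX n)
    (h0 : w.1 ≠ 0) : 1 ≤ w.2.1 ⬝ᵥ w.2.1 := by
  obtain ⟨-, h1, h2⟩ := hw
  have h3 : 0 ≤ (w.2.1 - w.1⁻¹ • w.2.2) ⬝ᵥ (w.2.1 - w.1⁻¹ • w.2.2) := by
    simp only [dotProduct]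
    exact Finset.sum_nonneg fun i _ => mul_self_nonneg _
  rw [sub_dotProduct, dotProduct_sub, dotProduct_sub, smul_dotProduct, smul_dotProduct,
    dotProduct_smul, dotProduct_smul, h1, h2, dotProduct_comm w.2.1 w.2.2, h2] at h3
  simp only [smul_eq_mul] at h3
  have h4 : w.1⁻¹ * w.1 = 1 := inv_mul_cancel₀ h0
  have h5 : w.1⁻¹ * (w.1⁻¹ * w.1 ^ 2) = 1 := by field_simp
  rw [h4, h5] at h3
  linarith

theorem EX_act {n : ℕ} (g : O n) {w : ℝ × (Fin n → ℝ) × (Fin n → ℝ)} (hw : w ∈ EX n) :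
    (w.1, g.1 *ᵥ w.2.1, g.1 *ᵥ w.2.2) ∈ EX n := by
  obtain ⟨h0, h1, h2⟩ := hw
  refine ⟨h0, ?_, ?_⟩
  · rw [dot_mulVec]
    exact h1
  · rw [dot_mulVec]
    exact h2

theorem EX_ι {n : ℕ} (w : ℝ × (Fin n → ℝ) × (Fin n → ℝ)) (t : ℝ) :
    ι2 n w t ∈ EX (n + 1) ↔ w ∈ EX n := by
  simp only [EX, ι2, mem_ofPred_eq, dot_snoc, mul_zero, add_zero, zero_mul]

/-- The family of `X`. -/
def famX : Fam A2 where
  E := EX
  lc n := (isClosed_EX n).isLocallyClosed.locallyCompactSpace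
  act n g x hx := EX_act g hx
  res n x t hx := (EX_ι x t).1 hx
  op n := by
    convert isOpen_univ
    exact eq_univ_of_forall fun p => (EX_ι _ _).2 p.1.2

/-- The subset for `W`. -/
def EW (n : ℕ) : Set (ℝ × (Fin n → ℝ) × (Fin n → ℝ)) := EX n ∩ UW n

theorem EW_act {n : ℕ} (g : O n) {w : ℝ × (Fin n → ℝ) × (Fin n → ℝ)} (hw : w ∈ EW n) :
    (w.1, g.1 *ᵥ w.2.1, g.1 *ᵥ w.2.2) ∈ EW n := by
  refine ⟨EX_act g hw.1, ?_⟩
  simp only [UW, mem_ofPred_eq, dot_mulVec]
  exact hw.2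

theorem EW_res {n : ℕ} (w : ℝ × (Fin n → ℝ) × (Fin n → ℝ)) (t : ℝ)
    (h : ι2 n w t ∈ EW (n + 1)) : w ∈ EW n := by
  refine ⟨(EX_ι w t).1 h.1, ?_⟩
  have h1 := h.2
  simp only [UW, ι2, dot_snoc, mem_ofPred_eq] at h1 ⊢
  have h2 := mul_self_nonneg t
  rcases h1 with h1 | ⟨h0, h1⟩
  · left
    linarith
  · right
    exact ⟨h0, by linarith⟩

theorem EW_op (n : ℕ) : IsOpen {p : EW n × ℝ | ι2 n p.1.1 p.2 ∈ EW (n + 1)} := by
  have h1 : IsOpen {p : EW n × ℝ | ι2 n p.1.1 p.2 ∈ UW (n + 1)} := by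
    refine (isOpen_UW (n + 1)).preimage ?_
    exact (ι2_cont n).comp ((continuous_subtype_val.comp continuous_fst).prodMk
      continuous_snd)
  convert h1 using 1
  ext p
  constructor
  · intro h
    exact h.2
  · intro h
    exact ⟨(EX_ι _ _).2 p.1.2.1, h⟩

/-- The family of `W = X ∧ Y'`. -/
def famW : Fam A2 where
  E := EW
  lc n := ((isClosed_EX n).isLocallyClosed.inter
    (isOpen_UW n).isLocallyClosed).locallyCompactSpace
  act n g x hx := EW_act g hx
  res n x t hx := EW_res x t hx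
  op n := EW_op n

theorem mem_EW {n : ℕ} {w : ℝ × (Fin n → ℝ) × (Fin n → ℝ)} :
    w ∈ EW n ↔ w ∈ EX n ∧ (w.2.1 ⬝ᵥ w.2.1 < 1 ∨ (w.1 ≠ 0 ∧ w.2.1 ⬝ᵥ w.2.1 < 2)) := Iff.rfl

/-- The quotient map from the sphere spectrum. -/
noncomputable def fSB : Hom famS.spec famB.spec :=
  colHom famS famB (fun _ _ _ => mem_univ _) fun n =>
    (isOpen_EB n).preimage (continuous_subtype_val (p := fun v : Fin n → ℝ => v ∈ univ))

theorem isOpen_EW (n : ℕ) : IsOpen {e : EX n | e.1 ∈ EW n} := by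
  have h1 : IsOpen {e : EX n | e.1 ∈ UW n} := (isOpen_UW n).preimage continuous_subtype_val
  convert h1 using 1
  ext e
  exact ⟨fun h => h.2, fun h => ⟨e.2, h⟩⟩

/-- The quotient map from `X`. -/
noncomputable def fXW : Hom famX.spec famW.spec :=
  colHom famX famW (fun _ _ h => h.1) isOpen_EW

end Pool.Agent.W641.OS
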