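import Pool.Agent.W641.OS.Pi

/-!
# Orthogonal spectra from one-point compactifications
-/

set_option autoImplicit false

namespace Pool.Agent.W641.OS

open Topology OnePoint Matrix Set

instance compactSpace_O (n : ℕ) : CompactSpace (O n) := by
  have h1 : IsCompact (Set.pi univ fun _ : Fin n => Set.pi univ fun _ : Fin n => Icc (-1 : ℝ) 1) :=
    isCompact_univ_pi fun _ => isCompact_univ_pi fun _ => isCompact_Icc
  have h2 : IsClosed {A : Matrix (Fin n) (Fin n) ℝ | A * Aᵀ = 1} := by
    refine isClosed_eq ?_ continuous_const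
    exact continuous_id.matrix_mul continuous_id.matrix_transpose
  have h3 : ((Matrix.orthogonalGroup (Fin n) ℝ : Submonoid (Matrix (Fin n) (Fin n) ℝ)) :
      Set (Matrix (Fin n) (Fin n) ℝ)) = {A | A * Aᵀ = 1} := by
    ext A
    exact Matrix.mem_orthogonalGroup_iff (Fin n) ℝ
  have h4 : IsCompact ((Matrix.orthogonalGroup (Fin n) ℝ :
      Submonoid (Matrix (Fin n) (Fin n) ℝ)) : Set (Matrix (Fin n) (Fin n) ℝ)) := by
    rw [h3]
    refine h1.of_isClosed_subset h2 ?_
    intro A hA
    have hA' : A ∈ Matrix.unitaryGroup (Fin n) ℝ := (Matrix.mem_orthogonalGroup_iff (Fin n) ℝ).2 hA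
    intro i _ j _
    have := entry_norm_bound_of_unitary hA' i j
    rw [Real.norm_eq_abs, abs_le] at this
    exact this
  exact isCompact_iff_compactSpace.1 h4

/-- Iterates of the maps `ι`. -/
def iterV {V : ℕ → Type} (ι : ∀ n, V n → ℝ → V (n + 1)) (n : ℕ) :
    ∀ m, V n → (Fin m → ℝ) → V (n + m)
  | 0, x, _ => x
  | m + 1, x, v => ι (n + m) (iterV ι n m x (fun i => v i.castSucc)) (v (Fin.last m))

/-- An ambient sequence of spaces. -/
structure Amb where
  V : ℕ → Type
  top : ∀ n, TopologicalSpace (V n)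
  t2 : ∀ n, T2Space (V n)
  act : ∀ n, O n → V n → V n
  act_cont : ∀ n, Continuous (fun p : O n × V n => act n p.1 p.2)
  act_one : ∀ n x, act n 1 x = x
  act_mul : ∀ n g h x, act n (g * h) x = act n g (act n h x)
  ι : ∀ n, V n → ℝ → V (n + 1)
  ι_cont : ∀ n, Continuous (fun p : V n × ℝ => ι n p.1 p.2)
  ι_proper : ∀ n (K : Set (V (n + 1))), IsCompact K →
    IsCompact ((fun p : V n × ℝ => ι n p.1 p.2) ⁻¹' K)
  equi : ∀ n m (g : O n) (h : O m) (x : V n) (v : Fin m → ℝ),
    iterV ι n m (act n g x) (h.1 *ᵥ v) = act (n + m) (blockSum g h) (iterV ι n m x v)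

instance (A : Amb) (n : ℕ) : TopologicalSpace (A.V n) := A.top n
instance (A : Amb) (n : ℕ) : T2Space (A.V n) := A.t2 n

/-- A family of locally compact invariant subsets. -/
structure Fam (A : Amb) where
  E : ∀ n, Set (A.V n)
  lc : ∀ n, LocallyCompactSpace (E n)
  act : ∀ n g x, x ∈ E n → A.act n g x ∈ E n
  res : ∀ n x t, A.ι n x t ∈ E (n + 1) → x ∈ E n
  op : ∀ n, IsOpen {p : E n × ℝ | A.ι n p.1 p.2 ∈ E (n + 1)}

namespace Fam

variable {A : Amb} (F : Fam A)

instance (n : ℕ) : LocallyCompactSpace (F.E n) := F.lc n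

open Classical in
/-- A point of the ambient space as a point of the one-point compactification. -/
noncomputable def pnt (n : ℕ) (w : A.V n) : OnePoint (F.E n) :=
  if h : w ∈ F.E n then ((⟨w, h⟩ : F.E n) : OnePoint (F.E n)) else ∞

theorem pnt_of_mem {n : ℕ} {w : A.V n} (h : w ∈ F.E n) :
    F.pnt n w = ((⟨w, h⟩ : F.E n) : OnePoint (F.E n)) := dif_pos h

theorem pnt_of_notMem {n : ℕ} {w : A.V n} (h : w ∉ F.E n) : F.pnt n w = ∞ := dif_neg h

@[simp] theorem pnt_coe {n : ℕ} (e : F.E n) : F.pnt n e.1 = (e : OnePoint (F.E n)) :=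
  F.pnt_of_mem e.2

/-- The action. -/
noncomputable def actF (n : ℕ) (g : O n) (x : OnePoint (F.E n)) : OnePoint (F.E n) :=
  x.elim ∞ fun e => F.pnt n (A.act n g e.1)

@[simp] theorem actF_infty (n : ℕ) (g : O n) : F.actF n g ∞ = ∞ := rfl

theorem act_mem_iff {n : ℕ} (g : O n) (w : A.V n) : A.act n g w ∈ F.E n ↔ w ∈ F.E n := by
  constructor
  · intro h
    have := F.act n g⁻¹ _ h
    rwa [← A.act_mul, inv_mul_cancel, A.act_one] at this
  · exact F.act n g w

@[simp] theorem actF_pnt (n : ℕ) (g : O n) (w : A.V n) :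
    F.actF n g (F.pnt n w) = F.pnt n (A.act n g w) := by
  by_cases h : w ∈ F.E n
  · rw [F.pnt_of_mem h]
    rfl
  · rw [F.pnt_of_notMem h, F.pnt_of_notMem (fun h' => h ((F.act_mem_iff g w).1 h'))]
    rfl

/-- The structure map. -/
noncomputable def σF (n : ℕ) (x : OnePoint (F.E n)) (t : OnePoint ℝ) : OnePoint (F.E (n + 1)) :=
  (sm x t).elim ∞ fun p => F.pnt (n + 1) (A.ι n p.1.1 p.2)

@[simp] theorem σF_infty_left (n : ℕ) (t : OnePoint ℝ) : F.σF n ∞ t = ∞ := rfl

@[simp] theorem σF_infty_right (n : ℕ) (x : OnePoint (F.E n)) : F.σF n x ∞ = ∞ := by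
  rw [σF, sm_infty_right]
  rfl

@[simp] theorem σF_pnt (n : ℕ) (w : A.V n) (t : ℝ) :
    F.σF n (F.pnt n w) (t : OnePoint ℝ) = F.pnt (n + 1) (A.ι n w t) := by
  by_cases h : w ∈ F.E n
  · rw [F.pnt_of_mem h]
    rfl
  · rw [F.pnt_of_notMem h, F.pnt_of_notMem (fun h' => h (F.res n w t h'))]
    rfl

theorem actF_continuous (n : ℕ) :
    Continuous fun p : O n × OnePoint (F.E n) => F.actF n p.1 p.2 := by
  have h1 : Continuous fun w : OnePoint (O n × F.E n) =>
      (w.elim ∞ fun p => F.pnt n (A.act n p.1 p.2.1) : OnePoint (F.E n)) := by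
    refine pp_continuous (X := O n × F.E n) (Y := F.E n) (A := O n × A.V n) (B := A.V n)
      (Prod.map id Subtype.val) Subtype.val (fun p => A.act n p.1 p.2)
      (IsInducing.id.prodMap IsInducing.subtypeVal) IsEmbedding.subtypeVal (A.act_cont n)
      ?_ ?_ ?_ _ rfl ?_ ?_
    · intro K hK
      have h2 : IsCompact ((fun p : O n × A.V n => (p.1, A.act n p.1⁻¹ p.2)) ''
          (univ ×ˢ K)) := by
        refine (isCompact_univ.prod hK).image ?_
        exact continuous_fst.prodMk ((A.act_cont n).comp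
          (continuous_fst.inv.prodMk continuous_snd))
      convert h2 using 1
      ext ⟨g, x⟩
      constructor
      · intro h
        refine ⟨(g, A.act n g x), ⟨mem_univ _, h⟩, ?_⟩
        simp [← A.act_mul, A.act_one]
      · rintro ⟨⟨g', y⟩, ⟨_, hy⟩, h⟩
        simp only [Prod.mk.injEq] at h
        obtain ⟨rfl, rfl⟩ := h
        simpa [← A.act_mul, A.act_one] using hy
    · rintro ⟨g, x⟩ hx
      rw [Subtype.range_coe, F.act_mem_iff] at hx
      exact ⟨(g, ⟨x, hx⟩), rfl⟩
    · convert isOpen_univ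
      refine eq_univ_of_forall fun p => ?_
      rw [mem_ofPred_eq, Subtype.range_coe]
      exact (F.act_mem_iff _ _).2 p.2.2
    · intro p y h
      show F.pnt n (A.act n p.1 p.2.1) = y
      have h' : A.act n p.1 p.2.1 = y.1 := h
      rw [h', F.pnt_coe]
    · intro p h
      rw [Subtype.range_coe] at h
      exact F.pnt_of_notMem h
  have h2 : Continuous fun p : O n × OnePoint (F.E n) =>
      sm (p.1 : OnePoint (O n)) p.2 :=
    sm_continuous.comp ((continuous_coe.comp continuous_fst).prodMk continuous_snd)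
  refine (h1.comp h2).congr fun p => ?_
  obtain ⟨g, x⟩ := p
  induction x using OnePoint.rec <;> rfl

theorem σF_continuous (n : ℕ) :
    Continuous fun p : OnePoint (F.E n) × OnePoint ℝ => F.σF n p.1 p.2 := by
  have h1 : Continuous fun w : OnePoint (F.E n × ℝ) =>
      (w.elim ∞ fun p => F.pnt (n + 1) (A.ι n p.1.1 p.2) : OnePoint (F.E (n + 1))) := by
    refine pp_continuous (X := F.E n × ℝ) (Y := F.E (n + 1)) (A := A.V n × ℝ) (B := A.V (n + 1))
      (Prod.map Subtype.val id) Subtype.val (fun p => A.ι n p.1 p.2)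
      (IsInducing.subtypeVal.prodMap IsInducing.id) IsEmbedding.subtypeVal (A.ι_cont n)
      (A.ι_proper n) ?_ ?_ _ rfl ?_ ?_
    · rintro ⟨x, t⟩ hx
      rw [Subtype.range_coe] at hx
      exact ⟨(⟨x, F.res n x t hx⟩, t), rfl⟩
    · have := F.op n
      rw [Subtype.range_coe]
      exact this
    · intro p y h
      show F.pnt (n + 1) (A.ι n p.1.1 p.2) = y
      have h' : A.ι n p.1.1 p.2 = y.1 := h
      rw [h', F.pnt_coe]
    · intro p h
      rw [Subtype.range_coe] at h
      exact F.pnt_of_notMem h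
  exact h1.comp sm_continuous

theorem iterMap_infty (n m : ℕ) (v : Fin m → ℝ) :
    iterMap (sp := fun n => OnePoint (F.E n)) F.σF n m ∞ v = ∞ := by
  induction m with
  | zero => rfl
  | succ m ih => rw [iterMap, ih, F.σF_infty_left]

theorem iterMap_pnt (n m : ℕ) (w : A.V n) (v : Fin m → ℝ) :
    iterMap (sp := fun n => OnePoint (F.E n)) F.σF n m (F.pnt n w) v =
      F.pnt (n + m) (iterV A.ι n m w v) := by
  induction m with
  | zero => rfl
  | succ m ih => rw [iterMap, ih, F.σF_pnt]; rfl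

theorem rec_pnt {n : ℕ} {P : OnePoint (F.E n) → Prop} (h0 : P ∞) (h1 : ∀ w, P (F.pnt n w)) :
    ∀ x, P x := by
  intro x
  induction x using OnePoint.rec with
  | infty => exact h0
  | coe e => rw [← F.pnt_coe]; exact h1 _

/-- The orthogonal spectrum of a family. -/
noncomputable def spec : OrthSpectrum where
  sp n := OnePoint (F.E n)
  top n := inferInstance
  cg n := inferInstance
  wh n := by
    intro K _ _ _ f hf
    exact (isCompact_range hf).isClosed
  pt n := ∞
  act := F.actF
  act_cont := F.actF_continuous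
  act_one n := F.rec_pnt rfl fun w => by rw [F.actF_pnt, A.act_one]
  act_mul n g h := F.rec_pnt rfl fun w => by
    rw [F.actF_pnt, F.actF_pnt, F.actF_pnt, A.act_mul]
  act_pt n g := rfl
  σ := F.σF
  σ_cont := F.σF_continuous
  σ_pt n t := rfl
  σ_infty n x := F.σF_infty_right n x
  equi n m g h x v := by
    revert x
    refine F.rec_pnt ?_ ?_
    · rw [F.actF_infty, F.iterMap_infty, F.iterMap_infty, F.actF_infty]
    · intro w
      rw [F.actF_pnt, F.iterMap_pnt, F.iterMap_pnt, A.equi, F.actF_pnt]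

end Fam

/-- The collapse maps between families over the same ambient. -/
noncomputable def colF {A : Amb} (F G : Fam A) (n : ℕ) (x : OnePoint (F.E n)) :
    OnePoint (G.E n) := x.elim ∞ fun e => G.pnt n e.1

theorem colF_pnt {A : Amb} (F G : Fam A) (hs : ∀ n, G.E n ⊆ F.E n) (n : ℕ) (w : A.V n) :
    colF F G n (F.pnt n w) = G.pnt n w := by
  by_cases h : w ∈ F.E n
  · rw [F.pnt_of_mem h]
    rfl
  · rw [F.pnt_of_notMem h, G.pnt_of_notMem (fun h' => h (hs n h'))]
    rfl

theorem colF_continuous {A : Amb} (F G : Fam A) (hs : ∀ n, G.E n ⊆ F.E n)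
    (ho : ∀ n, IsOpen {e : F.E n | e.1 ∈ G.E n}) (n : ℕ) : Continuous (colF F G n) := by
  refine pp_continuous (X := F.E n) (Y := G.E n) (A := A.V n) (B := A.V n)
      Subtype.val Subtype.val id IsInducing.subtypeVal IsEmbedding.subtypeVal continuous_id
      (fun K hK => hK) ?_ ?_ _ rfl ?_ ?_
  · rintro x hx
    rw [Subtype.range_coe] at hx ⊢
    exact hs n hx
  · rw [Subtype.range_coe]
    exact ho n
  · intro p y h
    show G.pnt n p.1 = y
    have h' : p.1 = y.1 := h
    rw [h', G.pnt_coe]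
  · intro p h
    rw [Subtype.range_coe] at h
    exact G.pnt_of_notMem h

/-- The collapse morphism between families over the same ambient. -/
noncomputable def colHom {A : Amb} (F G : Fam A) (hs : ∀ n, G.E n ⊆ F.E n)
    (ho : ∀ n, IsOpen {e : F.E n | e.1 ∈ G.E n}) : Hom F.spec G.spec where
  f := colF F G
  cont := colF_continuous F G hs ho
  pt n := rfl
  act n g := F.rec_pnt rfl fun w => by
    show colF F G n (F.actF n g (F.pnt n w)) = G.actF n g (colF F G n (F.pnt n w))
    rw [F.actF_pnt, colF_pnt F G hs, colF_pnt F G hs, G.actF_pnt]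
  σ n := F.rec_pnt (fun t => rfl) fun w t => by
    show colF F G (n + 1) (F.σF n (F.pnt n w) t) = G.σF n (colF F G n (F.pnt n w)) t
    induction t using OnePoint.rec with
    | infty => rw [F.σF_infty_right, G.σF_infty_right]; rfl
    | coe t => rw [F.σF_pnt, colF_pnt F G hs, colF_pnt F G hs, G.σF_pnt]

end Pool.Agent.W641.OS
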