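import Pool.Agent.W641.OS.Not

/-!
# `X → X ∧ Y'` is not a stable equivalence: the contradiction
-/

set_option autoImplicit false
set_option linter.unusedVariables false
set_option synthInstance.maxHeartbeats 400000

namespace Pool.Agent.W641.OS

open Topology OnePoint Matrix Set Filter

/-- The centre-`c` collapse, domain. -/
def QU (a : ℕ) (c : Fin (1 + a) → ℝ) : Set (unitInterval × ((Fin (1 + a) → ℝ) × ℝ)) :=
  {p | (1 - p.1.1) * ((p.2.1 - c) ⬝ᵥ (p.2.1 - c)) < 1}

/-- The centre-`c` collapse. -/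
noncomputable def QF (a : ℕ) (c : Fin (1 + a) → ℝ)
    (p : unitInterval × ((Fin (1 + a) → ℝ) × ℝ)) : (Fin (1 + a) → ℝ) × ℝ :=
  (radF (1 - p.1.1) (p.2.1 - c), p.2.2)

theorem Q_cont (a : ℕ) (c : Fin (1 + a) → ℝ) : Continuous (colT (QU a c) (QF a c)) := by
  have h0 : ∀ t : unitInterval, 0 ≤ 1 - t.1 := fun t => by linarith [t.2.2]
  have h1 : Continuous fun p : unitInterval × ((Fin (1 + a) → ℝ) × ℝ) => 1 - p.1.1 :=
    continuous_const.sub (continuous_subtype_val.comp continuous_fst)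
  have h2 : Continuous fun p : unitInterval × ((Fin (1 + a) → ℝ) × ℝ) => p.2.1 :=
    continuous_fst.comp continuous_snd
  have h2' : Continuous fun p : unitInterval × ((Fin (1 + a) → ℝ) × ℝ) => p.2.1 - c :=
    h2.sub continuous_const
  refine colT_continuous (QU a c) ?_ (QF a c) ?_
    (fun p => (radE (1 - p.1.1) p.2.1 + c, p.2.2)) ?_ ?_ ?_ ?_
  · exact isOpen_lt (h1.mul (dot_continuous h2' h2')) continuous_const
  · have h3 := radF_contOn h1 h2'
    exact h3.prodMk (continuous_snd.comp continuous_snd).continuousOn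
  · exact ((radE_cont h1 (fun p => h0 _) h2).add continuous_const).prodMk
      (continuous_snd.comp continuous_snd)
  · intro t y
    show (1 - t.1) * ((radE (1 - t.1) y.1 + c - c) ⬝ᵥ (radE (1 - t.1) y.1 + c - c)) < 1
    rw [add_sub_cancel_right]
    exact radE_lt (h0 t) y.1
  · intro t y
    refine Prod.ext ?_ rfl
    show radF (1 - t.1) (radE (1 - t.1) y.1 + c - c) = y.1
    rw [add_sub_cancel_right]
    exact radF_radE (h0 t) y.1
  · intro p hp
    refine Prod.ext ?_ rfl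
    show radE (1 - p.1.1) (radF (1 - p.1.1) (p.2.1 - c)) + c = p.2.1
    rw [radE_radF (h0 p.1) (p.2.1 - c) hp, sub_add_cancel]

theorem FR_PI (a i : ℕ) (v : Fin (1 + a) → ℝ) (τ : ℝ) :
    FR i (PI a i v) τ = Th a (radF 1 (v - cI a i)) τ := by
  have hpos := sI_pos i
  have h1 : (sI i)⁻¹ • (PI a i v).2.2 = Th a 0 1 := by
    show (sI i)⁻¹ • Th a 0 (sI i) = Th a 0 1
    rw [Th_smul, smul_zero, inv_mul_cancel₀ hpos.ne']
  have h2 : (PI a i v).2.1 - (sI i)⁻¹ • (PI a i v).2.2 = Th a (v - cI a i) 0 := by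
    rw [h1]
    show Th a (v - cI a i) 1 - Th a 0 1 = _
    rw [sub_eq_iff_eq_add, Th_add, add_zero, zero_add]
  unfold FR
  rw [h2, h1, radF, Th_dot, Th_smul, Th_smul, Th_add, mul_zero, mul_zero, add_zero, zero_add,
    mul_one, smul_zero, add_zero]
  rfl

theorem RI_pnt (i n : ℕ) (w : V2 n) (τ : ℝ) :
    (w ∈ EW n → w.1 = sI i → RI i n (sm (famW.pnt n w : OnePoint (EW n)) (τ : OnePoint ℝ)) =
      ((FR i w τ : Fin n → ℝ) : OnePoint (Fin n → ℝ))) ∧
    (¬ (w ∈ EW n ∧ w.1 = sI i) →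
      RI i n (sm (famW.pnt n w : OnePoint (EW n)) (τ : OnePoint ℝ)) = ∞) := by
  constructor
  · intro h1 h2
    have h3 : famW.pnt n w = ((⟨w, h1⟩ : EW n) : OnePoint (EW n)) := famW.pnt_of_mem h1
    have h4 : RI i n (sm (((⟨w, h1⟩ : EW n) : OnePoint (EW n))) (τ : OnePoint ℝ)) =
      ((FR i w τ : Fin n → ℝ) : OnePoint (Fin n → ℝ)) := if_pos h2
    exact (congrArg (fun x : OnePoint (EW n) => RI i n (sm x (τ : OnePoint ℝ))) h3).trans h4
  · intro h1
    by_cases h2 : w ∈ EW n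
    · have h3 : famW.pnt n w = ((⟨w, h2⟩ : EW n) : OnePoint (EW n)) := famW.pnt_of_mem h2
      have h4 : RI i n (sm (((⟨w, h2⟩ : EW n) : OnePoint (EW n))) (τ : OnePoint ℝ)) = ∞ :=
        if_neg fun h => h1 ⟨h2, h⟩
      exact (congrArg (fun x : OnePoint (EW n) => RI i n (sm x (τ : OnePoint ℝ))) h3).trans h4
    · have h3 : famW.pnt n w = (∞ : OnePoint (EW n)) := famW.pnt_of_notMem h2
      exact (congrArg (fun x : OnePoint (EW n) => RI i n (sm x (τ : OnePoint ℝ))) h3)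

/-- The homotopy at time `1`. -/
theorem RI_xiF (a i : ℕ) (v : Fin (1 + a) → ℝ) (τ : ℝ) :
    RI i (1 + 1 + a) (sm (xiF a (v : OnePoint (Fin (1 + a) → ℝ)) : OnePoint (EW (1 + 1 + a)))
      (τ : OnePoint ℝ)) = (ThH a).onePointCongr (colT (QU a (cI a i)) (QF a (cI a i))
        (0, (((v, τ) : (Fin (1 + a) → ℝ) × ℝ) : OnePoint ((Fin (1 + a) → ℝ) × ℝ)))) := by
  have h0 := RI_pnt i (1 + 1 + a) (PI a (idx a v) v) τ
  by_cases h : (v - cI a i) ⬝ᵥ (v - cI a i) < 1
  · have h1 := idx_eq a i v h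
    have h2 : ((0 : unitInterval), ((v, τ) : (Fin (1 + a) → ℝ) × ℝ)) ∈ QU a (cI a i) := by
      show (1 - (0 : ℝ)) * ((v - cI a i) ⬝ᵥ (v - cI a i)) < 1
      rw [sub_zero, one_mul]
      exact h
    have h3 : colT (QU a (cI a i)) (QF a (cI a i))
        (0, (((v, τ) : (Fin (1 + a) → ℝ) × ℝ) : OnePoint ((Fin (1 + a) → ℝ) × ℝ))) =
        ((QF a (cI a i) (0, (v, τ)) : (Fin (1 + a) → ℝ) × ℝ) :
          OnePoint ((Fin (1 + a) → ℝ) × ℝ)) := if_pos h2
    rw [h3]
    rw [h1] at h0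
    refine (congrArg (fun k => RI i (1 + 1 + a) (sm (famW.pnt (1 + 1 + a) (PI a k v) :
      OnePoint (EW (1 + 1 + a))) (τ : OnePoint ℝ))) h1).trans ?_
    refine (h0.1 ((PI_mem_EW a i v).2 h) rfl).trans ?_
    rw [FR_PI]
    show _ = ((Th a (radF (1 - (0 : ℝ)) (v - cI a i)) τ : Fin (1 + 1 + a) → ℝ) :
      OnePoint (Fin (1 + 1 + a) → ℝ))
    rw [sub_zero]
  · have h2 : ((0 : unitInterval), ((v, τ) : (Fin (1 + a) → ℝ) × ℝ)) ∉ QU a (cI a i) := by
      show ¬ ((1 - (0 : ℝ)) * ((v - cI a i) ⬝ᵥ (v - cI a i)) < 1)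
      rw [sub_zero, one_mul]
      exact h
    have h3 : colT (QU a (cI a i)) (QF a (cI a i))
        (0, (((v, τ) : (Fin (1 + a) → ℝ) × ℝ) : OnePoint ((Fin (1 + a) → ℝ) × ℝ))) = ∞ :=
      if_neg h2
    rw [h3]
    refine (h0.2 ?_).trans rfl
    rintro ⟨h4, h5⟩
    have h6 : idx a v = i := sI_inj h5
    rw [h6, PI_mem_EW] at h4
    exact h h4

/-- The homotopy at time `0`. -/
theorem RI_avoid (i n : ℕ) (x : OnePoint (EX n)) (τ : ℝ)
    (h : ∀ e : EX n, x = e → e.1.1 = sI i → 2 ≤ e.1.2.1 ⬝ᵥ e.1.2.1) :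
    RI i n (sm (colF famX famW n x : OnePoint (EW n)) (τ : OnePoint ℝ)) = ∞ := by
  induction x using OnePoint.rec with
  | infty => rfl
  | coe e =>
    refine (RI_pnt i n e.1 τ).2 ?_
    rintro ⟨h1, h2⟩
    exact absurd (EW_lt_two h1) (not_lt.2 (h e rfl h2))

theorem not_htpy (a : ℕ) (g : C(OnePoint (Fin (1 + a) → ℝ), OnePoint (EX (1 + 1 + a))))
    (hg : g ∞ = ∞)
    (u v : C(OnePoint (Fin (1 + a) → ℝ), OnePoint (EW (1 + 1 + a))))
    (hu : ∀ x, u x = colF famX famW (1 + 1 + a) (g x)) (hv : ∀ x, v x = xiF a x)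
    (H : u.HomotopicRel v {∞}) : False := by
  obtain ⟨H⟩ := H
  obtain ⟨i, hi⟩ := lift_avoid (1 + a) (1 + 1 + a) g g.continuous hg
  have hH0 : ∀ x, H (0, x) = u x := H.apply_zero
  have hH1 : ∀ x, H (1, x) = v x := H.apply_one
  have hHi : ∀ t, H (t, ∞) = ∞ := fun t => by
    rw [H.eq_fst t (Set.mem_singleton _), hu, hg]
    rfl
  have hK : Continuous fun p : unitInterval × OnePoint ((Fin (1 + a) → ℝ) × ℝ) =>
      (p.2.elim ∞ fun c => RI i (1 + 1 + a) (sm (H (p.1, (c.1 : OnePoint (Fin (1 + a) → ℝ))))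
        (c.2 : OnePoint ℝ)) : OnePoint (Fin (1 + 1 + a) → ℝ)) := by
    refine from_smash_param (Homeomorph.refl _)
      (fun t x y => RI i (1 + 1 + a) (sm (H (t, x)) y)) ?_ ∞ ?_ ?_
    · exact (RI_continuous i (1 + 1 + a)).comp (sm_continuous.comp
        ((H.continuous.comp (continuous_fst.prodMk (continuous_fst.comp continuous_snd))).prodMk
          (continuous_snd.comp continuous_snd)))
    · intro t b
      rw [hHi, sm_infty_left]
      rfl
    · intro t x
      rw [sm_infty_right]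
      rfl
  set S := OnePoint ((Fin (1 + a) → ℝ) × ℝ) with hS
  set c : Fin (1 + a) → ℝ := cI a i with hc
  -- the three maps
  have hQ := Q_cont a c
  let e : C(OnePoint (Fin (1 + 1 + a) → ℝ), S) :=
    ⟨(ThH a).onePointCongr.symm, (ThH a).onePointCongr.symm.continuous⟩
  let T : C(S, S) := ⟨(Homeomorph.addRight ((c, 0) : (Fin (1 + a) → ℝ) × ℝ)).onePointCongr,
    (Homeomorph.addRight ((c, 0) : (Fin (1 + a) → ℝ) × ℝ)).onePointCongr.continuous⟩
  let q : C(S, S) := ⟨fun x => colT (QU a c) (QF a c) (0, x),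
    hQ.comp (continuous_const.prodMk continuous_id)⟩
  have h1 : (ContinuousMap.const S (∞ : S)).Homotopic q := by
    refine ⟨⟨⟨fun p => e (p.2.elim ∞ fun c => RI i (1 + 1 + a)
      (sm (H (p.1, (c.1 : OnePoint (Fin (1 + a) → ℝ)))) (c.2 : OnePoint ℝ))),
      e.continuous.comp hK⟩, ?_, ?_⟩⟩
    · intro x
      show e (x.elim ∞ fun c => RI i (1 + 1 + a)
        (sm (H (0, (c.1 : OnePoint (Fin (1 + a) → ℝ)))) (c.2 : OnePoint ℝ))) = ∞
      induction x using OnePoint.rec with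
      | infty => rfl
      | coe x =>
        show e (RI i (1 + 1 + a)
          (sm (H (0, (x.1 : OnePoint (Fin (1 + a) → ℝ)))) (x.2 : OnePoint ℝ))) = ∞
        rw [hH0, hu, RI_avoid i (1 + 1 + a) _ x.2 (fun e' he' => hi x.1 e' he')]
        rfl
    · intro x
      show e (x.elim ∞ fun c => RI i (1 + 1 + a)
        (sm (H (1, (c.1 : OnePoint (Fin (1 + a) → ℝ)))) (c.2 : OnePoint ℝ))) =
          colT (QU a c) (QF a c) (0, x)
      induction x using OnePoint.rec with
      | infty => rfl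
      | coe x =>
        show e (RI i (1 + 1 + a)
          (sm (H (1, (x.1 : OnePoint (Fin (1 + a) → ℝ)))) (x.2 : OnePoint ℝ))) = _
        rw [hH1, hv, RI_xiF]
        exact (ThH a).onePointCongr.symm_apply_apply _
  have h2 : (T.comp q).Homotopic (ContinuousMap.id S) := by
    refine ⟨⟨⟨fun p => T (colT (QU a c) (QF a c) p), T.continuous.comp hQ⟩, ?_, ?_⟩⟩
    · intro x
      rfl
    · intro x
      show T (colT (QU a c) (QF a c) (1, x)) = x
      induction x using OnePoint.rec with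
      | infty => rfl
      | coe x =>
        have hx' : ((1 : unitInterval), x) ∈ QU a c := by
          show (1 - (1 : ℝ)) * ((x.1 - c) ⬝ᵥ (x.1 - c)) < 1
          rw [sub_self, zero_mul]
          exact zero_lt_one
        have e3 : colT (QU a c) (QF a c) (1, (x : S)) = ((QF a c (1, x) :
          (Fin (1 + a) → ℝ) × ℝ) : S) := if_pos hx'
        rw [e3]
        show (((radF (1 - (1 : ℝ)) (x.1 - c), x.2) + (c, 0) : (Fin (1 + a) → ℝ) × ℝ) : S) = x
        rw [sub_self, radF_zero]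
        congr 1
        exact Prod.ext (sub_add_cancel _ _) (add_zero _)
  have h3 : (T.comp (ContinuousMap.const S (∞ : S))).Homotopic (T.comp q) :=
    ContinuousMap.Homotopic.comp (ContinuousMap.Homotopic.refl T) h1
  have h4 : (ContinuousMap.id S).Homotopic (T.comp (ContinuousMap.const S (∞ : S))) :=
    (h3.trans h2).symm
  obtain ⟨K⟩ := h4
  exact onePoint_not_null (V := (Fin (1 + a) → ℝ) × ℝ) (fun p => K p) K.continuous
    (fun x => K.apply_zero x) (T ∞) (fun x => K.apply_one x)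

/-- The morphism `X = X ∧ S → X ∧ Y'` is not a stable equivalence. -/
theorem fXW_not : ¬ IsStableEquiv fXW := by
  intro hf
  obtain ⟨a, r, hr⟩ := hf.exists_lift (xi 0)
  rw [xi_iter] at hr
  obtain ⟨j, n, h, g, hg⟩ := r
  simp only [Rep.map, xi] at hr
  cases hr with
  | mk _ _ _ _ _ _ _ hgg =>
    exact not_htpy a g hg _ _ (fun x => rfl) (fun x => rfl) hgg

end Pool.Agent.W641.OS
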