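import Mathlib
import Pool.Agent.Helper31.GZ.Brouwer

/-!
# The identity of a sphere is not null-homotopic
-/

set_option autoImplicit false

namespace Pool.Agent.W641.OS

open Set Metric

theorem sphere_not_null (d : ℕ)
    (F : C(unitInterval × sphere (0 : EuclideanSpace ℝ (Fin d)) 1,
      sphere (0 : EuclideanSpace ℝ (Fin d)) 1))
    (c : sphere (0 : EuclideanSpace ℝ (Fin d)) 1) (hF0 : ∀ x, F (0, x) = x)
    (hF1 : ∀ x, F (1, x) = c) : False := by
  set t : EuclideanSpace ℝ (Fin d) → unitInterval :=
    fun x => projIcc 0 1 zero_le_one (2 - 2 * ‖x‖) with ht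
  have htc : Continuous t := continuous_projIcc.comp (by fun_prop)
  have hn : ∀ x : EuclideanSpace ℝ (Fin d), x ≠ 0 →
      ‖x‖⁻¹ • x ∈ sphere (0 : EuclideanSpace ℝ (Fin d)) 1 := by
    intro x hx
    rw [mem_sphere_zero_iff_norm, norm_smul, norm_inv, norm_norm,
      inv_mul_cancel₀ (norm_ne_zero_iff.2 hx)]
  set f : EuclideanSpace ℝ (Fin d) → EuclideanSpace ℝ (Fin d) := fun x => if h : x ≠ 0 then
    (max ‖x‖ 1) • ((F (t x, ⟨‖x‖⁻¹ • x, hn x h⟩)).1) else c.1 with hf
  have hf0 : ∀ x : EuclideanSpace ℝ (Fin d), ‖x‖ < 1 / 2 → f x = c.1 := by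
    intro x hx
    by_cases h : x ≠ 0
    · have h1 : t x = 1 := by
        simp only [ht]
        rw [projIcc_of_right_le _ (by linarith)]
        rfl
      simp only [hf, dif_pos h, h1]
      rw [hF1, max_eq_right (by linarith), one_smul]
    · simp only [hf, dif_neg h]
  have hfc : Continuous f := by
    rw [continuous_iff_continuousAt]
    intro x
    by_cases hx : x = 0
    · subst hx
      refine (continuousAt_const : ContinuousAt (fun _ : EuclideanSpace ℝ (Fin d) => c.1) 0).congr ?_
      filter_upwards [ball_mem_nhds (0 : EuclideanSpace ℝ (Fin d))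
        (by norm_num : (0 : ℝ) < 1 / 2)] with y hy
      exact (hf0 y (by simpa using hy)).symm
    · have hon : ContinuousOn f {y | y ≠ 0} := by
        rw [continuousOn_iff_continuous_domRestrict]
        have : ({y : EuclideanSpace ℝ (Fin d) | y ≠ 0}).domRestrict f =
            fun y : {y : EuclideanSpace ℝ (Fin d) | y ≠ 0} =>
            (max ‖y.1‖ 1) • ((F (t y.1, ⟨‖y.1‖⁻¹ • y.1, hn y.1 y.2⟩)).1) := by
          funext y
          exact dif_pos y.2
        rw [this]
        have hnc : Continuous fun y : {y : EuclideanSpace ℝ (Fin d) | y ≠ 0} =>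
            (⟨‖y.1‖⁻¹ • y.1, hn y.1 y.2⟩ : sphere (0 : EuclideanSpace ℝ (Fin d)) 1) := by
          refine Continuous.subtype_mk ?_ _
          exact (continuous_subtype_val.norm.inv₀ (fun y => norm_ne_zero_iff.2 y.2)).smul
            continuous_subtype_val
        exact ((continuous_subtype_val.norm).max continuous_const).smul
          (continuous_subtype_val.comp
            (F.continuous.comp ((htc.comp continuous_subtype_val).prodMk hnc)))
      exact (hon x hx).continuousAt (isOpen_ne.mem_nhds hx)
  obtain ⟨x, hx⟩ := Pool.Agent.Helper31.GZ.Brouwer.exists_zero d f hfc 1 one_pos (by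
    intro x hx
    have h : x ≠ 0 := by
      rintro rfl; norm_num at hx
    have h1 : t x = 0 := by
      simp only [ht]
      rw [projIcc_of_le_left _ (by linarith)]
      rfl
    simp only [hf, dif_pos h, h1]
    rw [hF0, max_eq_left hx, smul_smul, mul_inv_cancel₀ (by linarith), one_smul])
  by_cases h : x ≠ 0
  · simp only [hf, dif_pos h] at hx
    have h1 : ‖(F (t x, (⟨‖x‖⁻¹ • x, hn x h⟩ : sphere (0 : EuclideanSpace ℝ (Fin d)) 1))).1‖ = 1 :=
      mem_sphere_zero_iff_norm.1 (F (t x, ⟨‖x‖⁻¹ • x, hn x h⟩)).2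
    have h2 := congrArg norm hx
    rw [norm_smul, h1, norm_zero, mul_one, norm_eq_zero] at h2
    have := le_max_right ‖x‖ 1
    rw [h2] at this
    linarith
  · simp only [hf, dif_neg h] at hx
    have h1 : ‖c.1‖ = 1 := mem_sphere_zero_iff_norm.1 c.2
    rw [hx, norm_zero] at h1
    norm_num at h1

/-- The identity of the one-point compactification of a finite-dimensional real vector space
is not null-homotopic. -/
theorem onePoint_not_null {V : Type*} [AddCommGroup V] [Module ℝ V] [FiniteDimensional ℝ V]
    [TopologicalSpace V] [IsTopologicalAddGroup V] [ContinuousSMul ℝ V] [T2Space V]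
    (K : unitInterval × OnePoint V → OnePoint V) (hK : Continuous K)
    (h0 : ∀ x, K (0, x) = x) (c : OnePoint V) (h1 : ∀ x, K (1, x) = c) : False := by
  have e : OnePoint V ≃ₜ sphere (0 : EuclideanSpace ℝ (Fin (Module.finrank ℝ V + 1))) 1 :=
    onePointEquivSphereOfFinrankEq (by simp)
  refine sphere_not_null _ ⟨fun p => e (K (p.1, e.symm p.2)), ?_⟩ (e c) ?_ ?_
  · exact e.continuous.comp (hK.comp (continuous_fst.prodMk
      (e.symm.continuous.comp continuous_snd)))
  · intro x
    show e (K (0, e.symm x)) = x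
    rw [h0]
    simp
  · intro x
    show e (K (1, e.symm x)) = e c
    rw [h1]

end Pool.Agent.W641.OS
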