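import Pool.Agent.W641.OS.Xi
import Pool.Agent.W641.OS.NN

/-!
# `X → X ∧ Y'` is not a stable equivalence
-/

set_option autoImplicit false
set_option linter.unusedVariables false
set_option synthInstance.maxHeartbeats 400000

namespace Pool.Agent.W641.OS

open Topology OnePoint Matrix Set Filter

theorem A0_nonneg {x : ℝ} (hx : x ∈ A0) : 0 ≤ x := by
  rcases hx with h | ⟨i, h⟩
  · rw [h]
  · rw [← h]
    positivity

theorem A0_le_one {x : ℝ} (hx : x ∈ A0) : x ≤ 1 := by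
  rcases hx with h | ⟨i, h⟩
  · rw [h]
    exact zero_le_one
  · rw [← h]
    have h1 : (0 : ℝ) ≤ i := Nat.cast_nonneg i
    show 1 / ((i : ℝ) + 1) ≤ 1
    rw [div_le_one (by linarith)]
    linarith

theorem compact_E (n : ℕ) (C : Set (V2 n)) (hC : IsClosed C) (hCE : C ⊆ EX n)
    (h2 : ∀ w ∈ C, w.2.1 ⬝ᵥ w.2.1 ≤ 2) : IsCompact C := by
  have h1 : IsCompact ((Icc (0 : ℝ) 1) ×ˢ ({v : Fin n → ℝ | (v - 0) ⬝ᵥ (v - 0) ≤ 2} ×ˢ
      {v : Fin n → ℝ | (v - 0) ⬝ᵥ (v - 0) ≤ 1})) :=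
    isCompact_Icc.prod ((compact_ball_dot 0 2).prod (compact_ball_dot 0 1))
  refine h1.of_isClosed_subset hC ?_
  intro w hw
  obtain ⟨h3, h4, h5⟩ := hCE hw
  refine ⟨⟨A0_nonneg h3, A0_le_one h3⟩, ?_, ?_⟩
  · show (w.2.1 - 0) ⬝ᵥ (w.2.1 - 0) ≤ 2
    rw [sub_zero]
    exact h2 w hw
  · show (w.2.2 - 0) ⬝ᵥ (w.2.2 - 0) ≤ 1
    rw [sub_zero, h4]
    have := A0_nonneg h3
    have := A0_le_one h3
    nlinarith

theorem sI_anti {i k : ℕ} (h : i < k) : sI k < sI i := by
  unfold sI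
  have h1 : (i : ℝ) < k := by exact_mod_cast h
  have h2 : (0 : ℝ) ≤ i := Nat.cast_nonneg i
  exact one_div_lt_one_div_of_lt (by linarith) (by linarith)

theorem sI_lt_iff {i k : ℕ} : sI k < sI i ↔ i < k := by
  constructor
  · intro h
    by_contra h'
    rcases (not_lt.1 h').lt_or_eq with h1 | h1
    · exact lt_asymm h (sI_anti h1)
    · rw [h1] at h
      exact lt_irrefl _ h
  · exact sI_anti

theorem mid_notMem (i : ℕ) : (sI i + sI (i + 1)) / 2 ∉ A0 := by
  have h1 := sI_anti (Nat.lt_succ_self i)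
  have h0 := sI_pos (i + 1)
  rintro (h | ⟨l, h⟩)
  · linarith
  · have h' : sI l = (sI i + sI (i + 1)) / 2 := h
    have h2 : sI (i + 1) < sI l := by rw [h']; linarith
    have h3 : sI l < sI i := by rw [h']; linarith
    rw [sI_lt_iff] at h2 h3
    omega

theorem isolated (i : ℕ) : ∃ δ > 0, ∀ x ∈ A0, |x - sI i| < δ → x = sI i := by
  have h1 := sI_anti (Nat.lt_succ_self i)
  have h0 := sI_pos (i + 1)
  rcases i with _ | i
  · refine ⟨sI 0 - sI 1, by linarith, ?_⟩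
    rintro x (rfl | ⟨l, rfl⟩) h
    · rw [abs_lt] at h
      linarith [h.1]
    · have h' : |sI l - sI 0| < sI 0 - sI 1 := h
      show sI l = sI 0
      rw [abs_lt] at h'
      have h2 : sI 1 < sI l := by linarith [h'.1]
      rw [sI_lt_iff] at h2
      have : l = 0 := by omega
      rw [this]
  · have h2 := sI_anti (Nat.lt_succ_self i)
    refine ⟨min (sI (i + 1) - sI (i + 2)) (sI i - sI (i + 1)), lt_min (by linarith)
      (by linarith), ?_⟩
    rintro x (rfl | ⟨l, rfl⟩) h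
    · rw [lt_min_iff, abs_lt, abs_lt] at h
      have h3 := sI_pos (i + 2)
      linarith [h.1.1]
    · have h' : |sI l - sI (i + 1)| < min (sI (i + 1) - sI (i + 2)) (sI i - sI (i + 1)) := h
      show sI l = sI (i + 1)
      rw [lt_min_iff, abs_lt, abs_lt] at h'
      have h3 : sI (i + 2) < sI l := by linarith [h'.1.1]
      have h4 : sI l < sI i := by linarith [h'.2.2]
      rw [sI_lt_iff] at h3 h4
      have : l = i + 1 := by omega
      rw [this]

/-- A map from a sphere to `X_n` avoids, in the quotient, almost all of the pieces. -/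
theorem lift_avoid (j n : ℕ) (G : OnePoint (Fin j → ℝ) → OnePoint (EX n)) (hG : Continuous G)
    (h0 : G ∞ = ∞) : ∃ i, ∀ (v : Fin j → ℝ) (e : EX n), G v = e → e.1.1 = sI i →
      2 ≤ e.1.2.1 ⬝ᵥ e.1.2.1 := by
  by_contra h
  push Not at h
  choose v e hv he hz using h
  have hcz : Continuous fun w : V2 n => w.2.1 ⬝ᵥ w.2.1 :=
    dot_continuous (continuous_fst.comp continuous_snd) (continuous_fst.comp continuous_snd)
  set D : Set (EX n) := {e | e.1.2.1 ⬝ᵥ e.1.2.1 ≤ 2} with hD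
  have hDc : IsCompact D := by
    rw [Subtype.isCompact_iff]
    have h1 : Subtype.val '' D = EX n ∩ {w | w.2.1 ⬝ᵥ w.2.1 ≤ 2} := by
      ext w
      constructor
      · rintro ⟨e, he, rfl⟩
        exact ⟨e.2, he⟩
      · rintro ⟨hw, hw'⟩
        exact ⟨⟨w, hw⟩, hw', rfl⟩
    rw [h1]
    exact compact_E n _ ((isClosed_EX n).inter (isClosed_le hcz continuous_const))
      inter_subset_left fun w hw => hw.2
  have hDcl : IsClosed ((↑) '' D : Set (OnePoint (EX n))) :=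
    isClosed_image_coe.2 ⟨hDc.isClosed, hDc⟩
  have hC : IsClosed (G ⁻¹' ((↑) '' D)) := hDcl.preimage hG
  have hCinf : ∞ ∉ (G ⁻¹' ((↑) '' D)) := by
    rw [mem_preimage, h0]
    exact infty_notMem_image_coe
  have hC' := ((isClosed_iff_of_notMem hCinf).1 hC).2
  have hvC : ∀ i, v i ∈ ((↑) ⁻¹' (G ⁻¹' ((↑) '' D)) : Set (Fin j → ℝ)) := by
    intro i
    rw [mem_preimage, mem_preimage, hv]
    exact ⟨e i, (hz i).le, rfl⟩
  obtain ⟨a, ha, φ, hφ, hlim⟩ := hC'.tendsto_subseq hvC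
  obtain ⟨ea, hea, hea'⟩ := ha
  set O' : Set (Fin j → ℝ) := {x | G x ≠ ∞} with hO'
  have hO'o : IsOpen O' := by
    have h1 : IsClosed (G ⁻¹' {∞}) := isClosed_infty.preimage hG
    exact h1.isOpen_compl.preimage continuous_coe
  set S : OnePoint (EX n) → ℝ := fun x => x.elim 0 fun e => e.1.1 with hS
  have hScont : ∀ e : EX n, ContinuousAt S e := by
    intro e
    rw [continuousAt_coe]
    exact (continuous_fst.comp continuous_subtype_val).continuousAt
  have hTcont : ∀ x ∈ O', ContinuousAt (fun x : Fin j → ℝ => S (G x)) x := by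
    intro x hx
    obtain ⟨e, he⟩ := ne_infty_iff_exists.1 hx
    have h1 : ContinuousAt S (G x) := by
      rw [← he]
      exact hScont e
    exact ContinuousAt.comp (f := fun x : Fin j → ℝ => G x) (g := S) h1
      (hG.comp continuous_coe).continuousAt
  have haO : a ∈ O' := by
    show G a ≠ ∞
    rw [← hea']
    exact coe_ne_infty _
  have hTv : ∀ i, S (G (v i)) = sI i := by
    intro i
    rw [hv]
    exact he i
  have hTa : S (G a) = 0 := by
    have h1 : Tendsto (fun k => S (G (v (φ k)))) atTop (𝓝 (S (G a))) :=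
      (hTcont a haO).tendsto.comp hlim
    have h2 : Tendsto (fun k => S (G (v (φ k)))) atTop (𝓝 0) := by
      simp only [hTv]
      exact tendsto_one_div_add_atTop_nhds_zero_nat.comp hφ.tendsto_atTop
    exact tendsto_nhds_unique h1 h2
  obtain ⟨r, hr, hball⟩ := Metric.isOpen_iff.1 hO'o a haO
  have h1 : ∀ᶠ k in atTop, v (φ k) ∈ Metric.ball a r := hlim (Metric.ball_mem_nhds a hr)
  obtain ⟨k, hk⟩ := h1.exists
  have hpre : IsPreconnected ((fun x : Fin j → ℝ => S (G x)) '' Metric.ball a r) :=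
    (convex_ball a r).isPreconnected.image _ fun x hx =>
      (hTcont x (hball hx)).continuousWithinAt
  have h2 : Icc 0 (sI (φ k)) ⊆ (fun x : Fin j → ℝ => S (G x)) '' Metric.ball a r :=
    hpre.Icc_subset ⟨a, Metric.mem_ball_self hr, hTa⟩ ⟨v (φ k), hk, hTv _⟩
  have h3 : (sI (φ k) + sI (φ k + 1)) / 2 ∈ Icc 0 (sI (φ k)) := by
    have h4 := sI_pos (φ k)
    have h5 := sI_pos (φ k + 1)
    have h6 := sI_anti (Nat.lt_succ_self (φ k))
    constructor <;> linarith
  obtain ⟨x, hx, hx'⟩ := h2 h3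
  obtain ⟨ex, hex⟩ := ne_infty_iff_exists.1 (hball hx)
  refine mid_notMem (φ k) ?_
  rw [← hx']
  show S (G x) ∈ A0
  rw [← hex]
  exact ex.2.1

/-- The map to `ℝ^n` on the `i`-th piece. -/
noncomputable def FR (i : ℕ) {n : ℕ} (w : V2 n) (τ : ℝ) : Fin n → ℝ :=
  radF 1 (w.2.1 - (sI i)⁻¹ • w.2.2) + τ • ((sI i)⁻¹ • w.2.2)

theorem FR_facts (i : ℕ) {n : ℕ} {w : V2 n} (hw : w ∈ EX n) (hs : w.1 = sI i)
    (h2 : w.2.1 ⬝ᵥ w.2.1 < 2) (τ : ℝ) :
    (w.2.1 - (sI i)⁻¹ • w.2.2) ⬝ᵥ (w.2.1 - (sI i)⁻¹ • w.2.2) = w.2.1 ⬝ᵥ w.2.1 - 1 ∧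
      FR i w τ ⬝ᵥ FR i w τ = (w.2.1 ⬝ᵥ w.2.1 - 1) / (2 - w.2.1 ⬝ᵥ w.2.1) + τ ^ 2 := by
  obtain ⟨_, h3, h4⟩ := hw
  have hpos := sI_pos i
  rw [hs] at h3 h4
  set u : Fin n → ℝ := (sI i)⁻¹ • w.2.2 with hu
  have huu : u ⬝ᵥ u = 1 := by
    rw [hu, smul_dotProduct, dotProduct_smul, h3]
    simp only [smul_eq_mul]
    field_simp
  have huz : u ⬝ᵥ w.2.1 = 1 := by
    rw [hu, smul_dotProduct, h4, smul_eq_mul, inv_mul_cancel₀ hpos.ne']
  have hww : (w.2.1 - u) ⬝ᵥ (w.2.1 - u) = w.2.1 ⬝ᵥ w.2.1 - 1 := by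
    rw [sub_dotProduct, dotProduct_sub, dotProduct_sub, dotProduct_comm w.2.1 u, huz, huu]
    ring
  refine ⟨hww, ?_⟩
  have hwu : (w.2.1 - u) ⬝ᵥ u = 0 := by
    rw [sub_dotProduct, dotProduct_comm w.2.1 u, huz, huu, sub_self]
  have hru : radF 1 (w.2.1 - u) ⬝ᵥ u = 0 := by
    rw [radF, smul_dotProduct, hwu, smul_zero]
  have h5 : (1 : ℝ) * ((w.2.1 - u) ⬝ᵥ (w.2.1 - u)) < 1 := by
    rw [one_mul, hww]
    linarith
  show (radF 1 (w.2.1 - u) + τ • u) ⬝ᵥ (radF 1 (w.2.1 - u) + τ • u) = _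
  rw [add_dotProduct, dotProduct_add, dotProduct_add, radF_dot _ h5, hww, dotProduct_smul, hru,
    smul_dotProduct, dotProduct_comm u, hru, smul_dotProduct, dotProduct_smul, huu]
  simp only [smul_eq_mul]
  have h6 : (1 : ℝ) - 1 * (w.2.1 ⬝ᵥ w.2.1 - 1) = 2 - w.2.1 ⬝ᵥ w.2.1 := by ring
  rw [h6]
  ring

open Classical in
/-- The map on the one-point compactification. -/
noncomputable def RI (i n : ℕ) (x : OnePoint (EW n × ℝ)) : OnePoint (Fin n → ℝ) :=
  x.elim ∞ fun p => if p.1.1.1 = sI i then ((FR i p.1.1 p.2 : Fin n → ℝ) :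
    OnePoint (Fin n → ℝ)) else ∞

theorem EW_lt_two {n : ℕ} {w : V2 n} (hw : w ∈ EW n) : w.2.1 ⬝ᵥ w.2.1 < 2 := by
  rcases hw.2 with h | h
  · linarith
  · exact h.2

theorem RI_continuous (i n : ℕ) : Continuous (RI i n) := by
  classical
  have hcz : Continuous fun w : V2 n => w.2.1 ⬝ᵥ w.2.1 :=
    dot_continuous (continuous_fst.comp continuous_snd) (continuous_fst.comp continuous_snd)
  have hp1 : Continuous fun p : EW n × ℝ => p.1.1 := continuous_subtype_val.comp continuous_fst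
  have hz : Continuous fun p : EW n × ℝ => (p.1.1.2.1 : Fin n → ℝ) :=
    continuous_fst.comp (continuous_snd.comp hp1)
  have hy : Continuous fun p : EW n × ℝ => (p.1.1.2.2 : Fin n → ℝ) :=
    continuous_snd.comp (continuous_snd.comp hp1)
  have hu : Continuous fun p : EW n × ℝ => ((sI i)⁻¹ • p.1.1.2.2 : Fin n → ℝ) :=
    (continuous_const : Continuous fun _ : EW n × ℝ => (sI i)⁻¹).smul hy
  have hw : Continuous fun p : EW n × ℝ => p.1.1.2.1 - (sI i)⁻¹ • p.1.1.2.2 := hz.sub hu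
  have hF : ContinuousOn (fun p : EW n × ℝ => FR i p.1.1 p.2) {p | p.1.1.1 = sI i} := by
    have h1 := radF_contOn (a := fun _ : EW n × ℝ => (1 : ℝ)) continuous_const hw
    have h2 : {p : EW n × ℝ | p.1.1.1 = sI i} ⊆ {p : EW n × ℝ | (1 : ℝ) *
        ((p.1.1.2.1 - (sI i)⁻¹ • p.1.1.2.2) ⬝ᵥ (p.1.1.2.1 - (sI i)⁻¹ • p.1.1.2.2)) < 1} := by
      intro p hp
      have h3 := EW_lt_two p.1.2
      have h4 := (FR_facts i p.1.2.1 hp h3 p.2).1
      show (1 : ℝ) * _ < 1
      rw [one_mul, h4]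
      linarith
    have h3 := h1.mono h2
    have h5 : Continuous fun p : EW n × ℝ => (p.2 • ((sI i)⁻¹ • p.1.1.2.2) : Fin n → ℝ) :=
      continuous_snd.smul hu
    exact h3.add h5.continuousOn
  refine partial_cont {p : EW n × ℝ | p.1.1.1 = sI i} ?_ (fun p => FR i p.1.1 p.2) hF ?_ _ rfl
    (fun x hx => if_pos hx) (fun x hx => if_neg hx)
  · obtain ⟨δ, hδ, h1⟩ := isolated i
    have h2 : {p : EW n × ℝ | p.1.1.1 = sI i} = {p | |p.1.1.1 - sI i| < δ} := by
      ext p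
      constructor
      · intro hp
        have hp' : p.1.1.1 = sI i := hp
        show |p.1.1.1 - sI i| < δ
        rw [hp', sub_self, abs_zero]
        exact hδ
      · intro hp
        exact h1 _ p.1.2.1.1 hp
    rw [h2]
    exact isOpen_lt ((continuous_fst.comp hp1).sub continuous_const).abs continuous_const
  · intro K hKc hK
    have hdot : Continuous fun x : Fin n → ℝ => x ⬝ᵥ x :=
      dot_continuous continuous_id continuous_id
    obtain ⟨R0, hR0⟩ := (hK.image hdot).bddAbove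
    set R := max R0 0 with hR
    have hRn : 0 ≤ R := le_max_right _ _
    have hRK : ∀ x ∈ K, x ⬝ᵥ x ≤ R := fun x hx =>
      (hR0 (mem_image_of_mem (fun x : Fin n → ℝ => x ⬝ᵥ x) hx)).trans (le_max_left _ _)
    set ρ := 1 + R / (1 + R) with hρ
    have hρ2 : ρ < 2 := by
      have : R / (1 + R) < 1 := by
        rw [div_lt_one (by linarith)]
        linarith
      linarith
    set C : Set (EW n) := {e | e.1.1 = sI i ∧ e.1.2.1 ⬝ᵥ e.1.2.1 ≤ ρ} with hC
    have hCc : IsCompact C := by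
      rw [Subtype.isCompact_iff]
      have h1 : Subtype.val '' C = EX n ∩ ({w : V2 n | w.1 = sI i} ∩
          {w | w.2.1 ⬝ᵥ w.2.1 ≤ ρ}) := by
        ext w
        constructor
        · rintro ⟨e, he, rfl⟩
          exact ⟨e.2.1, he.1, he.2⟩
        · rintro ⟨hw, hw', hw''⟩
          have h3 : w ∈ EW n := by
            refine ⟨hw, Or.inr ⟨?_, lt_of_le_of_lt hw'' hρ2⟩⟩
            have : w.1 = sI i := hw'
            rw [this]
            exact (sI_pos i).ne'
          exact ⟨⟨w, h3⟩, ⟨hw', hw''⟩, rfl⟩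
      rw [h1]
      refine compact_E n _ ((isClosed_EX n).inter ((isClosed_eq continuous_fst
        continuous_const).inter (isClosed_le hcz continuous_const))) inter_subset_left ?_
      intro w hw
      have : w.2.1 ⬝ᵥ w.2.1 ≤ ρ := hw.2.2
      linarith
    have hM : IsCompact (C ×ˢ Icc (-(R + 1)) (R + 1)) := hCc.prod isCompact_Icc
    have hMU : C ×ˢ Icc (-(R + 1)) (R + 1) ⊆ {p : EW n × ℝ | p.1.1.1 = sI i} :=
      fun p hp => hp.1.1
    have h4 : IsClosed ((C ×ˢ Icc (-(R + 1)) (R + 1)) ∩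
        (fun p : EW n × ℝ => FR i p.1.1 p.2) ⁻¹' K) :=
      (hF.mono hMU).preimage_isClosed_of_isClosed hM.isClosed hKc
    have h5 : {x : EW n × ℝ | x ∈ {p : EW n × ℝ | p.1.1.1 = sI i} ∧ FR i x.1.1 x.2 ∈ K} =
        (C ×ˢ Icc (-(R + 1)) (R + 1)) ∩ (fun p : EW n × ℝ => FR i p.1.1 p.2) ⁻¹' K := by
      ext ⟨e, τ⟩
      constructor
      · rintro ⟨he, heK⟩
        have he' : e.1.1 = sI i := he
        have heK' : FR i e.1 τ ∈ K := heK
        have h6 := hRK _ heK'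
        have h7 := EW_lt_two e.2
        rw [(FR_facts i e.2.1 he' h7 τ).2] at h6
        have h8 : 1 ≤ e.1.2.1 ⬝ᵥ e.1.2.1 := by
          refine one_le_of_mem e.2.1 ?_
          rw [he']
          exact (sI_pos i).ne'
        have h9 : 0 < 2 - e.1.2.1 ⬝ᵥ e.1.2.1 := by linarith
        have h10 : 0 ≤ (e.1.2.1 ⬝ᵥ e.1.2.1 - 1) / (2 - e.1.2.1 ⬝ᵥ e.1.2.1) :=
          div_nonneg (by linarith) h9.le
        refine ⟨⟨⟨he', ?_⟩, ?_⟩, heK'⟩
        · have h11 : (e.1.2.1 ⬝ᵥ e.1.2.1 - 1) / (2 - e.1.2.1 ⬝ᵥ e.1.2.1) ≤ R := by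
            nlinarith [sq_nonneg τ]
          rw [div_le_iff₀ h9] at h11
          show e.1.2.1 ⬝ᵥ e.1.2.1 ≤ ρ
          have h12 : ρ = (1 + 2 * R) / (1 + R) := by
            rw [hρ]
            field_simp
            ring
          rw [h12, le_div_iff₀ (by linarith)]
          linarith
        · have h11 : τ ^ 2 ≤ R := by linarith
          have h12 : |τ| ≤ R + 1 := by
            have h13 : |τ| ^ 2 ≤ R := by
              rw [sq_abs]
              exact h11
            nlinarith [abs_nonneg τ]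
          exact abs_le.1 h12
      · rintro ⟨⟨h6, h7⟩, h8⟩
        exact ⟨h6.1, h8⟩
    rw [h5]
    exact hM.of_isClosed_subset h4 inter_subset_left

end Pool.Agent.W641.OS
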