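import Pool.Agent.W641.OS.Defs

set_option autoImplicit false

namespace Pool.Agent.W641.OS

open Topology OnePoint Matrix

theorem from_smash_param {A B Z C T : Type*} [TopologicalSpace A] [TopologicalSpace B]
    [TopologicalSpace Z] [TopologicalSpace C] [TopologicalSpace T] [CompactSpace T] [T2Space T]
    (φ : C ≃ₜ A × B) [T2Space A] [T2Space B] [LocallyCompactSpace A] [LocallyCompactSpace B]
    (F : T → OnePoint A → OnePoint B → Z)
    (hF : Continuous fun p : T × OnePoint A × OnePoint B => F p.1 p.2.1 p.2.2)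
    (z : Z) (h1 : ∀ t b, F t ∞ b = z) (h2 : ∀ t a, F t a ∞ = z) :
    Continuous fun p : T × OnePoint C => p.2.elim z fun c => F p.1 (φ c).1 (φ c).2 := by
  have hF' : Continuous fun q : (OnePoint A × OnePoint B) × T => F q.2 q.1.1 q.1.2 :=
    hF.comp (continuous_snd.prodMk ((continuous_fst.comp continuous_fst).prodMk
      (continuous_snd.comp continuous_fst)))
  let G : C((OnePoint A × OnePoint B) × T, Z) := ⟨_, hF'⟩
  have hG : Continuous G.curry := G.curry.continuous
  have h3 := from_smash φ (fun a b => G.curry (a, b)) hG (ContinuousMap.const T z)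
    (fun b => by ext t; exact h1 t b) (fun a => by ext t; exact h2 t a)
  have h4 : Continuous fun p : T × OnePoint C =>
      (p.2.elim (ContinuousMap.const T z) fun c => G.curry ((φ c).1, (φ c).2)) p.1 := by
    have h5 : Continuous fun q : C(T, Z) × T => q.1 q.2 := continuous_eval
    exact h5.comp ((h3.comp continuous_snd).prodMk continuous_fst)
  refine h4.congr fun p => ?_
  obtain ⟨t, w⟩ := p
  induction w using OnePoint.rec <;> rfl

namespace Rep

variable {X Y : OrthSpectrum} {k : ℤ}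

/-- Homotopic representatives. -/
inductive Htpy : Rep X k → Rep X k → Prop
  | mk (j n : ℕ) (h : (j : ℤ) = k + n) (g g' : C(OnePoint (Fin j → ℝ), X.sp n))
      (hg : g ∞ = X.pt n) (hg' : g' ∞ = X.pt n) (hgg : g.HomotopicRel g' {∞}) :
      Htpy ⟨j, n, h, g, hg⟩ ⟨j, n, h, g', hg'⟩

theorem Htpy.refl (r : Rep X k) : Htpy r r := Htpy.mk _ _ _ _ _ _ _ (.refl _)

theorem Htpy.symm {r r' : Rep X k} (h : Htpy r r') : Htpy r' r := by
  cases h with
  | mk j n h g g' hg hg' hgg => exact Htpy.mk _ _ _ _ _ _ _ hgg.symm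

theorem Htpy.trans {r r' r'' : Rep X k} (h : Htpy r r') (h' : Htpy r' r'') : Htpy r r'' := by
  cases h with
  | mk j n h g g' hg hg' hgg =>
    cases h' with
    | mk _ _ _ _ g'' _ hg'' hgg' => exact Htpy.mk _ _ _ _ _ _ _ (hgg.trans hgg')

theorem Htpy.rel {r r' : Rep X k} (h : Htpy r r') : Rel r r' := by
  cases h with
  | mk j n h g g' hg hg' hgg => exact Rel.htpy _ _ _ _ _ _ _ hgg

theorem Htpy.susp {r r' : Rep X k} (h : Htpy r r') : Htpy r.susp r'.susp := by
  cases h with
  | mk j n h g g' hg hg' hgg =>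
    obtain ⟨H⟩ := hgg
    refine Htpy.mk _ _ _ _ _ _ _ ⟨?_⟩
    have hH : ∀ t, H (t, ∞) = X.pt n := fun t => by
      rw [H.eq_fst t (Set.mem_singleton _), hg]
    refine ⟨⟨⟨fun p => suspFun j n (fun w => H (p.1, w)) p.2, ?_⟩, ?_, ?_⟩, ?_⟩
    · exact from_smash_param (snocHomeo j) (fun t a b => X.σ n (H (t, a)) b)
        ((X.σ_cont n).comp ((H.continuous.comp (continuous_fst.prodMk
          (continuous_fst.comp continuous_snd))).prodMk (continuous_snd.comp continuous_snd)))
        (X.pt (n + 1)) (fun t b => by rw [hH, X.σ_pt]) (fun t a => X.σ_infty n _)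
    · intro w
      show suspFun j n (fun w => H (0, w)) w = suspFun j n g w
      congr 1
      funext w
      exact H.apply_zero w
    · intro w
      show suspFun j n (fun w => H (1, w)) w = suspFun j n g' w
      congr 1
      funext w
      exact H.apply_one w
    · intro t w hw
      rw [Set.mem_singleton_iff] at hw
      subst hw
      rfl

theorem Htpy.susp_iter {r r' : Rep X k} (h : Htpy r r') (a : ℕ) :
    Htpy (Rep.susp^[a] r) (Rep.susp^[a] r') := by
  induction a with
  | zero => exact h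
  | succ a ih =>
    rw [Function.iterate_succ_apply', Function.iterate_succ_apply']
    exact ih.susp

/-- Stably homotopic representatives. -/
def SHtpy (r r' : Rep X k) : Prop := ∃ a b : ℕ, Htpy (Rep.susp^[a] r) (Rep.susp^[b] r')

theorem sHtpy_equivalence : Equivalence (SHtpy (X := X) (k := k)) where
  refl r := ⟨0, 0, Htpy.refl _⟩
  symm := fun ⟨a, b, h⟩ => ⟨b, a, h.symm⟩
  trans := by
    rintro r r' r'' ⟨a, b, h⟩ ⟨c, d, h'⟩
    refine ⟨c + a, b + d, ?_⟩
    have h1 := h.susp_iter c
    have h2 := h'.susp_iter b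
    rw [← Function.iterate_add_apply, ← Function.iterate_add_apply] at h1 h2
    rw [add_comm b c] at h2
    exact h1.trans h2

theorem Rel.sHtpy {r r' : Rep X k} (h : Rel r r') : SHtpy r r' := by
  cases h with
  | htpy j n h g g' hg hg' hgg => exact ⟨0, 0, Htpy.mk _ _ _ _ _ _ _ hgg⟩
  | susp r => exact ⟨1, 0, Htpy.refl _⟩

theorem mk_eq_iff {r r' : Rep X k} :
    (Quot.mk _ r : StablePi X k) = Quot.mk _ r' ↔ SHtpy r r' := by
  constructor
  · intro h
    have h1 := Quot.eqvGen_exact h
    have h2 : ∀ r r', Relation.EqvGen (Rel (X := X) (k := k)) r r' → SHtpy r r' := by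
      intro r r' h
      induction h with
      | rel _ _ h => exact h.sHtpy
      | refl _ => exact sHtpy_equivalence.refl _
      | symm _ _ _ ih => exact sHtpy_equivalence.symm ih
      | trans _ _ _ _ _ ih1 ih2 => exact sHtpy_equivalence.trans ih1 ih2
    exact h2 _ _ h1
  · rintro ⟨a, b, h⟩
    have h1 : ∀ (r : Rep X k) (a : ℕ), (Quot.mk _ r : StablePi X k) =
        Quot.mk _ (Rep.susp^[a] r) := by
      intro r a
      induction a with
      | zero => rfl
      | succ a ih =>
        rw [Function.iterate_succ_apply', ih]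
        exact Quot.sound (Rel.susp _)
    rw [h1 r a, h1 r' b]
    exact Quot.sound h.rel

theorem map_susp_iter (f : Hom X Y) (r : Rep X k) (a : ℕ) :
    Rep.susp^[a] (r.map f) = (Rep.susp^[a] r).map f := by
  induction a with
  | zero => rfl
  | succ a ih => rw [Function.iterate_succ_apply', Function.iterate_succ_apply', ih, map_susp]

end Rep

theorem HomotopicRel.precomp_based {A B C : Type*} [TopologicalSpace A] [TopologicalSpace B]
    [TopologicalSpace C] {u v : C(B, C)} {b : B} (h : u.HomotopicRel v {b}) (g : C(A, B))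
    {a : A} (hg : g a = b) : (u.comp g).HomotopicRel (v.comp g) {a} := by
  obtain ⟨H⟩ := h
  refine ⟨⟨⟨⟨fun p => H (p.1, g p.2), ?_⟩, ?_, ?_⟩, ?_⟩⟩
  · exact H.continuous.comp (continuous_fst.prodMk (g.continuous.comp continuous_snd))
  · intro x
    exact H.apply_zero _
  · intro x
    exact H.apply_one _
  · intro t x hx
    rw [Set.mem_singleton_iff] at hx
    subst hx
    exact H.eq_fst t (by rw [hg]; rfl)

theorem IsLevelEquiv.isStableEquiv {X Y : OrthSpectrum} {f : Hom X Y} (hf : IsLevelEquiv f) :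
    IsStableEquiv f := by
  intro k
  constructor
  · rintro ⟨r⟩ ⟨r'⟩ h
    have h1 : (Quot.mk _ (r.map f) : StablePi Y k) = Quot.mk _ (r'.map f) := h
    rw [Rep.mk_eq_iff] at h1
    obtain ⟨a, b, h1⟩ := h1
    rw [Rep.map_susp_iter, Rep.map_susp_iter] at h1
    have h2 : ∀ s s' : Rep X k, Rep.Htpy (s.map f) (s'.map f) → Rep.Htpy s s' := by
      rintro ⟨j, n, h, g, hg⟩ ⟨j', n', h', g', hg'⟩ hh
      simp only [Rep.map] at hh
      cases hh with
      | mk _ _ _ _ _ _ _ hgg =>
        obtain ⟨e, he, he1, he2⟩ := hf n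
        refine Rep.Htpy.mk _ _ _ _ _ _ _ ?_
        have h3 := (HomotopicRel.precomp_based he1 g hg).symm
        have h4 := (HomotopicRel.precomp_based he1 g' hg')
        obtain ⟨H⟩ := hgg
        have h5 : ContinuousMap.HomotopicRel _ _ _ := ⟨H.compContinuousMap e⟩
        exact (h3.trans h5).trans h4
    have h3 := h2 _ _ h1
    have h4 : Rep.SHtpy r r' := ⟨a, b, h3⟩
    exact Rep.mk_eq_iff.2 h4
  · rintro ⟨r⟩
    obtain ⟨j, n, h, g, hg⟩ := r
    obtain ⟨e, he, he1, he2⟩ := hf n
    refine ⟨Quot.mk _ ⟨j, n, h, e.comp g, by simp [hg, he]⟩, ?_⟩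
    refine Quot.sound ?_
    refine Rep.Rel.htpy _ _ _ _ _ _ _ ?_
    exact HomotopicRel.precomp_based he2 g hg

/-- If `f` is a stable equivalence, every representative is, up to stabilisation, homotopic
to one which lifts. -/
theorem IsStableEquiv.exists_lift {X Y : OrthSpectrum} {f : Hom X Y} (hf : IsStableEquiv f)
    {k : ℤ} (ξ : Rep Y k) : ∃ (a : ℕ) (r : Rep X k), Rep.Htpy (r.map f) (Rep.susp^[a] ξ) := by
  obtain ⟨⟨r⟩, hr⟩ := (hf k).2 (Quot.mk _ ξ)
  have h1 : (Quot.mk _ (r.map f) : StablePi Y k) = Quot.mk _ ξ := hr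
  rw [Rep.mk_eq_iff] at h1
  obtain ⟨a, b, h1⟩ := h1
  rw [Rep.map_susp_iter] at h1
  exact ⟨b, _, h1⟩

end Pool.Agent.W641.OS
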