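import Pool.Agent.W641.OS.Ex

/-!
# Bimorphisms and universal bimorphisms
-/

set_option autoImplicit false
set_option linter.unusedVariables false
set_option synthInstance.maxHeartbeats 400000

namespace Pool.Agent.W641.OS

open Topology OnePoint Matrix Set

/-- The points of the ambient sequence `A2`. -/
abbrev V2 (n : ℕ) : Type := ℝ × (Fin n → ℝ) × (Fin n → ℝ)

/-- `((s, z, y), v) ↦ (s, (z, v), (y, 0))`. -/
def comb (p q : ℕ) (w : V2 p) (v : Fin q → ℝ) : V2 (p + q) :=
  (w.1, Fin.append w.2.1 v, Fin.append w.2.2 0)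

theorem comb_cont (p q : ℕ) : Continuous fun e : V2 p × (Fin q → ℝ) => comb p q e.1 e.2 := by
  refine (continuous_fst.comp continuous_fst).prodMk ((append_continuous ?_ ?_).prodMk
    (append_continuous ?_ ?_))
  · exact continuous_fst.comp (continuous_snd.comp continuous_fst)
  · exact continuous_snd
  · exact continuous_snd.comp (continuous_snd.comp continuous_fst)
  · exact continuous_const

theorem comb_proper (p q : ℕ) (K : Set (V2 (p + q))) (hK : IsCompact K) :
    IsCompact ((fun e : V2 p × (Fin q → ℝ) => comb p q e.1 e.2) ⁻¹' K) := by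
  have hC : IsClosed {w : V2 (p + q) | (fun i : Fin q => w.2.2 (Fin.natAdd p i)) = 0} :=
    isClosed_eq (by fun_prop) continuous_const
  have h1 := (hK.inter_right hC).image (f := fun w : V2 (p + q) =>
    (((w.1, (fun i => w.2.1 (Fin.castAdd q i)), (fun i => w.2.2 (Fin.castAdd q i))),
      (fun i => w.2.1 (Fin.natAdd p i))) : V2 p × (Fin q → ℝ))) (by fun_prop)
  convert h1 using 1
  ext ⟨⟨s, z, y⟩, v⟩
  constructor
  · intro h
    refine ⟨_, ⟨h, ?_⟩, ?_⟩
    · simp only [comb, mem_ofPred_eq, Fin.append_right]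
      try rfl
    · simp only [comb, Fin.append_left, Fin.append_right]
  · rintro ⟨⟨s', z', y'⟩, ⟨h1, h2⟩, h3⟩
    simp only [Prod.mk.injEq] at h3
    obtain ⟨⟨rfl, rfl, rfl⟩, rfl⟩ := h3
    have h4 : (fun i : Fin q => y' (Fin.natAdd p i)) = 0 := h2
    show comb p q _ _ ∈ K
    have h5 : (Fin.append (fun i => z' (Fin.castAdd q i)) (fun i => z' (Fin.natAdd p i)) :
        Fin (p + q) → ℝ) = z' := Fin.append_castAdd_natAdd
    have h6 : (Fin.append (fun i => y' (Fin.castAdd q i)) 0 : Fin (p + q) → ℝ) = y' := by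
      rw [← h4]
      exact Fin.append_castAdd_natAdd
    simp only [comb, h5, h6]
    exact h1

theorem comb_cont' (p q : ℕ) :
    Continuous fun e : A2.V p × A1.V q => (comb p q e.1 e.2 : A2.V (p + q)) := comb_cont p q

theorem comb_proper' (p q : ℕ) (K : Set (A2.V (p + q))) (hK : IsCompact K) :
    IsCompact ((fun e : A2.V p × A1.V q => (comb p q e.1 e.2 : A2.V (p + q))) ⁻¹' K) :=
  comb_proper p q K hK

theorem comb_act (p q : ℕ) (g : O p) (h : O q) (w : V2 p) (v : Fin q → ℝ) :
    comb p q (A2.act p g w) (h.1 *ᵥ v) = A2.act (p + q) (blockSum g h) (comb p q w v) := by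
  show ((w.1, Fin.append (g.1 *ᵥ w.2.1) (h.1 *ᵥ v), Fin.append (g.1 *ᵥ w.2.2) 0) : V2 (p + q)) =
    (w.1, (blockSum g h).1 *ᵥ (Fin.append w.2.1 v : Fin (p + q) → ℝ),
      (blockSum g h).1 *ᵥ (Fin.append w.2.2 0 : Fin (p + q) → ℝ))
  rw [blockSum_mulVec, blockSum_mulVec, Matrix.mulVec_zero]

theorem comb_right (p q : ℕ) (w : V2 p) (v : Fin q → ℝ) (t : ℝ) :
    comb p (q + 1) w (Fin.snoc v t) = ι2 (p + q) (comb p q w v) t := by
  rw [comb, ι2, Fin.append_snoc]
  simp only [comb]
  rw [append_snoc_zero]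

theorem comb_left (p q : ℕ) (w : V2 p) (v : Fin q → ℝ) (t : ℝ) :
    comb (p + 1) q (ι2 p w t) v = A2.act (p + 1 + q) (permO (shuffle p q))
      (((ι2 (p + q) (comb p q w v) t).1,
        fun i => (ι2 (p + q) (comb p q w v) t).2.1 (Fin.cast (by omega) i),
        fun i => (ι2 (p + q) (comb p q w v) t).2.2 (Fin.cast (by omega) i)) :
        V2 (p + 1 + q)) := by
  show comb (p + 1) q (ι2 p w t) v = ((_, (permO (shuffle p q)).1 *ᵥ _,
    (permO (shuffle p q)).1 *ᵥ _) : V2 (p + 1 + q))
  rw [permO_mulVec, permO_mulVec]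
  refine Prod.ext rfl (Prod.ext ?_ ?_)
  · funext k
    exact shuffle_append w.2.1 t v k
  · funext k
    exact shuffle_append w.2.2 0 0 k

theorem comb_zero (p : ℕ) (w : V2 p) (v : Fin 0 → ℝ) : (comb p 0 w v : V2 p) = w := by
  rw [comb, Fin.append_right_nil _ v rfl, Fin.append_right_nil _ 0 rfl]
  rfl

theorem tr_pnt (H : Fam A2) {m n : ℕ} (h : m = n) (w : V2 m) :
    H.spec.tr h (H.pnt m w) = H.pnt n ((w.1, fun i => w.2.1 (Fin.cast h.symm i),
      fun i => w.2.2 (Fin.cast h.symm i)) : V2 n) := by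
  subst h
  rfl

theorem tr_infty (H : Fam A2) {m n : ℕ} (h : m = n) :
    H.spec.tr h (∞ : OnePoint (H.E m)) = (∞ : OnePoint (H.E n)) := by
  subst h
  rfl

/-- Data for a bimorphism. -/
structure BData (F : Fam A2) (G : Fam A1) (H : Fam A2) : Prop where
  h1 : ∀ (p q : ℕ) (w : V2 p) (v : Fin q → ℝ), comb p q w v ∈ H.E (p + q) →
    w ∈ F.E p ∧ v ∈ G.E q
  h2 : ∀ p q : ℕ, IsOpen {e : F.E p × G.E q | comb p q e.1.1 e.2.1 ∈ H.E (p + q)}

variable {F : Fam A2} {G : Fam A1} {H : Fam A2}

instance instT2Fam {A : Amb} (F : Fam A) (n : ℕ) : T2Space (F.E n) := inferInstance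

instance instT2Fam2 (F : Fam A2) (G : Fam A1) (p q : ℕ) : T2Space (F.E p × G.E q) :=
  Prod.t2Space

/-- The components of the bimorphism. -/
noncomputable def bbF (F : Fam A2) (G : Fam A1) (H : Fam A2) (p q : ℕ)
    (x : OnePoint (F.E p)) (y : OnePoint (G.E q)) : OnePoint (H.E (p + q)) :=
  (sm x y).elim ∞ fun e => H.pnt (p + q) (comb p q e.1.1 e.2.1)

theorem bbF_pnt (D : BData F G H) (p q : ℕ) (w : A2.V p) (v : A1.V q) :
    bbF F G H p q (F.pnt p w) (G.pnt q v) = H.pnt (p + q) (comb p q w v) := by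
  by_cases hw : w ∈ F.E p
  · by_cases hv : v ∈ G.E q
    · rw [F.pnt_of_mem hw, G.pnt_of_mem hv]
      rfl
    · rw [G.pnt_of_notMem hv, H.pnt_of_notMem (fun h => hv (D.h1 p q w v h).2), bbF,
        sm_infty_right]
      rfl
  · rw [F.pnt_of_notMem hw, H.pnt_of_notMem (fun h => hw (D.h1 p q w v h).1)]
    rfl

theorem bbF_infty_left (p q : ℕ) (y : OnePoint (G.E q)) : bbF F G H p q ∞ y = ∞ := rfl

theorem bbF_infty_right (p q : ℕ) (x : OnePoint (F.E p)) : bbF F G H p q x ∞ = ∞ := by
  rw [bbF, sm_infty_right]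
  rfl

theorem bbF_cont (D : BData F G H) (p q : ℕ) :
    Continuous fun e : OnePoint (F.E p) × OnePoint (G.E q) => bbF F G H p q e.1 e.2 := by
  have h1 : Continuous fun w : OnePoint (F.E p × G.E q) =>
      (w.elim ∞ fun e => H.pnt (p + q) (comb p q e.1.1 e.2.1) : OnePoint (H.E (p + q))) := by
    refine pp_continuous (X := F.E p × G.E q) (Y := H.E (p + q)) (A := A2.V p × A1.V q)
      (B := A2.V (p + q)) (Prod.map Subtype.val Subtype.val) Subtype.val
      (fun e => comb p q e.1 e.2)
      (IsInducing.subtypeVal.prodMap IsInducing.subtypeVal) IsEmbedding.subtypeVal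
      (comb_cont' p q) (comb_proper' p q) ?_ ?_ _ rfl ?_ ?_
    · rintro ⟨w, v⟩ hx
      obtain ⟨⟨y, hy⟩, hy2⟩ := hx
      have h3 : comb p q w v ∈ H.E (p + q) := by
        have : comb p q w v = y := hy2.symm
        rw [this]
        exact hy
      obtain ⟨h4, h5⟩ := D.h1 p q w v h3
      exact ⟨(⟨w, h4⟩, ⟨v, h5⟩), rfl⟩
    · refine Eq.mp (congrArg IsOpen (Set.ext fun e => ?_)) (D.h2 p q)
      symm
      constructor
      · rintro ⟨⟨y, hy⟩, hy2⟩
        have h4 : comb p q e.1.1 e.2.1 = y := hy2.symm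
        show comb p q e.1.1 e.2.1 ∈ H.E (p + q)
        rw [h4]
        exact hy
      · intro h
        exact ⟨⟨_, h⟩, rfl⟩
    · intro e y h
      show H.pnt (p + q) (comb p q e.1.1 e.2.1) = y
      have h' : comb p q e.1.1 e.2.1 = y.1 := h
      rw [h']
      exact H.pnt_coe y
    · intro e h
      exact H.pnt_of_notMem fun h' => h ⟨⟨_, h'⟩, rfl⟩
  exact h1.comp sm_continuous

/-- The bimorphism. -/
noncomputable def bb (D : BData F G H) : Bimorphism F.spec G.spec H.spec where
  b := bbF F G H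
  cont p q K _ _ _ u w hu hw := (bbF_cont D p q).comp (hu.prodMk hw)
  pt_left p q y := rfl
  pt_right p q x := bbF_infty_right p q x
  equi p q g h x y := by
    revert x
    refine F.rec_pnt rfl fun w => ?_
    revert y
    refine G.rec_pnt ?_ fun v => ?_
    · exact (bbF_infty_right p q _).trans
        (congrArg (H.actF (p + q) (blockSum g h)) (bbF_infty_right p q _)).symm
    · have e1 : bbF F G H p q (F.actF p g (F.pnt p w)) (G.actF q h (G.pnt q v)) =
          H.pnt (p + q) (comb p q (A2.act p g w) (A1.act q h v)) := by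
        rw [F.actF_pnt, G.actF_pnt, bbF_pnt D]
      have e2 : H.actF (p + q) (blockSum g h) (bbF F G H p q (F.pnt p w) (G.pnt q v)) =
          H.pnt (p + q) (A2.act (p + q) (blockSum g h) (comb p q w v)) :=
        (congrArg (H.actF (p + q) (blockSum g h)) (bbF_pnt D p q w v)).trans
          (H.actF_pnt _ _ _)
      exact e1.trans ((congrArg _ (comb_act p q g h w v)).trans e2.symm)
  right p q x y t := by
    revert x
    refine F.rec_pnt rfl fun w => ?_
    revert y
    refine G.rec_pnt ?_ fun v => ?_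
    · exact (bbF_infty_right p (q + 1) _).trans
        (congrArg (fun a => H.σF (p + q) a t) (bbF_infty_right p q (F.pnt p w))).symm
    · induction t using OnePoint.rec with
      | infty =>
        exact (congrArg (bbF F G H p (q + 1) (F.pnt p w)) (G.σF_infty_right q _)).trans
          ((bbF_infty_right p (q + 1) _).trans (H.σF_infty_right (p + q) _).symm)
      | coe t =>
        have e1 : bbF F G H p (q + 1) (F.pnt p w) (G.σF q (G.pnt q v) t) =
            H.pnt (p + (q + 1)) (comb p (q + 1) w (A1.ι q v t)) := by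
          rw [G.σF_pnt, bbF_pnt D]
        have e2 : H.σF (p + q) (bbF F G H p q (F.pnt p w) (G.pnt q v)) t =
            H.pnt (p + q + 1) (A2.ι (p + q) (comb p q w v) t) :=
          (congrArg (fun a => H.σF (p + q) a t) (bbF_pnt D p q w v)).trans (H.σF_pnt _ _ _)
        exact e1.trans ((congrArg _ (comb_right p q w v t)).trans e2.symm)
  left p q x y t := by
    revert x
    refine F.rec_pnt ?_ fun w => ?_
    · exact (congrArg (H.actF (p + 1 + q) (permO (shuffle p q)))
        (tr_infty H (by omega : p + q + 1 = p + 1 + q))).symm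
    revert y
    refine G.rec_pnt ?_ fun v => ?_
    · have e1 : H.σF (p + q) (bbF F G H p q (F.pnt p w) ∞) t = ∞ := by
        rw [bbF_infty_right, H.σF_infty_left]
      refine (bbF_infty_right (p + 1) q _).trans ?_
      have e2 : H.spec.tr (by omega : p + q + 1 = p + 1 + q)
          (H.σF (p + q) (bbF F G H p q (F.pnt p w) ∞) t) = (∞ : OnePoint (H.E (p + 1 + q))) := by
        rw [e1]
        exact tr_infty H _
      exact (congrArg (H.actF (p + 1 + q) (permO (shuffle p q))) e2).symm
    · induction t using OnePoint.rec with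
      | infty =>
        have e1 : F.σF p (F.pnt p w) ∞ = ∞ := F.σF_infty_right p _
        have e3 : H.σF (p + q) (bbF F G H p q (F.pnt p w) (G.pnt q v)) ∞ = ∞ :=
          H.σF_infty_right _ _
        have e2 : H.spec.tr (by omega : p + q + 1 = p + 1 + q)
            (H.σF (p + q) (bbF F G H p q (F.pnt p w) (G.pnt q v)) ∞) =
            (∞ : OnePoint (H.E (p + 1 + q))) := by
          rw [e3]
          exact tr_infty H _
        exact (congrArg (fun a => bbF F G H (p + 1) q a (G.pnt q v)) e1).trans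
          (congrArg (H.actF (p + 1 + q) (permO (shuffle p q))) e2).symm
      | coe t =>
        have e1 : bbF F G H (p + 1) q (F.σF p (F.pnt p w) t) (G.pnt q v) =
            H.pnt (p + 1 + q) (comb (p + 1) q (A2.ι p w t) v) := by
          rw [F.σF_pnt, bbF_pnt D]
        have e3 : H.σF (p + q) (bbF F G H p q (F.pnt p w) (G.pnt q v)) t =
            H.pnt (p + q + 1) (A2.ι (p + q) (comb p q w v) t) :=
          (congrArg (fun a => H.σF (p + q) a t) (bbF_pnt D p q w v)).trans (H.σF_pnt _ _ _)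
        have e2 := (congrArg (H.spec.tr (by omega : p + q + 1 = p + 1 + q)) e3).trans
          (tr_pnt H (by omega : p + q + 1 = p + 1 + q) (ι2 (p + q) (comb p q w v) t))
        refine e1.trans (Eq.trans ?_ (congrArg (H.actF (p + 1 + q)
          (permO (shuffle p q))) e2).symm)
        exact (congrArg _ (comb_left p q w v t)).trans (H.actF_pnt _ _ _).symm

end Pool.Agent.W641.OS
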