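import Pool.Agent.W641.OS.Univ

/-!
# The two universal bimorphisms
-/

set_option autoImplicit false
set_option linter.unusedVariables false
set_option synthInstance.maxHeartbeats 400000

namespace Pool.Agent.W641.OS

open Topology OnePoint Matrix Set

theorem dot_self_pos {n : ℕ} {w : Fin n → ℝ} (hw : w ≠ 0) : 0 < w ⬝ᵥ w := by
  have h1 : 0 ≤ w ⬝ᵥ w := by
    simp only [dotProduct]
    exact Finset.sum_nonneg fun i _ => mul_self_nonneg _
  refine lt_of_le_of_ne h1 fun h => hw ?_
  exact dotProduct_self_eq_zero.1 h.symm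

/-- The orthogonal group acts transitively on the unit sphere (Householder reflections). -/
theorem exists_O {n : ℕ} (a u : Fin n → ℝ) (ha : a ⬝ᵥ a = 1) (hu : u ⬝ᵥ u = 1) :
    ∃ g : O n, g.1 *ᵥ a = u := by
  by_cases h : a = u
  · exact ⟨1, by rw [h]; exact Matrix.one_mulVec u⟩
  · set w := a - u with hw
    have hw0 : w ≠ 0 := sub_ne_zero.2 h
    have hpos := dot_self_pos hw0
    have hww : w ⬝ᵥ w = 2 - 2 * (a ⬝ᵥ u) := by
      rw [hw, sub_dotProduct, dotProduct_sub, dotProduct_sub, ha, hu, dotProduct_comm u a]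
      ring
    have hwa : w ⬝ᵥ a = 1 - a ⬝ᵥ u := by
      rw [hw, sub_dotProduct, ha, dotProduct_comm u a]
    set c := 2 / (w ⬝ᵥ w) with hc
    have hcw : c * (w ⬝ᵥ w) = 2 := by
      rw [hc]
      field_simp
    set M : Matrix (Fin n) (Fin n) ℝ := 1 - c • Matrix.vecMulVec w w with hM
    have hMT : Mᵀ = M := by
      rw [hM, Matrix.transpose_sub, Matrix.transpose_one, Matrix.transpose_smul,
        Matrix.transpose_vecMulVec]
    have hMM : M * Mᵀ = 1 := by
      rw [hMT, hM]
      have h2 : Matrix.vecMulVec w w * Matrix.vecMulVec w w = (w ⬝ᵥ w) • Matrix.vecMulVec w w := by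
        rw [Matrix.vecMulVec_mul_vecMulVec]
        ext i j
        simp only [Matrix.vecMulVec_apply, Matrix.smul_apply, Pi.smul_apply, smul_eq_mul]
        ring
      rw [sub_mul, mul_sub, mul_sub, one_mul, one_mul, mul_one, smul_mul_smul_comm, h2, smul_smul]
      have h3 : c * c * (w ⬝ᵥ w) = c + c := by
        rw [mul_assoc, hcw]
        ring
      rw [h3, add_smul]
      abel
    refine ⟨⟨M, (Matrix.mem_orthogonalGroup_iff (Fin n) ℝ).2 hMM⟩, ?_⟩
    show M *ᵥ a = u
    rw [hM, Matrix.sub_mulVec, Matrix.one_mulVec, Matrix.smul_mulVec, Matrix.vecMulVec_mulVec,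
      hwa]
    have h4 : c * (1 - a ⬝ᵥ u) = 1 := by
      have h5 : c * (2 - 2 * (a ⬝ᵥ u)) = 2 := by rw [← hww, hcw]
      linarith
    have h6 : c • (MulOpposite.op (1 - a ⬝ᵥ u) • w) = w := by
      funext i
      simp only [Pi.smul_apply, smul_eq_mul, MulOpposite.smul_eq_mul_unop, MulOpposite.unop_op]
      calc c * (w i * (1 - a ⬝ᵥ u)) = (c * (1 - a ⬝ᵥ u)) * w i := by ring
        _ = w i := by rw [h4, one_mul]
    rw [h6, hw]
    abel

theorem comb_mem_EX {p q : ℕ} (w : V2 p) (v : Fin q → ℝ) :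
    comb p q w v ∈ EX (p + q) ↔ w ∈ EX p := by
  simp only [EX, comb, mem_ofPred_eq, dot_append, dotProduct_zero, add_zero, zero_dotProduct]

theorem udS : UData famX famS famX where
  h1 p q w v h := ⟨(comb_mem_EX w v).1 h, mem_univ _⟩
  h2 p q := by
    convert isOpen_univ
    exact eq_univ_of_forall fun e => (comb_mem_EX _ _).2 e.1.2
  hs n := subset_rfl
  ho n := by
    convert isOpen_univ
    exact eq_univ_of_forall fun e => e.2
  key n e h1 h2 := absurd h1 h2

theorem famW_h2 (p q : ℕ) : IsOpen {e : EX p × EB q | comb p q e.1.1 e.2.1 ∈ EW (p + q)} := by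
  have h1 : IsOpen {e : EX p × EB q | comb p q e.1.1 e.2.1 ∈ UW (p + q)} := by
    refine (isOpen_UW (p + q)).preimage ?_
    exact (comb_cont p q).comp ((continuous_subtype_val.comp continuous_fst).prodMk
      (continuous_subtype_val.comp continuous_snd))
  convert h1 using 1
  ext e
  exact ⟨fun h => h.2, fun h => ⟨(comb_mem_EX _ _).2 e.1.2, h⟩⟩

theorem famW_h1 (p q : ℕ) (w : V2 p) (v : Fin q → ℝ) (h : comb p q w v ∈ EW (p + q)) :
    w ∈ EX p ∧ v ∈ EB q := by
  have h1 : w ∈ EX p := (comb_mem_EX w v).1 h.1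
  refine ⟨h1, ?_⟩
  have h2 := h.2
  simp only [UW, comb, mem_ofPred_eq, dot_append] at h2
  show v ⬝ᵥ v < 1
  rcases h2 with h2 | ⟨h0, h2⟩
  · have h3 : 0 ≤ w.2.1 ⬝ᵥ w.2.1 := by
      simp only [dotProduct]
      exact Finset.sum_nonneg fun i _ => mul_self_nonneg _
    linarith
  · have h3 := one_le_of_mem h1 h0
    linarith

theorem famW_key (n : ℕ) (e : V2 n) (he : e ∈ EX n) (he' : e ∉ EW n) :
    ∃ (p q : ℕ) (h : p + q = n) (g : O n) (w : V2 p) (v : Fin q → ℝ), v ∉ EB q ∧
      e = A2.act n g (h ▸ comb p q w v) := by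
  have h1 : ¬ (e.2.1 ⬝ᵥ e.2.1 < 1 ∨ (e.1 ≠ 0 ∧ e.2.1 ⬝ᵥ e.2.1 < 2)) := fun h => he' ⟨he, h⟩
  push Not at h1
  obtain ⟨h1, h2⟩ := h1
  by_cases hs : e.1 = 0
  · obtain ⟨m, rfl⟩ : ∃ m, n = 0 + m := ⟨n, (zero_add n).symm⟩
    refine ⟨0, m, rfl, 1, (0, 0, 0), fun i => e.2.1 (Fin.natAdd 0 i), ?_, ?_⟩
    · show ¬ (_ < (1 : ℝ))
      have h3 : (Fin.append (fun i => e.2.1 (Fin.castAdd m i))
        (fun i => e.2.1 (Fin.natAdd 0 i)) : Fin (0 + m) → ℝ) = e.2.1 :=
        Fin.append_castAdd_natAdd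
      rw [← h3, dot_append] at h1
      simp only [dotProduct, Finset.univ_eq_empty, Finset.sum_empty, zero_add] at h1 ⊢
      exact not_lt.2 h1
    · have hcomb : e = comb 0 m (0, 0, 0) fun i => e.2.1 (Fin.natAdd 0 i) := by
        refine Prod.ext hs (Prod.ext ?_ ?_)
        · have h3 : (Fin.append (fun i => e.2.1 (Fin.castAdd m i))
            (fun i => e.2.1 (Fin.natAdd 0 i)) : Fin (0 + m) → ℝ) = e.2.1 :=
            Fin.append_castAdd_natAdd
          refine h3.symm.trans ?_
          simp only [comb]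
          exact congrArg (fun a : Fin 0 → ℝ => (Fin.append a _ : Fin (0 + m) → ℝ))
            (Subsingleton.elim _ _)
        · have h4 : e.2.2 ⬝ᵥ e.2.2 = 0 := by
            rw [he.2.1, hs]
            norm_num
          have h5 : e.2.2 = 0 := dotProduct_self_eq_zero.1 h4
          rw [h5]
          simp only [comb]
          funext k
          refine Fin.addCases (fun i => ?_) (fun i => ?_) k
          · exact i.elim0
          · rw [Fin.append_right]
            rfl
      exact hcomb.trans (A2.act_one _ _).symm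
  · have h2' := h2 hs
    obtain ⟨m, rfl⟩ : ∃ m, n = 1 + m := by
      rcases n with _ | n
      · exfalso
        have h4 : e.2.2 ⬝ᵥ e.2.2 = 0 := by simp [dotProduct]
        rw [he.2.1] at h4
        exact hs (by simpa using h4)
      · exact ⟨n, by omega⟩
    set a : Fin (1 + m) → ℝ := Fin.append (fun _ => 1) 0 with ha
    have haa : a ⬝ᵥ a = 1 := by
      rw [ha, dot_append]
      simp [dotProduct]
    set u : Fin (1 + m) → ℝ := e.1⁻¹ • e.2.2 with hu
    have huu : u ⬝ᵥ u = 1 := by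
      rw [hu, smul_dotProduct, dotProduct_smul, he.2.1]
      simp only [smul_eq_mul]
      field_simp
    obtain ⟨g, hg⟩ := exists_O a u haa huu
    set z : Fin (1 + m) → ℝ := (g⁻¹).1 *ᵥ e.2.1 with hz
    have hgz : g.1 *ᵥ z = e.2.1 := by
      rw [hz, Matrix.mulVec_mulVec]
      have : g.1 * (g⁻¹).1 = 1 := by
        have h5 : (g * g⁻¹ : O (1 + m)) = 1 := mul_inv_cancel g
        exact congrArg Subtype.val h5
      rw [this, Matrix.one_mulVec]
    have hz0 : z (Fin.castAdd m 0) = 1 := by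
      have h5 : a ⬝ᵥ z = u ⬝ᵥ e.2.1 := by
        rw [← hg, ← hgz, dot_mulVec]
      have h6 : u ⬝ᵥ e.2.1 = 1 := by
        rw [hu, smul_dotProduct, he.2.2, smul_eq_mul, inv_mul_cancel₀ hs]
      rw [h6] at h5
      rw [← h5, ha, dotProduct, Fin.sum_univ_add]
      simp
    have hzz : z ⬝ᵥ z = e.2.1 ⬝ᵥ e.2.1 := by
      have h8 := dot_mulVec g z z
      rw [hgz] at h8
      exact h8.symm
    set v : Fin m → ℝ := fun i => z (Fin.natAdd 1 i) with hv
    have hzv : z = Fin.append (fun _ => 1) v := by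
      funext k
      refine Fin.addCases (fun i => ?_) (fun i => ?_) k
      · rw [Fin.append_left]
        have : i = 0 := Subsingleton.elim _ _
        rw [this, hz0]
      · rw [Fin.append_right]
    refine ⟨1, m, rfl, g, (e.1, fun _ => 1, fun _ => e.1), v, ?_, ?_⟩
    · show ¬ (v ⬝ᵥ v < 1)
      rw [hzv, dot_append] at hzz
      simp only [dotProduct, Finset.univ_unique, Finset.sum_const, Finset.card_singleton,
        one_smul, mul_one] at hzz h2' ⊢
      linarith
    · refine Prod.ext rfl (Prod.ext ?_ ?_)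
      · show e.2.1 = g.1 *ᵥ Fin.append (fun _ => 1) v
        rw [← hzv, hgz]
      · show e.2.2 = g.1 *ᵥ (Fin.append (fun _ => e.1) 0 : Fin (1 + m) → ℝ)
        have h7 : (Fin.append (fun _ => e.1) 0 : Fin (1 + m) → ℝ) = e.1 • a := by
          funext k
          refine Fin.addCases (fun i => ?_) (fun i => ?_) k
          · simp [ha]
          · simp [ha]
        rw [h7, Matrix.mulVec_smul, hg, hu, smul_smul, mul_inv_cancel₀ hs, one_smul]

theorem udW : UData famX famB famW where
  h1 := famW_h1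
  h2 := famW_h2
  hs n _ h := h.1
  ho := isOpen_EW
  key := famW_key

end Pool.Agent.W641.OS
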