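import Pool.Agent.W641.OS.Smash

/-!
# The universal property
-/

set_option autoImplicit false
set_option linter.unusedVariables false
set_option synthInstance.maxHeartbeats 400000

namespace Pool.Agent.W641.OS

open Topology OnePoint Matrix Set

theorem blockSum_one {n : ℕ} (g : O n) : (blockSum g (1 : O 0) : O (n + 0)) = g := by
  apply Subtype.ext
  ext i j
  have hi : i = Fin.castAdd 0 (i : Fin n) := rfl
  have hj : j = Fin.castAdd 0 (j : Fin n) := rfl
  rw [hi, hj]
  simp only [blockSum, Matrix.submatrix_apply, finSumFinEquiv_symm_apply_castAdd,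
    Matrix.fromBlocks_apply₁₁]
  rfl

theorem shuffle_zero (n : ℕ) : shuffle n 0 = Equiv.refl _ := by
  ext k
  have hk := k.2
  simp only [shuffle, Equiv.coe_fn_mk, Equiv.refl_apply]
  split_ifs with h1 h2
  · rfl
  · simp only [h2]
    omega
  · omega

theorem permO_refl (n : ℕ) : permO (Equiv.refl (Fin n)) = 1 := by
  apply Subtype.ext
  ext i j
  simp only [permO, Equiv.refl_apply, Matrix.of_apply, OneMemClass.coe_one, Matrix.one_apply,
    eq_comm]

theorem permO_shuffle_zero (n : ℕ) : permO (shuffle n 0) = 1 := by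
  rw [shuffle_zero, permO_refl]

/-- Data for a universal bimorphism. -/
structure UData (F : Fam A2) (G : Fam A1) (H : Fam A2) : Prop extends BData F G H where
  hs : ∀ n, H.E n ⊆ F.E n
  ho : ∀ n, IsOpen {e : F.E n | e.1 ∈ H.E n}
  key : ∀ (n : ℕ) (e : V2 n), e ∈ F.E n → e ∉ H.E n →
    ∃ (p q : ℕ) (h : p + q = n) (g : O n) (w : V2 p) (v : Fin q → ℝ), v ∉ G.E q ∧
      e = A2.act n g (h ▸ comb p q w v)

variable {F : Fam A2} {G : Fam A1} {H : Fam A2} {Z : OrthSpectrum}

/-- The point `1` of `Y_0`. -/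
noncomputable def one (G : Fam A1) : OnePoint (G.E 0) := G.pnt 0 (0 : Fin 0 → ℝ)

/-- The morphism `X → Z` underlying a bimorphism `(X, Y) → Z`. -/
noncomputable def phi (b : Bimorphism F.spec G.spec Z) : Hom F.spec Z where
  f n x := b.b n 0 x (one G)
  cont n := b.cont n 0 (OnePoint (F.E n)) (fun x => x) (fun _ => one G) continuous_id
    continuous_const
  pt n := b.pt_left n 0 (one G)
  act n g x := by
    have h1 := b.equi n 0 g 1 x (one G)
    have h2 : G.spec.act 0 1 (one G) = one G := G.spec.act_one 0 _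
    rw [h2] at h1
    rw [h1]
    have h3 : (blockSum g (1 : O 0) : O (n + 0)) = g := blockSum_one g
    exact congrArg (fun g' => Z.act n g' (b.b n 0 x (one G))) h3
  σ n x t := by
    have h1 := b.left n 0 x (one G) t
    refine h1.trans ?_
    have h2 : permO (shuffle n 0) = (1 : O (n + 1 + 0)) := permO_shuffle_zero n
    rw [h2, Z.act_one]
    rfl

theorem phi_f (b : Bimorphism F.spec G.spec Z) (n : ℕ) (x : OnePoint (F.E n)) :
    (phi b).f n x = b.b n 0 x (one G) := rfl

theorem b_pnt (b : Bimorphism F.spec G.spec Z) (p : ℕ) (w : V2 p) :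
    ∀ (q : ℕ) (v : Fin q → ℝ), b.b p q (F.pnt p w) (G.pnt q v) =
      (phi b).f (p + q) (F.pnt (p + q) (comb p q w v)) := by
  intro q
  induction q with
  | zero =>
    intro v
    have hv : v = 0 := Subsingleton.elim _ _
    subst hv
    have h1 : (comb p 0 w 0 : V2 p) = w := comb_zero p w 0
    have h2 : F.pnt (p + 0) (comb p 0 w 0) = F.pnt p w := congrArg (F.pnt p) h1
    rw [h2]
    rfl
  | succ q ih =>
    intro v
    obtain ⟨v', t, rfl⟩ : ∃ (v' : Fin q → ℝ) (t : ℝ), v = Fin.snoc v' t :=
      ⟨_, _, (Fin.snoc_init_self (α := fun _ => ℝ) v).symm⟩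
    have h1 : G.pnt (q + 1) (Fin.snoc v' t : Fin (q + 1) → ℝ) =
        G.spec.σ q (G.pnt q v') (t : OnePoint ℝ) := (G.σF_pnt q v' t).symm
    have h2 : F.pnt (p + (q + 1)) (comb p (q + 1) w (Fin.snoc v' t)) =
        F.spec.σ (p + q) (F.pnt (p + q) (comb p q w v')) (t : OnePoint ℝ) := by
      rw [comb_right]
      exact (F.σF_pnt (p + q) (comb p q w v') t).symm
    rw [h1, h2]
    refine (b.right p q (F.pnt p w) (G.pnt q v') t).trans ?_
    rw [ih v']
    exact ((phi b).σ (p + q) _ _).symm

theorem phi_key (U : UData F G H) (b : Bimorphism F.spec G.spec Z) (n : ℕ) (e : V2 n)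
    (he : e ∉ H.E n) : (phi b).f n (F.pnt n e) = Z.pt n := by
  by_cases heF : e ∈ F.E n
  · obtain ⟨p, q, rfl, g, w, v, hv, rfl⟩ := U.key n e heF he
    have h1 : F.pnt (p + q) (A2.act (p + q) g (comb p q w v)) =
        F.spec.act (p + q) g (F.pnt (p + q) (comb p q w v)) := (F.actF_pnt _ _ _).symm
    have h2 : (phi b).f (p + q) (F.pnt (p + q) (comb p q w v)) = Z.pt (p + q) := by
      rw [← b_pnt b p w q v, G.pnt_of_notMem hv]
      exact b.pt_right p q _
    exact (congrArg ((phi b).f (p + q)) h1).trans (((phi b).act (p + q) g _).trans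
      ((congrArg (Z.act (p + q) g) h2).trans (Z.act_pt _ _)))
  · rw [F.pnt_of_notMem heF]
    exact (phi b).pt n

/-- The induced map on the quotient. -/
noncomputable def psiF (F : Fam A2) (H : Fam A2) (φ : Hom F.spec Z) (n : ℕ)
    (y : OnePoint (H.E n)) : Z.sp n :=
  y.elim (Z.pt n) fun e => φ.f n (F.pnt n e.1)

theorem psiF_col (U : UData F G H) (b : Bimorphism F.spec G.spec Z) (n : ℕ)
    (x : OnePoint (F.E n)) : psiF F H (phi b) n (colF F H n x) = (phi b).f n x := by
  revert x
  refine F.rec_pnt ((phi b).pt n).symm fun w => ?_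
  rw [colF_pnt F H U.hs]
  by_cases hw : w ∈ H.E n
  · rw [H.pnt_of_mem hw]
    rfl
  · rw [H.pnt_of_notMem hw]
    exact (phi_key U b n w hw).symm

theorem colF_surjective (U : UData F G H) (n : ℕ) : Function.Surjective (colF F H n) := by
  refine H.rec_pnt ⟨∞, rfl⟩ fun w => ⟨F.pnt n w, colF_pnt F H U.hs n w⟩

theorem colF_isQuotientMap (U : UData F G H) (n : ℕ) : IsQuotientMap (colF F H n) :=
  (colF_continuous F H U.hs U.ho n).isClosedMap.isQuotientMap
    (colF_continuous F H U.hs U.ho n) (colF_surjective U n)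

/-- The factorisation. -/
noncomputable def psi (U : UData F G H) (b : Bimorphism F.spec G.spec Z) :
    Hom H.spec Z where
  f := psiF F H (phi b)
  cont n := by
    have h1 : Continuous (psiF F H (phi b) n ∘ colF F H n) :=
      ((phi b).cont n).congr fun x => (psiF_col U b n x).symm
    exact (colF_isQuotientMap U n).continuous_iff.2 h1
  pt n := rfl
  act n g y := by
    obtain ⟨x, rfl⟩ := colF_surjective U n y
    have h1 : H.spec.act n g (colF F H n x) = colF F H n (F.spec.act n g x) :=
      ((colHom F H U.hs U.ho).act n g x).symm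
    exact (congrArg (psiF F H (phi b) n) h1).trans ((psiF_col U b n _).trans
      (((phi b).act n g x).trans (congrArg (Z.act n g) (psiF_col U b n x).symm)))
  σ n y t := by
    obtain ⟨x, rfl⟩ := colF_surjective U n y
    have h1 : H.spec.σ n (colF F H n x) t = colF F H (n + 1) (F.spec.σ n x t) :=
      ((colHom F H U.hs U.ho).σ n x t).symm
    exact (congrArg (psiF F H (phi b) (n + 1)) h1).trans ((psiF_col U b (n + 1) _).trans
      (((phi b).σ n x t).trans (congrArg (fun a => Z.σ n a t) (psiF_col U b n x).symm)))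

theorem Hom.ext' {X Y : OrthSpectrum} {f g : Hom X Y} (h : ∀ n x, f.f n x = g.f n x) : f = g := by
  cases f
  cases g
  congr
  funext n x
  exact h n x

theorem isSmash_bb (U : UData F G H) : IsSmash (bb U.toBData) := by
  intro Z b
  refine ⟨psi U b, ?_, ?_⟩
  · intro p q x y
    revert x
    refine F.rec_pnt ?_ fun w => ?_
    · exact (b.pt_left p q y).symm
    revert y
    refine G.rec_pnt ?_ fun v => ?_
    · have h1 : (bb U.toBData).b p q (F.pnt p w) ∞ = H.spec.pt (p + q) :=
        (bb U.toBData).pt_right p q _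
      rw [h1]
      exact (b.pt_right p q _).symm
    · have h1 : (bb U.toBData).b p q (F.pnt p w) (G.pnt q v) =
        colF F H (p + q) (F.pnt (p + q) (comb p q w v)) :=
        (bbF_pnt U.toBData p q w v).trans (colF_pnt F H U.hs _ _).symm
      rw [h1]
      exact (psiF_col U b (p + q) _).trans (b_pnt b p w q v).symm
  · intro ψ hψ
    refine Hom.ext' fun n y => ?_
    obtain ⟨x, rfl⟩ := colF_surjective U n y
    have h1 : colF F H n x = (bb U.toBData).b n 0 x (one G) := by
      revert x
      refine F.rec_pnt rfl fun w => ?_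
      have h2 : bbF F G H n 0 (F.pnt n w) (G.pnt 0 (0 : Fin 0 → ℝ)) =
        H.pnt (n + 0) (comb n 0 w 0) := bbF_pnt U.toBData n 0 w (0 : Fin 0 → ℝ)
      have h3 : (comb n 0 w 0 : V2 n) = w := comb_zero n w 0
      have h4 : H.pnt (n + 0) (comb n 0 w 0) = H.pnt n w := congrArg (H.pnt n) h3
      exact (colF_pnt F H U.hs n w).trans (h2.trans h4).symm
    have h2 : ψ.f n (colF F H n x) = b.b n 0 x (one G) := by
      rw [h1]
      exact hψ n 0 x (one G)
    rw [h2]
    exact (psiF_col U b n x).symm

end Pool.Agent.W641.OS
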