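import Pool.Agent.W641.OS.Fam

/-!
# Vectors, block sums, permutations and dot products
-/

set_option autoImplicit false

namespace Pool.Agent.W641.OS

open Topology OnePoint Matrix Set

theorem append_continuous {n m : ℕ} {T : Type*} [TopologicalSpace T] {f : T → Fin n → ℝ}
    {g : T → Fin m → ℝ} (hf : Continuous f) (hg : Continuous g) :
    Continuous fun t => (Fin.append (f t) (g t) : Fin (n + m) → ℝ) := by
  refine continuous_pi fun k => ?_
  refine Fin.addCases (fun i => ?_) (fun i => ?_) k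
  · simp only [Fin.append_left]
    exact (continuous_apply i).comp hf
  · simp only [Fin.append_right]
    exact (continuous_apply i).comp hg

theorem snoc_continuous {n : ℕ} {T : Type*} [TopologicalSpace T] {f : T → Fin n → ℝ}
    {g : T → ℝ} (hf : Continuous f) (hg : Continuous g) :
    Continuous fun t => (Fin.snoc (f t) (g t) : Fin (n + 1) → ℝ) :=
  (snocHomeo n).symm.continuous.comp (hf.prodMk hg)

theorem blockSum_mulVec {n m : ℕ} (g : O n) (h : O m) (z : Fin n → ℝ) (v : Fin m → ℝ) :
    (blockSum g h).1 *ᵥ (Fin.append z v : Fin (n + m) → ℝ) =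
      Fin.append (g.1 *ᵥ z) (h.1 *ᵥ v) := by
  funext k
  refine Fin.addCases (fun i => ?_) (fun i => ?_) k
  · simp only [blockSum, Matrix.mulVec, dotProduct, Fin.sum_univ_add, Matrix.submatrix_apply,
      finSumFinEquiv_symm_apply_castAdd, finSumFinEquiv_symm_apply_natAdd,
      Matrix.fromBlocks_apply₁₁, Matrix.fromBlocks_apply₁₂, Fin.append_left, Fin.append_right,
      Matrix.zero_apply, zero_mul, Finset.sum_const_zero, add_zero]
  · simp only [blockSum, Matrix.mulVec, dotProduct, Fin.sum_univ_add, Matrix.submatrix_apply,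
      finSumFinEquiv_symm_apply_castAdd, finSumFinEquiv_symm_apply_natAdd,
      Matrix.fromBlocks_apply₂₁, Matrix.fromBlocks_apply₂₂, Fin.append_left, Fin.append_right,
      Matrix.zero_apply, zero_mul, Finset.sum_const_zero, zero_add]

theorem permO_mulVec {n : ℕ} (e : Equiv.Perm (Fin n)) (w : Fin n → ℝ) :
    (permO e).1 *ᵥ w = fun i => w (e.symm i) := by
  funext i
  simp only [permO, Matrix.mulVec, dotProduct, Matrix.of_apply, ite_mul, one_mul, zero_mul]
  rw [Finset.sum_eq_single (e.symm i)]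
  · simp
  · intro b _ hb
    have : e b ≠ i := fun h => hb (by rw [← h]; simp)
    simp [this]
  · simp

theorem dot_mulVec {n : ℕ} (g : O n) (v w : Fin n → ℝ) :
    (g.1 *ᵥ v) ⬝ᵥ (g.1 *ᵥ w) = v ⬝ᵥ w := by
  have hg : g.1ᵀ * g.1 = 1 := (Matrix.mem_orthogonalGroup_iff' (Fin n) ℝ).1 g.2
  rw [Matrix.dotProduct_mulVec, Matrix.vecMul_mulVec, hg, Matrix.vecMul_one]

theorem dot_append {n m : ℕ} (z z' : Fin n → ℝ) (v v' : Fin m → ℝ) :
    (Fin.append z v : Fin (n + m) → ℝ) ⬝ᵥ (Fin.append z' v' : Fin (n + m) → ℝ) =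
      z ⬝ᵥ z' + v ⬝ᵥ v' := by
  simp only [dotProduct, Fin.sum_univ_add, Fin.append_left, Fin.append_right]

theorem dot_snoc {n : ℕ} (z z' : Fin n → ℝ) (t t' : ℝ) :
    (Fin.snoc z t : Fin (n + 1) → ℝ) ⬝ᵥ (Fin.snoc z' t' : Fin (n + 1) → ℝ) =
      z ⬝ᵥ z' + t * t' := by
  simp only [dotProduct, Fin.sum_univ_castSucc, Fin.snoc_castSucc, Fin.snoc_last]

theorem dot_continuous {n : ℕ} {T : Type*} [TopologicalSpace T] {f g : T → Fin n → ℝ}
    (hf : Continuous f) (hg : Continuous g) : Continuous fun t => f t ⬝ᵥ g t := by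
  simp only [dotProduct]
  exact continuous_finsetSum _ fun i _ =>
    ((continuous_apply i).comp hf).mul ((continuous_apply i).comp hg)

theorem snoc_zero' {n : ℕ} : (Fin.snoc (0 : Fin n → ℝ) 0 : Fin (n + 1) → ℝ) = 0 := by
  funext k
  refine Fin.lastCases ?_ (fun i => ?_) k <;> simp

/-- The shuffle permutation acts as advertised. -/
theorem shuffle_append {p q : ℕ} (z : Fin p → ℝ) (t : ℝ) (v : Fin q → ℝ) (k : Fin (p + 1 + q)) :
    (Fin.append (Fin.snoc z t : Fin (p + 1) → ℝ) v : Fin (p + 1 + q) → ℝ) k =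
      (Fin.snoc (Fin.append z v : Fin (p + q) → ℝ) t : Fin (p + q + 1) → ℝ)
        (Fin.cast (by omega) ((shuffle p q).symm k)) := by
  refine Fin.addCases (fun i => ?_) (fun i => ?_) k
  · refine Fin.lastCases ?_ (fun i => ?_) i
    · rw [Fin.append_left, Fin.snoc_last]
      have : (Fin.cast (by omega) ((shuffle p q).symm (Fin.castAdd q (Fin.last p))) :
          Fin (p + q + 1)) = Fin.last (p + q) := by
        ext
        simp [shuffle]
      rw [this, Fin.snoc_last]
    · rw [Fin.append_left, Fin.snoc_castSucc]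
      have : (Fin.cast (by omega) ((shuffle p q).symm (Fin.castAdd q i.castSucc)) :
          Fin (p + q + 1)) = (Fin.castAdd q i).castSucc := by
        ext
        simp [shuffle]
      rw [this, Fin.snoc_castSucc, Fin.append_left]
  · rw [Fin.append_right]
    have : (Fin.cast (by omega) ((shuffle p q).symm (Fin.natAdd (p + 1) i)) :
        Fin (p + q + 1)) = (Fin.natAdd p i).castSucc := by
      have h1 : ¬ (p + 1 + i.1 < p) := by omega
      have h2 : ¬ (p + 1 + i.1 = p) := by omega
      ext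
      simp [shuffle, h1, h2]
    rw [this, Fin.snoc_castSucc, Fin.append_right]

end Pool.Agent.W641.OS
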