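import Pool.Agent.W641.OS.Fin

/-!
# The base points are nondegenerate
-/

set_option autoImplicit false
set_option linter.unusedVariables false
set_option synthInstance.maxHeartbeats 400000

namespace Pool.Agent.W641.OS

open Topology OnePoint Matrix Set Filter

theorem WellPointed.homeo {A B : Type} [TopologicalSpace A] [TopologicalSpace B] (h : A ≃ₜ B)
    {a : A} {b : B} (hab : h a = b) (hA : WellPointed A a) : WellPointed B b := by
  intro Z _ f γ hγ
  obtain ⟨H, h0, h1⟩ := hA Z (f.comp ⟨h, h.continuous⟩) γ (by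
    rw [hγ]
    show f b = f (h a)
    rw [hab])
  refine ⟨⟨fun p => H (p.1, h.symm p.2), H.continuous.comp (continuous_fst.prodMk
    (h.symm.continuous.comp continuous_snd))⟩, ?_, ?_⟩
  · intro x
    show H (0, h.symm x) = f x
    rw [h0]
    show f (h (h.symm x)) = f x
    rw [h.apply_symm_apply]
  · intro t
    show H (t, h.symm b) = γ t
    rw [← hab, h.symm_apply_apply, h1]

/-- The stretching factor. -/
noncomputable def kap (t N : ℝ) : ℝ := 1 - t * max 0 (N - 1)

theorem kap_cont {T : Type*} [TopologicalSpace T] {t N : T → ℝ} (ht : Continuous t)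
    (hN : Continuous N) : Continuous fun x => kap (t x) (N x) :=
  continuous_const.sub (ht.mul (continuous_const.max (hN.sub continuous_const)))

theorem kap_of_le {t N : ℝ} (h : N ≤ 1) : kap t N = 1 := by
  rw [kap, max_eq_left (by linarith), mul_zero, sub_zero]

theorem kap_le_one {t N : ℝ} (h : 0 ≤ t) : kap t N ≤ 1 := by
  have : 0 ≤ t * max 0 (N - 1) := mul_nonneg h (le_max_left _ _)
  unfold kap
  linarith

theorem kap_zero (N : ℝ) : kap 0 N = 1 := by
  simp [kap]

theorem wellPointed_onePoint {E : Type} [TopologicalSpace E] [T2Space E] (N : E → ℝ)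
    (hN : Continuous N) (hN0 : ∀ e, 0 ≤ N e) (hNc : ∀ R, IsCompact {e | N e ≤ R})
    (F : unitInterval × E → E)
    (hF : ContinuousOn F {p | 0 < kap p.1.1 (N p.2)}) (hF0 : ∀ e, F (0, e) = e)
    (hFN : ∀ p : unitInterval × E, 0 < kap p.1.1 (N p.2) →
      N (F p) = N p.2 / kap p.1.1 (N p.2)) :
    WellPointed (OnePoint E) ∞ := by
  classical
  have hkc : Continuous fun p : unitInterval × E => kap p.1.1 (N p.2) :=
    kap_cont (continuous_subtype_val.comp continuous_fst) (hN.comp continuous_snd)
  have hM0 : Continuous fun w : OnePoint (unitInterval × E) =>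
      (w.elim ∞ fun p => if p ∈ {p : unitInterval × E | 0 < kap p.1.1 (N p.2)} then
        ((F p : E) : OnePoint E) else ∞ : OnePoint E) := by
    refine partial_cont {p : unitInterval × E | 0 < kap p.1.1 (N p.2)}
      (isOpen_lt continuous_const hkc) F hF ?_ _ rfl (fun x hx => if_pos hx)
      (fun x hx => if_neg hx)
    intro K hKc hK
    obtain ⟨R0, hR0⟩ := (hK.image hN).bddAbove
    set R := max R0 1 with hR
    have hR1 : 1 ≤ R := le_max_right _ _
    have hRpos : 0 < R := by linarith
    have hRK : ∀ x ∈ K, N x ≤ R := fun x hx =>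
      (hR0 (mem_image_of_mem N hx)).trans (le_max_left _ _)
    set C : Set (unitInterval × E) := (univ ×ˢ {e | N e ≤ R}) ∩
      {p | R⁻¹ ≤ kap p.1.1 (N p.2)} with hC
    have hCc : IsCompact C :=
      (isCompact_univ.prod (hNc R)).inter_right (isClosed_le continuous_const hkc)
    have hCU : C ⊆ {p : unitInterval × E | 0 < kap p.1.1 (N p.2)} := by
      intro p hp
      have h1 : R⁻¹ ≤ kap p.1.1 (N p.2) := hp.2
      have h2 : 0 < R⁻¹ := inv_pos.2 hRpos
      exact lt_of_lt_of_le h2 h1
    have h4 : IsClosed (C ∩ F ⁻¹' K) :=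
      (hF.mono hCU).preimage_isClosed_of_isClosed hCc.isClosed hKc
    have h5 : {x : unitInterval × E | x ∈ {p : unitInterval × E | 0 < kap p.1.1 (N p.2)} ∧
        F x ∈ K} = C ∩ F ⁻¹' K := by
      ext p
      constructor
      · rintro ⟨hp, hpK⟩
        have hp' : 0 < kap p.1.1 (N p.2) := hp
        have h6 := hRK _ hpK
        rw [hFN p hp', div_le_iff₀ hp'] at h6
        have h7 : kap p.1.1 (N p.2) ≤ 1 := kap_le_one p.1.2.1
        refine ⟨⟨⟨mem_univ _, ?_⟩, ?_⟩, hpK⟩
        · show N p.2 ≤ R
          nlinarith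
        · show R⁻¹ ≤ kap p.1.1 (N p.2)
          by_cases h8 : N p.2 ≤ 1
          · rw [kap_of_le h8]
            exact inv_le_one_of_one_le₀ hR1
          · rw [inv_le_iff_one_le_mul₀ hRpos]
            nlinarith
      · rintro ⟨h6, h7⟩
        exact ⟨hCU h6, h7⟩
    rw [h5]
    exact hCc.of_isClosed_subset h4 inter_subset_left
  set M : unitInterval × OnePoint E → OnePoint E :=
    colT {p : unitInterval × E | 0 < kap p.1.1 (N p.2)} F with hMdef
  have hM : Continuous M := by
    have h5 : Continuous fun p : unitInterval × OnePoint E => sm (p.1 : OnePoint unitInterval) p.2 :=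
      sm_continuous.comp ((continuous_coe.comp continuous_fst).prodMk continuous_snd)
    refine (hM0.comp h5).congr fun p => ?_
    obtain ⟨t, x⟩ := p
    induction x using OnePoint.rec <;> rfl
  -- the radius
  set r : OnePoint E → ℝ := fun x => x.elim 0 fun e => (max 1 (N e))⁻¹ with hr
  have hrc : Continuous r := by
    rw [OnePoint.continuous_iff]
    constructor
    · show Tendsto (fun e => (max 1 (N e))⁻¹) (coclosedCompact E) (𝓝 0)
      refine Tendsto.comp tendsto_inv_atTop_zero ?_
      rw [tendsto_atTop]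
      intro b
      rw [hasBasis_coclosedCompact.eventually_iff]
      refine ⟨{e | N e ≤ b}, ⟨(hNc b).isClosed, hNc b⟩, fun e he => ?_⟩
      have : ¬ (N e ≤ b) := he
      exact (not_le.1 this).le.trans (le_max_right _ _)
    · show Continuous fun e => (max 1 (N e))⁻¹
      refine (continuous_const.max hN).inv₀ fun e => ?_
      have : (1 : ℝ) ≤ max 1 (N e) := le_max_left _ _
      positivity
  intro Z _ f γ hγ
  have hδc : Continuous fun p : unitInterval × OnePoint E => p.1.1 * (1 - r p.2) - r p.2 :=
    ((continuous_subtype_val.comp continuous_fst).mul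
      (continuous_const.sub (hrc.comp continuous_snd))).sub (hrc.comp continuous_snd)
  have hkr : ∀ (t : unitInterval) (e : E), kap t.1 (N e) =
      - ((t.1 * (1 - r (e : OnePoint E)) - r (e : OnePoint E)) * max 1 (N e)) := by
    intro t e
    show kap t.1 (N e) = - ((t.1 * (1 - (max 1 (N e))⁻¹) - (max 1 (N e))⁻¹) * max 1 (N e))
    have h1 : (1 : ℝ) ≤ max 1 (N e) := le_max_left _ _
    have h2 : max 0 (N e - 1) = max 1 (N e) - 1 := by
      rw [max_sub_sub_right (1 : ℝ) (N e) 1 |>.symm, sub_self]
    rw [kap, h2]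
    field_simp
    ring
  have hδ0 : ∀ p : unitInterval × OnePoint E, p.1.1 * (1 - r p.2) - r p.2 = 0 → M p = ∞ := by
    rintro ⟨t, x⟩ h
    induction x using OnePoint.rec with
    | infty => rfl
    | coe e =>
      refine if_neg ?_
      show ¬ (0 < kap t.1 (N e))
      have h' : t.1 * (1 - r (e : OnePoint E)) - r (e : OnePoint E) = 0 := h
      rw [hkr, h', zero_mul, neg_zero]
      exact lt_irrefl _
  refine ⟨⟨fun p => if p.1.1 * (1 - r p.2) - r p.2 ≤ 0 then f (M p) else
    γ (projIcc 0 1 zero_le_one (p.1.1 * (1 - r p.2) - r p.2)), ?_⟩, ?_, ?_⟩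
  · refine Continuous.if_le (f.continuous.comp hM)
      (γ.continuous.comp (continuous_projIcc.comp hδc)) hδc continuous_const ?_
    intro p hp
    rw [hδ0 p hp, ← hγ, hp]
    congr 1
    rw [projIcc_left]
    rfl
  · intro x
    have h1 : 0 ≤ r x := by
      induction x using OnePoint.rec with
      | infty => exact le_refl _
      | coe e =>
        show (0 : ℝ) ≤ (max 1 (N e))⁻¹
        have : (1 : ℝ) ≤ max 1 (N e) := le_max_left _ _
        positivity
    show (if (0 : ℝ) * (1 - r x) - r x ≤ 0 then f (M (0, x)) else _) = f x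
    rw [if_pos (by linarith)]
    congr 1
    induction x using OnePoint.rec with
    | infty => rfl
    | coe e =>
      have h2 : ((0 : unitInterval), e) ∈ {p : unitInterval × E | 0 < kap p.1.1 (N p.2)} := by
        show 0 < kap 0 (N e)
        rw [kap_zero]
        exact one_pos
      have h3 : M (0, (e : OnePoint E)) = ((F (0, e) : E) : OnePoint E) := if_pos h2
      rw [h3, hF0]
  · intro t
    show (if t.1 * (1 - (0 : ℝ)) - 0 ≤ 0 then f (M (t, ∞)) else
      γ (projIcc 0 1 zero_le_one (t.1 * (1 - (0 : ℝ)) - 0))) = γ t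
    rw [sub_zero, sub_zero, mul_one]
    split_ifs with h
    · have h1 : t = 0 := Subtype.ext (le_antisymm h t.2.1)
      rw [h1]
      exact hγ.symm
    · congr 1
      exact projIcc_of_mem _ t.2

end Pool.Agent.W641.OS
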