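import Pool.Agent.W641.OS.WP

/-!
# The base points of `S`, `B` and `X` are nondegenerate
-/

set_option autoImplicit false
set_option linter.unusedVariables false
set_option synthInstance.maxHeartbeats 400000

namespace Pool.Agent.W641.OS

open Topology OnePoint Matrix Set Filter

theorem wp_S' (n : ℕ) : WellPointed (OnePoint (univ : Set (Fin n → ℝ))) ∞ := by
  have hN : Continuous fun e : (univ : Set (Fin n → ℝ)) => ‖e.1‖ := continuous_subtype_val.norm
  refine wellPointed_onePoint (fun e => ‖e.1‖) hN (fun e => norm_nonneg _) ?_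
    (fun p => ⟨(kap p.1.1 ‖p.2.1‖)⁻¹ • p.2.1, mem_univ _⟩) ?_ ?_ ?_
  · intro R
    rw [Subtype.isCompact_iff]
    have h1 : Subtype.val '' {e : (univ : Set (Fin n → ℝ)) | ‖e.1‖ ≤ R} =
        Metric.closedBall (0 : Fin n → ℝ) R := by
      ext w
      rw [mem_closedBall_zero_iff]
      constructor
      · rintro ⟨e, he, rfl⟩
        exact he
      · intro h
        exact ⟨⟨w, mem_univ _⟩, h, rfl⟩
    rw [h1]
    exact isCompact_closedBall _ _
  · have hk : Continuous fun p : unitInterval × (univ : Set (Fin n → ℝ)) =>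
        kap p.1.1 ‖p.2.1‖ := kap_cont (continuous_subtype_val.comp continuous_fst)
          (hN.comp continuous_snd)
    have h1 : ContinuousOn (fun p : unitInterval × (univ : Set (Fin n → ℝ)) =>
        (kap p.1.1 ‖p.2.1‖)⁻¹ • p.2.1) {p | 0 < kap p.1.1 ‖p.2.1‖} :=
      (hk.continuousOn.inv₀ fun p (hp : 0 < _) => hp.ne').smul
        (continuous_subtype_val.comp continuous_snd).continuousOn
    rw [continuousOn_iff_continuous_domRestrict] at h1 ⊢
    exact Continuous.subtype_mk h1 _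
  · intro e
    apply Subtype.ext
    show (kap 0 ‖e.1‖)⁻¹ • e.1 = e.1
    rw [kap_zero, inv_one, one_smul]
  · intro p hp
    show ‖(kap p.1.1 ‖p.2.1‖)⁻¹ • p.2.1‖ = ‖p.2.1‖ / kap p.1.1 ‖p.2.1‖
    rw [norm_smul, norm_inv, Real.norm_eq_abs, abs_of_pos hp, div_eq_inv_mul]

theorem wp_S (n : ℕ) : WellPointed (famS.spec.sp n) (famS.spec.pt n) := wp_S' n

theorem wp_B (n : ℕ) : WellPointed (famB.spec.sp n) (famB.spec.pt n) :=
  WellPointed.homeo (A := OnePoint (univ : Set (Fin n → ℝ))) (B := OnePoint (EB n))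
    (ballHomeo n).onePointCongr.symm (a := ∞) (b := ∞) rfl (wp_S' n)

theorem compact_E' (n : ℕ) (R : ℝ) (C : Set (V2 n)) (hC : IsClosed C) (hCE : C ⊆ EX n)
    (h2 : ∀ w ∈ C, w.2.1 ⬝ᵥ w.2.1 ≤ R) : IsCompact C := by
  have h1 : IsCompact ((Icc (0 : ℝ) 1) ×ˢ ({v : Fin n → ℝ | (v - 0) ⬝ᵥ (v - 0) ≤ R} ×ˢ
      {v : Fin n → ℝ | (v - 0) ⬝ᵥ (v - 0) ≤ 1})) :=
    isCompact_Icc.prod ((compact_ball_dot 0 R).prod (compact_ball_dot 0 1))
  refine h1.of_isClosed_subset hC ?_
  intro w hw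
  obtain ⟨h3, h4, h5⟩ := hCE hw
  refine ⟨⟨A0_nonneg h3, A0_le_one h3⟩, ?_, ?_⟩
  · show (w.2.1 - 0) ⬝ᵥ (w.2.1 - 0) ≤ R
    rw [sub_zero]
    exact h2 w hw
  · show (w.2.2 - 0) ⬝ᵥ (w.2.2 - 0) ≤ 1
    rw [sub_zero, h4]
    have := A0_nonneg h3
    have := A0_le_one h3
    nlinarith

/-- Half of the euclidean norm of `z`. -/
noncomputable def nuX {n : ℕ} (w : V2 n) : ℝ := Real.sqrt (w.2.1 ⬝ᵥ w.2.1) / 2

/-- The coefficient of `y`. -/
noncomputable def coA (k M : ℝ) : ℝ := Real.sqrt (1 + (1 - k ^ 2) / max (M - 1) 1)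

/-- The coefficient of `s z`. -/
noncomputable def coC (k M : ℝ) : ℝ := (k - coA k M) / max M 1

/-- The push. -/
noncomputable def pushX {n : ℕ} (t : ℝ) (w : V2 n) : V2 n :=
  (w.1, (kap t (nuX w))⁻¹ • w.2.1, coA (kap t (nuX w)) (w.2.1 ⬝ᵥ w.2.1) • w.2.2 +
    (w.1 * coC (kap t (nuX w)) (w.2.1 ⬝ᵥ w.2.1)) • w.2.1)

theorem nuX_cont {n : ℕ} : Continuous (nuX : V2 n → ℝ) :=
  (dot_continuous (continuous_fst.comp continuous_snd)
    (continuous_fst.comp continuous_snd)).sqrt.div_const _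

theorem pushX_of_le {n : ℕ} {t : ℝ} {w : V2 n} (h : nuX w ≤ 1) : pushX t w = w := by
  have h1 : coA 1 (w.2.1 ⬝ᵥ w.2.1) = 1 := by simp [coA]
  have h2 : coC 1 (w.2.1 ⬝ᵥ w.2.1) = 0 := by simp [coC, h1]
  rw [pushX, kap_of_le h, h1, h2, mul_zero, zero_smul, add_zero, inv_one, one_smul, one_smul]

theorem pushX_zero {n : ℕ} (w : V2 n) : pushX 0 w = w := by
  have h1 : coA 1 (w.2.1 ⬝ᵥ w.2.1) = 1 := by simp [coA]
  have h2 : coC 1 (w.2.1 ⬝ᵥ w.2.1) = 0 := by simp [coC, h1]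
  rw [pushX, kap_zero, h1, h2, mul_zero, zero_smul, add_zero, inv_one, one_smul, one_smul]

theorem nu_sq {n : ℕ} (w : V2 n) : (2 * nuX w) ^ 2 = w.2.1 ⬝ᵥ w.2.1 := by
  have h1 : 2 * nuX w = Real.sqrt (w.2.1 ⬝ᵥ w.2.1) := by
    unfold nuX
    ring
  rw [h1, Real.sq_sqrt (dot_self_nonneg _)]

theorem pushX_mem {n : ℕ} {t : ℝ} (ht : 0 ≤ t) {w : V2 n} (hw : w ∈ EX n)
    (hk : 0 < kap t (nuX w)) : pushX t w ∈ EX n := by
  by_cases h : nuX w ≤ 1
  · rw [pushX_of_le h]
    exact hw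
  · have h0 : 1 < nuX w := not_le.1 h
    obtain ⟨h1, h2, h3⟩ := hw
    have hM := nu_sq w
    have hk1 : kap t (nuX w) ≤ 1 := kap_le_one ht
    set k := kap t (nuX w) with hkdef
    set M := w.2.1 ⬝ᵥ w.2.1 with hMdef
    have hM4 : 4 < M := by nlinarith
    have hm1 : max (M - 1) 1 = M - 1 := max_eq_left (by linarith)
    have hm2 : max M 1 = M := max_eq_left (by linarith)
    have hA2 : coA k M ^ 2 = 1 + (1 - k ^ 2) / (M - 1) := by
      rw [coA, hm1, Real.sq_sqrt]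
      have : 0 ≤ (1 - k ^ 2) / (M - 1) := div_nonneg (by nlinarith) (by linarith)
      linarith
    have hAC : coA k M + coC k M * M = k := by
      rw [coC, hm2]
      field_simp
      ring
    refine ⟨h1, ?_, ?_⟩
    · show (coA k M • w.2.2 + (w.1 * coC k M) • w.2.1) ⬝ᵥ
        (coA k M • w.2.2 + (w.1 * coC k M) • w.2.1) = w.1 ^ 2
      rw [add_dotProduct, dotProduct_add, dotProduct_add, smul_dotProduct, smul_dotProduct,
        smul_dotProduct, smul_dotProduct, dotProduct_smul, dotProduct_smul, dotProduct_smul,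
        dotProduct_smul, h2, h3, dotProduct_comm w.2.1 w.2.2, h3, ← hMdef]
      simp only [smul_eq_mul]
      have h5 : coC k M = (k - coA k M) / M := by rw [coC, hm2]
      have hM0 : M ≠ 0 := by linarith
      have hM1 : M - 1 ≠ 0 := by linarith
      have h6 : coA k M ^ 2 * (M - 1) = M - k ^ 2 := by
        rw [hA2]
        field_simp
        ring
      rw [h5]
      field_simp
      linear_combination (w.1 ^ 2) * h6
    · show (coA k M • w.2.2 + (w.1 * coC k M) • w.2.1) ⬝ᵥ (k⁻¹ • w.2.1) = w.1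
      rw [add_dotProduct, smul_dotProduct, smul_dotProduct, dotProduct_smul, dotProduct_smul,
        h3, ← hMdef]
      simp only [smul_eq_mul]
      have h7 : coA k M * (k⁻¹ * w.1) + w.1 * coC k M * (k⁻¹ * M) =
          (coA k M + coC k M * M) * k⁻¹ * w.1 := by ring
      rw [h7, hAC, mul_inv_cancel₀ hk.ne', one_mul]

theorem pushX_cont {T : Type*} [TopologicalSpace T] {n : ℕ} {t : T → ℝ} {w : T → V2 n}
    (ht : Continuous t) (hw : Continuous w) :
    ContinuousOn (fun x => pushX (t x) (w x)) {x | 0 < kap (t x) (nuX (w x))} := by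
  have hk : Continuous fun x => kap (t x) (nuX (w x)) := kap_cont ht (nuX_cont.comp hw)
  have hz : Continuous fun x => ((w x).2.1 : Fin n → ℝ) :=
    continuous_fst.comp (continuous_snd.comp hw)
  have hy : Continuous fun x => ((w x).2.2 : Fin n → ℝ) :=
    continuous_snd.comp (continuous_snd.comp hw)
  have hs : Continuous fun x => (w x).1 := continuous_fst.comp hw
  have hM : Continuous fun x => (w x).2.1 ⬝ᵥ (w x).2.1 := dot_continuous hz hz
  have hA : Continuous fun x => coA (kap (t x) (nuX (w x))) ((w x).2.1 ⬝ᵥ (w x).2.1) := by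
    refine Continuous.sqrt (continuous_const.add (Continuous.div₀
      (continuous_const.sub (hk.pow 2)) ((hM.sub continuous_const).max continuous_const) ?_))
    intro x
    have : (1 : ℝ) ≤ max ((w x).2.1 ⬝ᵥ (w x).2.1 - 1) 1 := le_max_right _ _
    positivity
  have hC : Continuous fun x => coC (kap (t x) (nuX (w x))) ((w x).2.1 ⬝ᵥ (w x).2.1) := by
    refine Continuous.div₀ (hk.sub hA) (hM.max continuous_const) ?_
    intro x
    have : (1 : ℝ) ≤ max ((w x).2.1 ⬝ᵥ (w x).2.1) 1 := le_max_right _ _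
    positivity
  refine hs.continuousOn.prodMk (ContinuousOn.prodMk ?_ ?_)
  · exact (hk.continuousOn.inv₀ fun p (hp : 0 < _) => hp.ne').smul hz.continuousOn
  · exact ((hA.smul hy).add ((hs.mul hC).smul hz)).continuousOn

theorem wp_X' (n : ℕ) : WellPointed (OnePoint (EX n)) ∞ := by
  classical
  have hN : Continuous fun e : EX n => nuX e.1 := nuX_cont.comp continuous_subtype_val
  refine wellPointed_onePoint (fun e : EX n => nuX e.1) hN (fun e => ?_) ?_
    (fun p => if h : 0 < kap p.1.1 (nuX p.2.1) then ⟨pushX p.1.1 p.2.1,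
      pushX_mem p.1.2.1 p.2.2 h⟩ else p.2) ?_ ?_ ?_
  · exact div_nonneg (Real.sqrt_nonneg _) zero_le_two
  · intro R
    rw [Subtype.isCompact_iff]
    have h1 : Subtype.val '' {e : EX n | nuX e.1 ≤ R} = EX n ∩ {w | nuX w ≤ R} := by
      ext w
      constructor
      · rintro ⟨e, he, rfl⟩
        exact ⟨e.2, he⟩
      · rintro ⟨hw, hw'⟩
        exact ⟨⟨w, hw⟩, hw', rfl⟩
    rw [h1]
    refine compact_E' n ((2 * R) ^ 2) _ ((isClosed_EX n).inter
      (isClosed_le nuX_cont continuous_const)) inter_subset_left ?_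
    intro w hw
    have h2 : nuX w ≤ R := hw.2
    have h3 : 0 ≤ nuX w := div_nonneg (Real.sqrt_nonneg _) zero_le_two
    rw [← nu_sq]
    nlinarith
  · have h1 : ContinuousOn (fun p : unitInterval × EX n => pushX p.1.1 p.2.1)
        {p | 0 < kap p.1.1 (nuX p.2.1)} :=
      pushX_cont (continuous_subtype_val.comp continuous_fst)
        (continuous_subtype_val.comp continuous_snd)
    rw [continuousOn_iff_continuous_domRestrict] at h1 ⊢
    rw [continuous_induced_rng]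
    refine h1.congr fun p => ?_
    show pushX p.1.1.1 p.1.2.1 = Subtype.val (if h : 0 < kap p.1.1.1 (nuX p.1.2.1) then
      (⟨pushX p.1.1.1 p.1.2.1, pushX_mem p.1.1.2.1 p.1.2.2 h⟩ : EX n) else p.1.2)
    have hp : 0 < kap p.1.1.1 (nuX p.1.2.1) := p.2
    exact congrArg Subtype.val (dif_pos (c := 0 < kap p.1.1.1 (nuX p.1.2.1))
      (t := fun h => (⟨pushX p.1.1.1 p.1.2.1, pushX_mem p.1.1.2.1 p.1.2.2 h⟩ : EX n))
      (e := fun _ => p.1.2) hp).symm
  · intro e
    have h1 : 0 < kap 0 (nuX e.1) := by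
      rw [kap_zero]
      exact one_pos
    show (if h : 0 < kap 0 (nuX e.1) then (⟨pushX 0 e.1, pushX_mem le_rfl e.2 h⟩ : EX n)
      else e) = e
    rw [dif_pos h1]
    exact Subtype.ext (pushX_zero e.1)
  · intro p hp
    have h1 : (if h : 0 < kap p.1.1 (nuX p.2.1) then
      (⟨pushX p.1.1 p.2.1, pushX_mem p.1.2.1 p.2.2 h⟩ : EX n) else p.2) =
      ⟨pushX p.1.1 p.2.1, pushX_mem p.1.2.1 p.2.2 hp⟩ := dif_pos hp
    show nuX (if h : 0 < kap p.1.1 (nuX p.2.1) then
      (⟨pushX p.1.1 p.2.1, pushX_mem p.1.2.1 p.2.2 h⟩ : EX n) else p.2).1 = _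
    rw [h1]
    have hp' : 0 < kap p.1.1 (nuX p.2.1) := hp
    show Real.sqrt (((kap p.1.1 (nuX p.2.1))⁻¹ • p.2.1.2.1) ⬝ᵥ
      ((kap p.1.1 (nuX p.2.1))⁻¹ • p.2.1.2.1)) / 2 = nuX p.2.1 / kap p.1.1 (nuX p.2.1)
    rw [smul_dotProduct, dotProduct_smul, smul_eq_mul, smul_eq_mul, ← mul_assoc,
      Real.sqrt_mul (mul_self_nonneg _), Real.sqrt_mul_self (inv_nonneg.2 hp'.le)]
    unfold nuX
    ring

theorem wp_X (n : ℕ) : WellPointed (famX.spec.sp n) (famX.spec.pt n) := wp_X' n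

end Pool.Agent.W641.OS
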