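import Pool.Agent.W641.OS.Col

/-!
# The element `ξ`
-/

set_option autoImplicit false
set_option linter.unusedVariables false
set_option synthInstance.maxHeartbeats 400000

namespace Pool.Agent.W641.OS

open Topology OnePoint Matrix Set Filter

/-- `ℝ^{1+a} × ℝ → ℝ^{2+a}`, the last argument becomes the first coordinate. -/
def Th (a : ℕ) (w : Fin (1 + a) → ℝ) (τ : ℝ) : Fin (1 + 1 + a) → ℝ :=
  fun k => if h : k.1 = 0 then τ else w ⟨k.1 - 1, by omega⟩

theorem Th_eq (a : ℕ) (w : Fin (1 + a) → ℝ) (τ : ℝ) :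
    Th a w τ = fun k => (Fin.cons τ w : Fin (1 + a + 1) → ℝ) (Fin.cast (by omega) k) := by
  funext k
  by_cases h : k.1 = 0
  · have h1 : (Fin.cast (by omega) k : Fin (1 + a + 1)) = 0 := by
      ext
      simpa using h
    rw [h1, Fin.cons_zero, Th, dif_pos h]
  · have h1 : (Fin.cast (by omega) k : Fin (1 + a + 1)) =
        Fin.succ (⟨k.1 - 1, by omega⟩ : Fin (1 + a)) := by
      ext
      simp
      omega
    rw [h1, Fin.cons_succ, Th, dif_neg h]

theorem Th_dot (a : ℕ) (w w' : Fin (1 + a) → ℝ) (τ τ' : ℝ) :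
    Th a w τ ⬝ᵥ Th a w' τ' = w ⬝ᵥ w' + τ * τ' := by
  rw [Th_eq, Th_eq]
  simp only [dotProduct]
  have h1 : ∑ k : Fin (1 + 1 + a), (Fin.cons τ w : Fin (1 + a + 1) → ℝ) (Fin.cast (by omega) k) *
      (Fin.cons τ' w' : Fin (1 + a + 1) → ℝ) (Fin.cast (by omega) k) =
      ∑ k : Fin (1 + a + 1), (Fin.cons τ w : Fin (1 + a + 1) → ℝ) k *
        (Fin.cons τ' w' : Fin (1 + a + 1) → ℝ) k :=
    Fintype.sum_equiv (finCongr (by omega)) _ _ fun k => rfl
  rw [h1, Fin.sum_univ_succ]
  simp only [Fin.cons_zero, Fin.cons_succ]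
  ring

theorem Th_snoc (a : ℕ) (w : Fin (1 + a) → ℝ) (τ t : ℝ) :
    (Fin.snoc (Th a w τ) t : Fin (1 + 1 + a + 1) → ℝ) =
      Th (a + 1) (Fin.snoc w t : Fin (1 + a + 1) → ℝ) τ := by
  funext k
  refine Fin.lastCases ?_ (fun j => ?_) k
  · rw [Fin.snoc_last, Th, dif_neg (by simp; try omega)]
    have h1 : (⟨(Fin.last (1 + 1 + a)).1 - 1, by simp; try omega⟩ : Fin (1 + (a + 1))) =
        Fin.last (1 + a) := by
      ext
      simp
      try omega
    have h2 : (Fin.snoc w t : Fin (1 + a + 1) → ℝ) (Fin.last (1 + a)) = t := Fin.snoc_last _ _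
    exact (h2.symm.trans (congrArg (Fin.snoc w t : Fin (1 + a + 1) → ℝ) h1.symm))
  · rw [Fin.snoc_castSucc]
    by_cases h : j.1 = 0
    · rw [Th, dif_pos h, Th, dif_pos (by simpa using h)]
    · rw [Th, dif_neg h, Th, dif_neg (by simpa using h)]
      have h1 : (⟨(Fin.castSucc j).1 - 1, by have := j.2; simp; omega⟩ : Fin (1 + (a + 1))) =
          Fin.castSucc (⟨j.1 - 1, by omega⟩ : Fin (1 + a)) := by
        ext
        simp
      have h2 : (Fin.snoc w t : Fin (1 + a + 1) → ℝ)
          (Fin.castSucc (⟨j.1 - 1, by omega⟩ : Fin (1 + a))) = w ⟨j.1 - 1, by omega⟩ :=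
        Fin.snoc_castSucc _ _ _
      exact (h2.symm.trans (congrArg (Fin.snoc w t : Fin (1 + a + 1) → ℝ) h1.symm))

/-- The homeomorphism `ℝ^{1+a} × ℝ ≃ ℝ^{2+a}`. -/
def ThH (a : ℕ) : (Fin (1 + a) → ℝ) × ℝ ≃ₜ (Fin (1 + 1 + a) → ℝ) where
  toFun p := Th a p.1 p.2
  invFun z := (fun k => z ⟨k.1 + 1, by omega⟩, z ⟨0, by omega⟩)
  left_inv p := by
    refine Prod.ext ?_ ?_
    · funext k
      simp [Th]
    · simp [Th]
  right_inv z := by
    funext k
    show Th a (fun k => z ⟨k.1 + 1, by omega⟩) (z ⟨0, by omega⟩) k = z k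
    by_cases h : k.1 = 0
    · simp only [Th]
      rw [dif_pos h]
      congr 1
      ext
      exact h.symm
    · simp only [Th]
      rw [dif_neg h]
      congr 1
      ext
      show k.1 - 1 + 1 = k.1
      omega
  continuous_toFun := by
    refine continuous_pi fun k => ?_
    by_cases h : k.1 = 0
    · simp only [Th, h, dif_pos]
      exact continuous_snd
    · simp only [Th, h, dif_neg, not_false_eq_true]
      exact (continuous_apply _).comp continuous_fst
  continuous_invFun := by fun_prop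

theorem ThH_apply (a : ℕ) (w : Fin (1 + a) → ℝ) (τ : ℝ) : ThH a (w, τ) = Th a w τ := rfl

theorem Th_add (a : ℕ) (w w' : Fin (1 + a) → ℝ) (τ τ' : ℝ) :
    Th a w τ + Th a w' τ' = Th a (w + w') (τ + τ') := by
  funext k
  by_cases h : k.1 = 0
  · simp [Th, h]
  · simp [Th, h]

theorem Th_smul (a : ℕ) (c : ℝ) (w : Fin (1 + a) → ℝ) (τ : ℝ) :
    c • Th a w τ = Th a (c • w) (c * τ) := by
  funext k
  by_cases h : k.1 = 0
  · simp [Th, h]
  · simp [Th, h]

/-- The points `1/(i+1)`. -/
noncomputable def sI (i : ℕ) : ℝ := 1 / ((i : ℝ) + 1)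

theorem sI_pos (i : ℕ) : 0 < sI i := by
  unfold sI
  positivity

theorem sI_mem (i : ℕ) : sI i ∈ A0 := Or.inr ⟨i, rfl⟩

theorem sI_inj {i k : ℕ} (h : sI i = sI k) : i = k := by
  unfold sI at h
  have h1 : ((i : ℝ) + 1) = (k : ℝ) + 1 := by
    have := congrArg (fun x => x⁻¹) h
    simpa using this
  exact_mod_cast (add_right_cancel h1)

/-- The centres of the balls. -/
noncomputable def cI (a i : ℕ) : Fin (1 + a) → ℝ := Fin.append (fun _ => 2 * (i : ℝ)) 0

/-- The points of `W`. -/
noncomputable def PI (a i : ℕ) (v : Fin (1 + a) → ℝ) : V2 (1 + 1 + a) :=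
  (sI i, Th a (v - cI a i) 1, Th a 0 (sI i))

/-- The index. -/
noncomputable def idx (a : ℕ) (v : Fin (1 + a) → ℝ) : ℕ := ⌊(v (Fin.castAdd a 0) + 1) / 2⌋₊

/-- The map `ξ`. -/
noncomputable def xiF (a : ℕ) (w : OnePoint (Fin (1 + a) → ℝ)) :
    OnePoint (famW.E (1 + 1 + a)) :=
  w.elim ∞ fun v => famW.pnt (1 + 1 + a) (PI a (idx a v) v)

theorem PI_mem_EX (a i : ℕ) (v : Fin (1 + a) → ℝ) : PI a i v ∈ EX (1 + 1 + a) := by
  refine ⟨sI_mem i, ?_, ?_⟩
  · simp only [PI, Th_dot, dotProduct_zero]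
    ring
  · simp only [PI, Th_dot, zero_dotProduct]
    ring

theorem PI_mem_EW (a i : ℕ) (v : Fin (1 + a) → ℝ) :
    PI a i v ∈ EW (1 + 1 + a) ↔ (v - cI a i) ⬝ᵥ (v - cI a i) < 1 := by
  rw [mem_EW]
  simp only [PI, Th_dot]
  have h0 := dot_self_nonneg (v - cI a i)
  constructor
  · rintro ⟨_, h | ⟨_, h⟩⟩
    · linarith
    · linarith
  · intro h
    exact ⟨PI_mem_EX a i v, Or.inr ⟨(sI_pos i).ne', by linarith⟩⟩

theorem idx_eq (a i : ℕ) (v : Fin (1 + a) → ℝ) (h : (v - cI a i) ⬝ᵥ (v - cI a i) < 1) :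
    idx a v = i := by
  have h1 : (v (Fin.castAdd a 0) - 2 * (i : ℝ)) ^ 2 < 1 := by
    have h2 : (v (Fin.castAdd a 0) - 2 * (i : ℝ)) ^ 2 ≤ (v - cI a i) ⬝ᵥ (v - cI a i) := by
      have h3 : v (Fin.castAdd a 0) - 2 * (i : ℝ) = (v - cI a i) (Fin.castAdd a 0) := by
        simp [cI]
      rw [h3, sq]
      simp only [dotProduct]
      exact Finset.single_le_sum (f := fun k => (v - cI a i) k * (v - cI a i) k)
        (fun k _ => mul_self_nonneg _) (Finset.mem_univ _)
    linarith
  have h2 := abs_lt.1 ((sq_lt_one_iff_abs_lt_one _).1 h1)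
  unfold idx
  rw [Nat.floor_eq_iff (by
    have : (0 : ℝ) ≤ (i : ℝ) := Nat.cast_nonneg i
    linarith [h2.1])]
  constructor <;> linarith [h2.1, h2.2]

theorem PI_cont (a i : ℕ) : Continuous (PI a i) := by
  refine continuous_const.prodMk (Continuous.prodMk ?_ continuous_const)
  exact (ThH a).continuous.comp ((continuous_id.sub continuous_const).prodMk continuous_const)

theorem compact_ball_dot {n : ℕ} (c : Fin n → ℝ) (R : ℝ) :
    IsCompact {v : Fin n → ℝ | (v - c) ⬝ᵥ (v - c) ≤ R} := by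
  have h1 : IsCompact (Set.pi univ fun k => Icc (c k - (|R| + 1)) (c k + (|R| + 1))) :=
    isCompact_univ_pi fun _ => isCompact_Icc
  refine h1.of_isClosed_subset ?_ ?_
  · exact isClosed_le (dot_continuous (continuous_id.sub continuous_const)
      (continuous_id.sub continuous_const)) continuous_const
  · intro v hv k _
    have h2 : (v k - c k) ^ 2 ≤ R := by
      refine le_trans ?_ hv
      rw [sq]
      simp only [dotProduct]
      exact Finset.single_le_sum (f := fun k => (v - c) k * (v - c) k)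
        (fun k _ => mul_self_nonneg _) (Finset.mem_univ _)
    have h3 : |v k - c k| ≤ |R| + 1 := by
      have h4 : |v k - c k| ^ 2 ≤ |R| := by
        rw [sq_abs]
        exact h2.trans (le_abs_self R)
      nlinarith [abs_nonneg (v k - c k), abs_nonneg R]
    rw [abs_le] at h3
    constructor <;> linarith [h3.1, h3.2]

/-- On compact subsets of `EW n` the positive values of `s` are bounded below. -/
theorem exists_delta {n : ℕ} (K : Set (V2 n)) (hK : IsCompact K) (hKE : K ⊆ EW n) :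
    ∃ δ > 0, ∀ w ∈ K, w.1 ≠ 0 → δ ≤ w.1 := by
  have h1 : Continuous fun w : V2 n => w.2.1 ⬝ᵥ w.2.1 :=
    dot_continuous (continuous_fst.comp continuous_snd) (continuous_fst.comp continuous_snd)
  have hK' : IsCompact (K ∩ {w | 1 ≤ w.2.1 ⬝ᵥ w.2.1}) :=
    hK.inter_right (isClosed_le continuous_const h1)
  have hpos : ∀ w ∈ K ∩ {w | 1 ≤ w.2.1 ⬝ᵥ w.2.1}, 0 < w.1 := by
    rintro w ⟨hw, hw'⟩
    have h2 := hKE hw
    have h3 : w.1 ≠ 0 := by
      rcases h2.2 with h | h
      · exact absurd h (not_lt.2 hw')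
      · exact h.1
    have h4 : 0 ≤ w.1 := by
      rcases h2.1.1 with h | ⟨i, h⟩
      · rw [h]
      · rw [← h]
        positivity
    exact lt_of_le_of_ne h4 h3.symm
  by_cases hne : (K ∩ {w | 1 ≤ w.2.1 ⬝ᵥ w.2.1}).Nonempty
  · obtain ⟨w0, hw0, hmin⟩ := hK'.exists_isMinOn hne continuous_fst.continuousOn
    refine ⟨w0.1, hpos w0 hw0, fun w hw hw1 => ?_⟩
    exact hmin ⟨hw, one_le_of_mem (hKE hw).1 hw1⟩
  · refine ⟨1, one_pos, fun w hw hw1 => ?_⟩
    exact absurd ⟨w, hw, one_le_of_mem (hKE hw).1 hw1⟩ hne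

/-- A version of `partial_cont` with values in a family. -/
theorem partial_cont' {A : Amb} (G : Fam A) (n : ℕ) {X : Type*} [TopologicalSpace X] [T2Space X]
    (f : X → A.V n) (hU : IsOpen {x | f x ∈ G.E n}) (hf : ContinuousOn f {x | f x ∈ G.E n})
    (hK : ∀ K : Set (A.V n), IsCompact K → K ⊆ G.E n → IsCompact (f ⁻¹' K)) :
    Continuous fun w : OnePoint X => (w.elim ∞ fun x => G.pnt n (f x) : OnePoint (G.E n)) := by
  classical
  by_cases hne : {x | f x ∈ G.E n}.Nonempty
  · obtain ⟨x0, hx0⟩ := hne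
    refine partial_cont {x | f x ∈ G.E n} hU
      (fun x => if h : f x ∈ G.E n then (⟨f x, h⟩ : G.E n) else ⟨f x0, hx0⟩) ?_ ?_ _ rfl ?_ ?_
    · rw [continuousOn_iff_continuous_domRestrict]
      have h1 : Continuous fun x : {x | f x ∈ G.E n} => (⟨f x.1, x.2⟩ : G.E n) :=
        Continuous.subtype_mk (continuousOn_iff_continuous_domRestrict.1 hf) _
      refine h1.congr fun x => ?_
      exact (dif_pos x.2).symm
    · intro K _ hKc
      have h1 := hK (Subtype.val '' K) (hKc.image continuous_subtype_val) (by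
        rintro _ ⟨y, _, rfl⟩
        exact y.2)
      convert h1 using 1
      ext x
      constructor
      · rintro ⟨hx, hx'⟩
        have hx1 : f x ∈ G.E n := hx
        simp only [dif_pos hx1] at hx'
        exact ⟨_, hx', rfl⟩
      · rintro ⟨y, hy, hy'⟩
        have hx1 : f x ∈ G.E n := by
          rw [← hy']
          exact y.2
        refine ⟨hx1, ?_⟩
        show (if h : f x ∈ G.E n then (⟨f x, h⟩ : G.E n) else ⟨f x0, hx0⟩) ∈ K
        rw [dif_pos hx1]
        have : (⟨f x, hx1⟩ : G.E n) = y := Subtype.ext hy'.symm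
        rw [this]
        exact hy
    · intro x hx
      have hx1 : f x ∈ G.E n := hx
      simp only [dif_pos hx1]
      exact G.pnt_of_mem hx1
    · intro x hx
      exact G.pnt_of_notMem hx
  · have h1 : ∀ x, f x ∉ G.E n := fun x hx => hne ⟨x, hx⟩
    refine (continuous_const : Continuous fun _ : OnePoint X => (∞ : OnePoint (G.E n))).congr ?_
    intro w
    induction w using OnePoint.rec with
    | infty => rfl
    | coe x => exact (G.pnt_of_notMem (h1 x)).symm

theorem xiF_continuous (a : ℕ) : Continuous (xiF a) := by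
  have hop : {x : Fin (1 + a) → ℝ | PI a (idx a x) x ∈ EW (1 + 1 + a)} =
      ⋃ i, {x : Fin (1 + a) → ℝ | (x - cI a i) ⬝ᵥ (x - cI a i) < 1} := by
    ext x
    rw [mem_ofPred_eq, PI_mem_EW, mem_iUnion]
    constructor
    · intro h
      exact ⟨_, h⟩
    · rintro ⟨i, hi⟩
      have hi' : (x - cI a i) ⬝ᵥ (x - cI a i) < 1 := hi
      rw [idx_eq a i x hi']
      exact hi'
  have hopen : ∀ i, IsOpen {x : Fin (1 + a) → ℝ | (x - cI a i) ⬝ᵥ (x - cI a i) < 1} := by
    intro i
    exact isOpen_lt (dot_continuous (continuous_id.sub continuous_const)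
      (continuous_id.sub continuous_const)) continuous_const
  refine partial_cont' famW (1 + 1 + a) (fun v => (PI a (idx a v) v : V2 (1 + 1 + a)))
    ?_ ?_ ?_
  · show IsOpen {x : Fin (1 + a) → ℝ | PI a (idx a x) x ∈ EW (1 + 1 + a)}
    rw [hop]
    exact isOpen_iUnion hopen
  · show ContinuousOn _ {x : Fin (1 + a) → ℝ | PI a (idx a x) x ∈ EW (1 + 1 + a)}
    rw [hop]
    intro x hx
    obtain ⟨i, hi⟩ := mem_iUnion.1 hx
    refine ContinuousAt.continuousWithinAt ?_
    refine (PI_cont a i).continuousAt.congr ?_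
    filter_upwards [(hopen i).mem_nhds hi] with x' hx'
    rw [idx_eq a i x' hx']
  · intro K hK hKE
    obtain ⟨δ, hδ, hδ'⟩ := exists_delta K hK hKE
    obtain ⟨N, hN⟩ := exists_nat_gt (1 / δ)
    have hKi : ∀ i, IsCompact (PI a i ⁻¹' K) := by
      intro i
      have h1 : IsClosed (PI a i ⁻¹' K) := hK.isClosed.preimage (PI_cont a i)
      refine (compact_ball_dot (cI a i) 1).of_isClosed_subset h1 ?_
      intro v hv
      have h2 : PI a i v ∈ EW (1 + 1 + a) := hKE hv
      exact ((PI_mem_EW a i v).1 h2).le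
    have hU : IsCompact (⋃ i ∈ Finset.range (N + 1), PI a i ⁻¹' K) :=
      (Finset.range (N + 1)).isCompact_biUnion fun i _ => hKi i
    convert hU using 1
    ext v
    simp only [mem_iUnion, Finset.mem_range, exists_prop]
    constructor
    · intro hv
      refine ⟨idx a v, ?_, hv⟩
      have h2 : δ ≤ sI (idx a v) := hδ' _ hv (sI_pos _).ne'
      unfold sI at h2
      have h3 : (0 : ℝ) < (idx a v : ℝ) + 1 := by positivity
      rw [le_div_iff₀ h3] at h2
      have h4 : (idx a v : ℝ) + 1 ≤ 1 / δ := by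
        rw [le_div_iff₀ hδ]
        linarith
      have h5 : (idx a v : ℝ) < N := by linarith
      have h6 : idx a v < N := by exact_mod_cast h5
      omega
    · rintro ⟨i, _, hi⟩
      have h2 : PI a i v ∈ EW (1 + 1 + a) := hKE hi
      rw [PI_mem_EW] at h2
      show PI a (idx a v) v ∈ K
      rw [idx_eq a i v h2]
      exact hi

/-- The representative `ξ` of an element of `π_{-1}(X ∧ Y')`. -/
noncomputable def xi (a : ℕ) : Rep famW.spec (-1) where
  j := 1 + a
  n := 1 + 1 + a
  h := by push_cast; ring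
  g := ⟨xiF a, xiF_continuous a⟩
  hg := rfl

theorem xi_susp (a : ℕ) : (xi a).susp = xi (a + 1) := by
  have h1 : ∀ w : OnePoint (Fin (1 + a + 1) → ℝ),
      Rep.suspFun (X := famW.spec) (1 + a) (1 + 1 + a) (xiF a) w = xiF (a + 1) w := by
    intro w
    induction w using OnePoint.rec with
    | infty => rfl
    | coe v =>
      obtain ⟨v', t, rfl⟩ : ∃ (v' : Fin (1 + a) → ℝ) (t : ℝ), v = Fin.snoc v' t :=
        ⟨_, _, (Fin.snoc_init_self (α := fun _ => ℝ) v).symm⟩
      have h2 : Rep.suspFun (X := famW.spec) (1 + a) (1 + 1 + a) (xiF a)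
          ((Fin.snoc v' t : Fin (1 + a + 1) → ℝ) : OnePoint (Fin (1 + a + 1) → ℝ)) =
          famW.σF (1 + 1 + a) (famW.pnt (1 + 1 + a) (PI a (idx a v') v')) (t : OnePoint ℝ) := by
        have h3 : (fun i : Fin (1 + a) => (Fin.snoc v' t : Fin (1 + a + 1) → ℝ) i.castSucc) =
            v' := by
          funext i
          exact Fin.snoc_castSucc _ _ _
        have h4 : (Fin.snoc v' t : Fin (1 + a + 1) → ℝ) (Fin.last (1 + a)) = t :=
          Fin.snoc_last _ _
        show famW.σF (1 + 1 + a) (xiF a ((fun i : Fin (1 + a) =>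
          (Fin.snoc v' t : Fin (1 + a + 1) → ℝ) i.castSucc : Fin (1 + a) → ℝ)))
          ((Fin.snoc v' t : Fin (1 + a + 1) → ℝ) (Fin.last (1 + a)) : ℝ) = _
        rw [h3, h4]
        rfl
      rw [h2]
      refine (famW.σF_pnt (1 + 1 + a) (PI a (idx a v') v') t).trans ?_
      show famW.pnt (1 + 1 + a + 1) (ι2 (1 + 1 + a) (PI a (idx a v') v') t) =
        famW.pnt (1 + 1 + (a + 1)) (PI (a + 1) (idx (a + 1) (Fin.snoc v' t : Fin (1 + a + 1) → ℝ))
          (Fin.snoc v' t : Fin (1 + a + 1) → ℝ))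
      have h5 : idx (a + 1) (Fin.snoc v' t : Fin (1 + a + 1) → ℝ) = idx a v' := by
        unfold idx
        have : (Fin.snoc v' t : Fin (1 + a + 1) → ℝ) (Fin.castAdd (a + 1) 0) =
            v' (Fin.castAdd a 0) := Fin.snoc_castSucc _ _ (Fin.castAdd a 0)
        rw [this]
      rw [h5]
      refine congrArg _ ?_
      refine Prod.ext rfl (Prod.ext ?_ ?_)
      · show (Fin.snoc (Th a (v' - cI a (idx a v')) 1) t : Fin (1 + 1 + a + 1) → ℝ) =
          Th (a + 1) ((Fin.snoc v' t : Fin (1 + a + 1) → ℝ) - cI (a + 1) (idx a v')) 1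
        rw [Th_snoc]
        congr 1
        funext k
        refine Fin.lastCases ?_ (fun j => ?_) k
        · rw [Fin.snoc_last, Pi.sub_apply, Fin.snoc_last]
          have : cI (a + 1) (idx a v') (Fin.last (1 + a)) = 0 := by
            have h6 : (Fin.last (1 + a) : Fin (1 + (a + 1))) = Fin.natAdd 1 (Fin.last a) := by
              ext
              simp
            rw [h6, cI, Fin.append_right]
            rfl
          rw [this, sub_zero]
        · rw [Fin.snoc_castSucc, Pi.sub_apply, Pi.sub_apply, Fin.snoc_castSucc]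
          have : cI (a + 1) (idx a v') (Fin.castSucc j) = cI a (idx a v') j := by
            refine Fin.addCases (fun l => ?_) (fun l => ?_) j
            · have h6 : (Fin.castSucc (Fin.castAdd a l) : Fin (1 + (a + 1))) =
                  Fin.castAdd (a + 1) l := by
                ext
                simp
              rw [h6, cI, cI, Fin.append_left, Fin.append_left]
            · have h6 : (Fin.castSucc (Fin.natAdd 1 l) : Fin (1 + (a + 1))) =
                  Fin.natAdd 1 l.castSucc := by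
                ext
                simp
              rw [h6, cI, cI, Fin.append_right, Fin.append_right]
              rfl
          rw [this]
      · show (Fin.snoc (Th a 0 (sI (idx a v'))) 0 : Fin (1 + 1 + a + 1) → ℝ) =
          Th (a + 1) 0 (sI (idx a v'))
        rw [Th_snoc, snoc_zero']
  have h2 : (⟨Rep.suspFun (X := famW.spec) (1 + a) (1 + 1 + a) (xiF a),
      Rep.suspFun_continuous _ _ _ (xiF_continuous a) rfl⟩ :
      C(OnePoint (Fin (1 + a + 1) → ℝ), famW.spec.sp (1 + 1 + a + 1))) =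
      ⟨xiF (a + 1), xiF_continuous (a + 1)⟩ := ContinuousMap.ext h1
  exact Rep.ext_of h2

theorem xi_iter (a : ℕ) : Rep.susp^[a] (xi 0) = xi a := by
  induction a with
  | zero => rfl
  | succ a ih => rw [Function.iterate_succ_apply', ih, xi_susp]

end Pool.Agent.W641.OS
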